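import Pool.Agent.H79.RU.Stm

/-!
# MP_a7284e_an, project RU: the chain of levels
-/

set_option autoImplicit false

namespace Pool.Agent.H79.RU

open Finset Classical
open Pool.Agent.H79.RT

theorem ch_pm {p : ℕ → ℝ} (hp : ∀ k, 0 ≤ p k) {l k : ℕ} (h : l ≤ k) :
    ∑ i ∈ range (l + 1), p i ≤ ∑ i ∈ range (k + 1), p i := by
  apply Finset.sum_le_sum_of_subset_of_nonneg
  · intro i hi
    simp only [Finset.mem_range] at hi ⊢
    omega
  · intro i _ _
    exact hp i

theorem ch_cm {p : ℕ → ℝ} (hp : ∀ k, 0 ≤ p k) (s : ℕ) {l k : ℕ} (h : l ≤ k) :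
    cls p s l ≤ cls p s k := by
  unfold cls
  exact Int.floor_le_floor (mul_le_mul_of_nonneg_left (ch_pm hp h) (by positivity))

theorem ch_fle (p : ℕ → ℝ) (s k : ℕ) : fst p s k ≤ k := by
  unfold fst
  refine le_trans (Finset.card_filter_le _ _) ?_
  simp

theorem ch_A {p : ℕ → ℝ} (hp : ∀ k, 0 ≤ p k) (s : ℕ) {l k : ℕ} (h : l ≤ k) :
    l < fst p s k ↔ cls p s l < cls p s k := by
  constructor
  · intro h1
    by_contra h2
    push Not at h2
    have h3 : ((range k).filter fun j => cls p s j < cls p s k) ⊆ range l := by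
      intro j hj
      simp only [Finset.mem_filter, Finset.mem_range] at hj ⊢
      by_contra h4
      push Not at h4
      have h5 := ch_cm hp s h4
      omega
    have h6 := Finset.card_le_card h3
    unfold fst at h1
    simp only [Finset.card_range] at h6
    omega
  · intro h1
    have hlk : l < k := by
      rcases Nat.lt_or_ge l k with h2 | h2
      · exact h2
      · have : l = k := le_antisymm h h2
        subst this
        omega
    have h3 : range (l + 1) ⊆ ((range k).filter fun j => cls p s j < cls p s k) := by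
      intro j hj
      simp only [Finset.mem_filter, Finset.mem_range] at hj ⊢
      have h5 := ch_cm hp s (show j ≤ l by omega)
      exact ⟨by omega, by omega⟩
    have h6 := Finset.card_le_card h3
    unfold fst
    simp only [Finset.card_range] at h6
    omega

theorem ch_ceq {p : ℕ → ℝ} (hp : ∀ k, 0 ≤ p k) (s k : ℕ) : cls p s (fst p s k) = cls p s k := by
  have h1 := ch_fle p s k
  have h2 := (ch_A hp s h1).not.1 (lt_irrefl _)
  have h3 := ch_cm hp s h1
  omega

theorem ch_ref {p : ℕ → ℝ} (s : ℕ) {l k : ℕ} (h : cls p s l < cls p s k) :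
    cls p (s + 1) l < cls p (s + 1) k := by
  unfold cls at h ⊢
  have h1 : (2 : ℝ) ^ s * ∑ i ∈ range (l + 1), p i < (⌊(2 : ℝ) ^ s * ∑ i ∈ range (k + 1), p i⌋ : ℝ) :=
    Int.floor_lt.1 h
  have h2 := Int.floor_le ((2 : ℝ) ^ s * ∑ i ∈ range (k + 1), p i)
  have h3 : ⌊(2 : ℝ) ^ (s + 1) * ∑ i ∈ range (l + 1), p i⌋
      < 2 * ⌊(2 : ℝ) ^ s * ∑ i ∈ range (k + 1), p i⌋ := by
    rw [Int.floor_lt]
    push_cast
    rw [pow_succ]
    linarith
  have h4 : 2 * ⌊(2 : ℝ) ^ s * ∑ i ∈ range (k + 1), p i⌋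
      ≤ ⌊(2 : ℝ) ^ (s + 1) * ∑ i ∈ range (k + 1), p i⌋ := by
    rw [Int.le_floor]
    push_cast
    rw [pow_succ]
    linarith
  omega

theorem ch_rle {p : ℕ → ℝ} (hp : ∀ k, 0 ≤ p k) (s k : ℕ) : fst p s k ≤ fst p (s + 1) k := by
  by_contra h
  push Not at h
  have h1 := (ch_A hp s (ch_fle p (s + 1) k)).1 h
  have h2 := ch_ref s h1
  have h3 := ch_ceq hp (s + 1) k
  omega

theorem ch_idem {p : ℕ → ℝ} (hp : ∀ k, 0 ≤ p k) (s k : ℕ) : fst p s (fst p s k) = fst p s k := by
  have h1 := ch_fle p s (fst p s k)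
  rcases Nat.lt_or_ge (fst p s (fst p s k)) (fst p s k) with h | h
  · have h2 := (ch_A hp s (h1.trans (ch_fle p s k))).1 h
    have h3 := ch_ceq hp s (fst p s k)
    have h4 := ch_ceq hp s k
    omega
  · omega

theorem ch_cls {p : ℕ → ℝ} (hp : ∀ k, 0 ≤ p k) (s k : ℕ) :
    cls p s (fst p (s + 1) k) = cls p s k := by
  have h1 := ch_cm hp s (ch_fle p (s + 1) k)
  rcases lt_or_ge (cls p s (fst p (s + 1) k)) (cls p s k) with h | h
  · have h2 := ch_ref s h
    have h3 := ch_ceq hp (s + 1) k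
    omega
  · omega

theorem ch_stp {p : ℕ → ℝ} (hp : ∀ k, 0 ≤ p k) (s k : ℕ) :
    fst p s (fst p (s + 1) k) = fst p s k := by
  have hc := ch_cls hp s k
  have h0 := ch_fle p s (fst p (s + 1) k)
  have h1 := ch_rle hp s k
  have h2 := ch_fle p (s + 1) k
  rcases lt_trichotomy (fst p s (fst p (s + 1) k)) (fst p s k) with h | h | h
  · have h3 := (ch_A hp s (h0.trans h2)).1 h
    have h4 := ch_ceq hp s (fst p (s + 1) k)
    omega
  · exact h
  · have h3 := (ch_A hp s h1).1 h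
    have h4 := ch_ceq hp s k
    omega

theorem ch_dis {p : ℕ → ℝ} (hp : ∀ k, 0 ≤ p k) {s l c c' : ℕ} (h : Lk p s c l)
    (h' : Lk p s c' l) : ¬ c < c' := by
  intro hcc
  obtain ⟨h1, h2, h3⟩ := h
  obtain ⟨h1', h2', h3'⟩ := h'
  have e1 : cls p s c = cls p s c' := by
    have a1 := (ch_A hp s hcc.le).not.1 (by omega)
    have a2 := ch_cm hp s hcc.le
    omega
  have e2 : cls p (s + 1) c < cls p (s + 1) c' := (ch_A hp (s + 1) hcc.le).1 (by omega)
  have e3 : cls p (s + 1) c' ≤ 2 * cls p s c' + 1 := by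
    have b1 := Int.lt_floor_add_one ((2 : ℝ) ^ s * ∑ i ∈ range (c' + 1), p i)
    have b2 : cls p (s + 1) c' < 2 * cls p s c' + 2 := by
      unfold cls
      rw [Int.floor_lt]
      push_cast
      rw [pow_succ]
      linarith
    omega
  have e4 : cls p s (fst p s c) < cls p s c := by
    have hf : fst p s c < fst p (s + 1) c := by omega
    have d1 := (ch_A hp (s + 1) (ch_fle p s c)).1 hf
    have d2 : cls p (s + 1) (fst p s c) < 2 * cls p s c := by omega
    unfold cls at d2 ⊢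
    rw [Int.floor_lt] at d2 ⊢
    push_cast at d2
    rw [pow_succ] at d2
    linarith
  have e5 := ch_ceq hp s c
  omega

theorem ch_sub {p : ℕ → ℝ} {a b : ℕ} (F : ℕ → ℝ) (h : a ≤ b) :
    ∑ l ∈ range (b + 1), F l = ∑ l ∈ range (a + 1), F l + ∑ l ∈ Ioc a b, F l := by
  have h1 : range (b + 1) = range (a + 1) ∪ Ioc a b := by
    ext l
    simp only [Finset.mem_union, Finset.mem_range, Finset.mem_Ioc]
    omega
  rw [h1, Finset.sum_union]
  rw [Finset.disjoint_left]
  intro l hl hl'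
  simp only [Finset.mem_range, Finset.mem_Ioc] at hl hl'
  omega

theorem ch_en {p : ℕ → ℝ} (hp : ∀ k, 0 ≤ p k) (N s c : ℕ) :
    ∑ l ∈ range N, (if Lk p s c l then p l else 0) ≤ 1 / 2 ^ s := by
  have hf := ch_fle p s c
  have h1 : ∑ l ∈ range N, (if Lk p s c l then p l else 0) ≤ ∑ l ∈ Ioc (fst p s c) c, p l := by
    rw [← Finset.sum_filter]
    apply Finset.sum_le_sum_of_subset_of_nonneg
    · intro l hl
      simp only [Finset.mem_filter, Finset.mem_Ioc] at hl ⊢
      exact ⟨hl.2.2.1, hl.2.2.2⟩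
    · intro i _ _
      exact hp i
  have h2 := ch_sub (p := p) p hf
  have h3 := ch_ceq hp s c
  have h4 : (2 : ℝ) ^ s * ∑ i ∈ range (c + 1), p i < cls p s c + 1 := by
    unfold cls
    exact Int.lt_floor_add_one _
  have h5 : (cls p s c : ℝ) ≤ (2 : ℝ) ^ s * ∑ i ∈ range (fst p s c + 1), p i := by
    rw [← h3]
    unfold cls
    exact Int.floor_le _
  have h6 : (0 : ℝ) < 2 ^ s := by positivity
  have h7 : (2 : ℝ) ^ s * ∑ l ∈ Ioc (fst p s c) c, p l ≤ 1 := by
    have : ∑ l ∈ Ioc (fst p s c) c, p l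
        = ∑ i ∈ range (c + 1), p i - ∑ i ∈ range (fst p s c + 1), p i := by
      rw [h2]; ring
    rw [this, mul_sub]
    linarith
  refine h1.trans ?_
  rw [le_div_iff₀ h6, mul_comm]
  exact h7

theorem ch_lnk {p : ℕ → ℝ} (hp : ∀ k, 0 ≤ p k) (N s k : ℕ) (hk : k < N) (F : ℕ → ℝ) :
    ∑ l ∈ range N, (if Lk p s (fst p (s + 1) k) l then F l else 0) =
      ∑ l ∈ Ioc (fst p s k) (fst p (s + 1) k), F l := by
  rw [← Finset.sum_filter]
  apply Finset.sum_congr _ fun _ _ => rfl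
  ext l
  simp only [Finset.mem_filter, Finset.mem_range, Finset.mem_Ioc]
  unfold Lk
  rw [ch_idem hp, ch_stp hp]
  have := ch_fle p (s + 1) k
  constructor
  · rintro ⟨_, _, h⟩
    exact h
  · rintro ⟨h1, h2⟩
    exact ⟨by omega, rfl, h1, h2⟩

theorem ch_tel {p : ℕ → ℝ} (hp : ∀ k, 0 ≤ p k) (S k : ℕ) (F : ℕ → ℝ) :
    ∑ s ∈ range S, ∑ l ∈ Ioc (fst p s k) (fst p (s + 1) k), F l =
      ∑ l ∈ Ioc (fst p 0 k) (fst p S k), F l := by
  induction S with
  | zero => simp
  | succ S ih =>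
    rw [Finset.sum_range_succ, ih]
    have h0 : fst p 0 k ≤ fst p S k := by
      clear ih
      induction S with
      | zero => exact le_rfl
      | succ S ih => exact ih.trans (ch_rle hp S k)
    have h1 := ch_rle hp S k
    have h2 : Ioc (fst p 0 k) (fst p (S + 1) k) =
        Ioc (fst p 0 k) (fst p S k) ∪ Ioc (fst p S k) (fst p (S + 1) k) := by
      ext l
      simp only [Finset.mem_union, Finset.mem_Ioc]
      omega
    rw [h2, Finset.sum_union]
    rw [Finset.disjoint_left]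
    intro l hl hl'
    simp only [Finset.mem_Ioc] at hl hl'
    omega

theorem ch_zero {p : ℕ → ℝ} (hp : ∀ k, 0 ≤ p k) {N k : ℕ} (hk : k < N)
    (h : ∑ k ∈ range N, p k < 1) : fst p 0 k = 0 := by
  have h1 : ∑ i ∈ range (k + 1), p i < 1 := by
    refine lt_of_le_of_lt ?_ h
    apply Finset.sum_le_sum_of_subset_of_nonneg
    · intro i hi
      simp only [Finset.mem_range] at hi ⊢
      omega
    · intro i _ _
      exact hp i
  by_contra h2
  have h3 : 0 < fst p 0 k := Nat.pos_of_ne_zero h2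
  have h4 := (ch_A hp 0 (Nat.zero_le k)).1 h3
  unfold cls at h4
  have h5 : (0 : ℤ) ≤ ⌊(2 : ℝ) ^ 0 * ∑ i ∈ range (0 + 1), p i⌋ := by
    apply Int.floor_nonneg.2
    have := hp 0
    simpa using this
  have h6 : ⌊(2 : ℝ) ^ 0 * ∑ i ∈ range (k + 1), p i⌋ < 1 := by
    rw [Int.floor_lt]
    simpa using h1
  omega

theorem ch_big (N : ℕ) (p : ℕ → ℝ) : ∃ S₀ : ℕ, ∀ S, S₀ ≤ S → ∀ l < N, 0 < p l →
    1 ≤ (2 : ℝ) ^ S * p l := by
  induction N with
  | zero => exact ⟨0, fun S _ l hl => absurd hl (Nat.not_lt_zero l)⟩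
  | succ N ih =>
    obtain ⟨S₀, h⟩ := ih
    by_cases hN : 0 < p N
    · obtain ⟨n, hn⟩ := pow_unbounded_of_one_lt (1 / p N) (one_lt_two : (1 : ℝ) < 2)
      refine ⟨max S₀ n, fun S hS l hl hpl => ?_⟩
      rcases Nat.lt_succ_iff_lt_or_eq.1 hl with h1 | h1
      · exact h S (le_trans (le_max_left _ _) hS) l h1 hpl
      · subst h1
        have h2 : (2 : ℝ) ^ n ≤ 2 ^ S :=
          pow_le_pow_right₀ one_le_two (le_trans (le_max_right _ _) hS)
        have h3 : 1 < (2 : ℝ) ^ n * p l := by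
          rwa [div_lt_iff₀ hpl] at hn
        nlinarith
    · refine ⟨S₀, fun S hS l hl hpl => ?_⟩
      rcases Nat.lt_succ_iff_lt_or_eq.1 hl with h1 | h1
      · exact h S hS l h1 hpl
      · subst h1
        exact absurd hpl hN

theorem ch_rest {p : ℕ → ℝ} (hp : ∀ k, 0 ≤ p k) {S k l : ℕ} (h1 : fst p S k < l) (h2 : l ≤ k)
    (h3 : 0 < p l → 1 ≤ (2 : ℝ) ^ S * p l) : p l = 0 := by
  by_contra h4
  have h5 : 0 < p l := lt_of_le_of_ne (hp l) (Ne.symm h4)
  have h6 := h3 h5
  obtain ⟨j, rfl⟩ : ∃ j, l = j + 1 := ⟨l - 1, by omega⟩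
  have e1 : cls p S j = cls p S k := by
    have a1 := ch_cm hp S (show fst p S k ≤ j by omega)
    have a2 := ch_ceq hp S k
    have a3 := ch_cm hp S (show j ≤ k by omega)
    omega
  have e2 := ch_cm hp S h2
  have e3 : cls p S j + 1 ≤ cls p S (j + 1) := by
    unfold cls
    rw [Int.le_floor]
    push_cast
    rw [Finset.sum_range_succ p (j + 1), mul_add]
    have := Int.floor_le ((2 : ℝ) ^ S * ∑ i ∈ range (j + 1), p i)
    linarith
  omega

/-- the chain of levels -/
theorem ch : SCh := by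
  intro N p hp hs
  refine ⟨?_, ?_, ch_fle p, ?_⟩
  · intro s l c _ c' _ h h'
    rcases lt_trichotomy c c' with h1 | h1 | h1
    · exact absurd h1 (ch_dis hp h h')
    · exact h1
    · exact absurd h1 (ch_dis hp h' h)
  · intro s c _
    exact ch_en hp N s c
  · obtain ⟨S₀, hS₀⟩ := ch_big N p
    refine ⟨S₀, fun S hS k hk F hF => ?_⟩
    have e1 : ∑ s ∈ range S, ∑ l ∈ range N,
        (if Lk p s (fst p (s + 1) k) l then F l else 0) = ∑ l ∈ Ioc 0 (fst p S k), F l := by
      rw [Finset.sum_congr rfl fun s _ => ch_lnk hp N s k hk F, ch_tel hp, ch_zero hp hk hs]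
    rw [e1, ch_sub (p := p) F (ch_fle p S k)]
    have e2 : ∑ l ∈ Ioc (fst p S k) k, F l = 0 := by
      apply Finset.sum_eq_zero
      intro l hl
      simp only [Finset.mem_Ioc] at hl
      exact hF l (by omega) (ch_rest hp hl.1 hl.2 (hS₀ S hS l (by omega)))
    rw [e2, add_zero, ch_sub (p := p) F (Nat.zero_le (fst p S k))]
    simp

end Pool.Agent.H79.RU
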