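import Pool.Agent.H79.RU.StmR
import Pool.Agent.H79.RT.Conv
import Pool.Agent.H79.RT.Step
import Pool.Agent.H79.RT.Sup

/-!
# MP_a7284e_an, project RU: convergence from the maximal inequality and the tails (row P4)
-/

set_option autoImplicit false

namespace Pool.Agent.H79.RU

open MeasureTheory FourierTransform Filter Topology Finset Classical ENNReal
open Pool.Agent.H73.Hyp
open Pool.Agent.H79.RT

/-- row P4 -/
theorem convU (h1 : SMaxU) (h2 : STailU) : SConvU := by
  intro q hq l₀ f hf hN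
  obtain ⟨C, hC, hmax⟩ := h1 q hq
  obtain ⟨hLo, hT⟩ := h2 q hq l₀ f hf hN
  have hC1 : 0 < C + 1 := by linarith
  refine cv_lim f fun ε hε => ?_
  have hδ : 0 < ε / (C + 1) := by positivity
  obtain ⟨b, hb⟩ := (hT.eventually (eventually_le_nhds (ENNReal.ofReal_pos.2 hδ))).exists
  obtain ⟨e1, e2⟩ := hmax l₀ _ (ε / (C + 1)) hδ.le (hLo b) hb
  have hle : C * (ε / (C + 1)) ≤ ε := by
    rw [← mul_div_assoc, div_le_iff₀ hC1]
    nlinarith
  refine ⟨Ep (Uf 0) b (Ep (Uf 1) b f), e1.trans hle,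
    sup_maj _ _ fun K hK => (e2 K hK).mono hle, step b _ (Ep_mem _ _ _) ?_⟩
  rw [Ep0_Ep1]
  exact Ep_mem _ _ _

end Pool.Agent.H79.RU
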