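import Pool.Agent.H79.RU.Stm
import Pool.Agent.H79.RT.Fin

/-!
# MP_a7284e_an, project RU, row RU8: the maximal inequality on cubes
-/

set_option autoImplicit false

namespace Pool.Agent.H79.RU

open Finset Classical
open Pool.Agent.H79.RT

variable {n m : ℕ}

/-- energy of the level `k`, indices `≤ i` -/
noncomputable def f2w (A : ℕ → ℕ → Q n → Q m → ℝ) (i k : ℕ) (x : Q n) (y : Q m) : ℝ :=
  ∑ i' ∈ range n, ∑ j ∈ range m, if i' + j = k ∧ i' ≤ i then A i' j x y ^ 2 else 0

/-- the clock stopped at `i` -/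
noncomputable def f2V (q : ℝ) (A : ℕ → ℕ → Q n → Q m → ℝ) (i : ℕ) (x : Q n) : ℝ :=
  ∑ k ∈ range (n + m), nq q (f2w A i k x)

/-- normalised indicator of the `k`-th layer -/
noncomputable def f2X (q : ℝ) (A : ℕ → ℕ → Q n → Q m → ℝ) (g : ℝ) (k i : ℕ) (x : Q n) : ℝ :=
  if finLev g k ^ 4 < f2V q A i x ∧ f2V q A i x ≤ finLev g (k + 1) ^ 4 then
    1 / (2 * finLev g (k + 1) ^ 2) else 0

theorem f2w_nonneg (A : ℕ → ℕ → Q n → Q m → ℝ) (i k : ℕ) (x : Q n) (y : Q m) :
    0 ≤ f2w A i k x y := by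
  unfold f2w
  refine sum_nonneg fun i' _ => sum_nonneg fun j _ => ?_
  split_ifs
  · exact sq_nonneg _
  · exact le_rfl

theorem f2wk_nonneg (A : ℕ → ℕ → Q n → Q m → ℝ) (k : ℕ) (x : Q n) (y : Q m) :
    0 ≤ wk A k x y := by
  unfold wk
  refine sum_nonneg fun i' _ => sum_nonneg fun j _ => ?_
  split_ifs
  · exact sq_nonneg _
  · exact le_rfl

theorem f2w_le (A : ℕ → ℕ → Q n → Q m → ℝ) (i k : ℕ) (x : Q n) (y : Q m) :
    f2w A i k x y ≤ wk A k x y := by
  unfold f2w wk
  refine sum_le_sum fun i' _ => sum_le_sum fun j _ => ?_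
  by_cases h : i' + j = k
  · rw [if_pos h]
    split_ifs
    · exact le_rfl
    · exact sq_nonneg _
  · rw [if_neg h, if_neg fun h' => h h'.1]

theorem f2V_nonneg (h1 : SNq) {q : ℝ} (hq : 1 ≤ q) (A : ℕ → ℕ → Q n → Q m → ℝ) (i : ℕ)
    (x : Q n) : 0 ≤ f2V q A i x :=
  sum_nonneg fun k _ => ((h1 m q hq).1 _ (f2w_nonneg A i k x)).1

theorem f2V_le (h1 : SNq) {q : ℝ} (hq : 1 ≤ q) (A : ℕ → ℕ → Q n → Q m → ℝ) (i : ℕ)
    (x : Q n) : f2V q A i x ≤ VT q A x := by
  unfold f2V VT vk
  exact sum_le_sum fun k _ => (h1 m q hq).2.1 _ _ (f2w_nonneg A i k x) (f2w_le A i k x)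

theorem f2VT_nonneg (h1 : SNq) {q : ℝ} (hq : 1 ≤ q) (A : ℕ → ℕ → Q n → Q m → ℝ) (x : Q n) :
    0 ≤ VT q A x := by
  unfold VT vk
  exact sum_nonneg fun k _ => ((h1 m q hq).1 _ (f2wk_nonneg A k x)).1

theorem f2V_inv {q : ℝ} {D A : ℕ → ℕ → Q n → Q m → ℝ} (h : Ar2 n m D A) (i : ℕ) :
    Inv i (f2V q A i) := by
  intro l hl x
  unfold f2V
  refine sum_congr rfl fun k _ => ?_
  congr 1
  funext y
  unfold f2w
  refine sum_congr rfl fun i' _ => sum_congr rfl fun j _ => ?_
  by_cases hc : i' + j = k ∧ i' ≤ i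
  · have h2 : A i' j (fl l x) y = A i' j x y := h.pax i' j y l (hc.2.trans hl) x
    rw [if_pos hc, if_pos hc, h2]
  · rw [if_neg hc, if_neg hc]

theorem f2X_inv {q : ℝ} {D A : ℕ → ℕ → Q n → Q m → ℝ} (h : Ar2 n m D A) (g : ℝ) (k i : ℕ) :
    Inv i (f2X q A g k i) := by
  intro l hl x
  unfold f2X
  rw [f2V_inv h i l hl x]

theorem f2X_nonneg (q : ℝ) (A : ℕ → ℕ → Q n → Q m → ℝ) {g : ℝ} (hg : 0 < g) (k i : ℕ)
    (x : Q n) : 0 ≤ f2X q A g k i x := by
  have := finLev_pos hg (k + 1)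
  unfold f2X
  split_ifs
  · positivity
  · exact le_rfl

theorem f2_arr {D A : ℕ → ℕ → Q n → Q m → ℝ} (h : Ar2 n m D A) (X : ℕ → Q n → ℝ)
    (hX : ∀ i, Inv i (X i)) (hX0 : ∀ i x, 0 ≤ X i x) :
    Ar2 n m (fun i j x y => D i j x y * X i x) (fun i j x y => A i j x y * X i x) where
  odx i j y x := by
    have h1 : D i j (fl i x) y = -D i j x y := h.odx i j y x
    have h2 : X i (fl i x) = X i x := hX i i le_rfl x
    show D i j (fl i x) y * X i (fl i x) = -(D i j x y * X i x)
    rw [h1, h2]; ring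
  invx i j y l hl x := by
    have h1 : D i j (fl l x) y = D i j x y := h.invx i j y l hl x
    have h2 : X i (fl l x) = X i x := hX i l (by omega) x
    show D i j (fl l x) y * X i (fl l x) = D i j x y * X i x
    rw [h1, h2]
  ody i j x y := by
    have h1 : D i j x (fl j y) = -D i j x y := h.ody i j x y
    show D i j x (fl j y) * X i x = -(D i j x y * X i x)
    rw [h1]; ring
  invy i j x l hl y := by
    have h1 : D i j x (fl l y) = D i j x y := h.invy i j x l hl y
    show D i j x (fl l y) * X i x = D i j x y * X i x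
    rw [h1]
  pax i j y l hl x := by
    have h1 : A i j (fl l x) y = A i j x y := h.pax i j y l hl x
    have h2 : X i (fl l x) = X i x := hX i l hl x
    show A i j (fl l x) y * X i (fl l x) = A i j x y * X i x
    rw [h1, h2]
  pay i j x l hl y := by
    have h1 : A i j x (fl l y) = A i j x y := h.pay i j x l hl y
    show A i j x (fl l y) * X i x = A i j x y * X i x
    rw [h1]
  na i j x y := mul_nonneg (h.na i j x y) (hX0 i x)
  dom i j x y := by
    rw [abs_mul, abs_of_nonneg (hX0 i x)]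
    exact mul_le_mul_of_nonneg_right (h.dom i j x y) (hX0 i x)
  za i j hij x y := by rw [h.za i j hij x y, zero_mul]

/-- the clock of a layer vanishes if the layer is empty -/
theorem f2_VT_zero (h1 : SNq) {q : ℝ} (hq : 1 ≤ q) (A : ℕ → ℕ → Q n → Q m → ℝ)
    (X : ℕ → Q n → ℝ) (x : Q n) (hX : ∀ i < n, X i x = 0) :
    VT q (fun i j x y => A i j x y * X i x) x = 0 := by
  unfold VT vk
  refine sum_eq_zero fun k _ => ?_
  have e : wk (fun i j x y => A i j x y * X i x) k x = fun y => 0 * wk A k x y := by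
    funext y
    rw [zero_mul]
    unfold wk
    refine sum_eq_zero fun i hi => sum_eq_zero fun j _ => ?_
    simp only [hX i (mem_range.1 hi), mul_zero, zero_pow two_ne_zero, ite_self]
  rw [e, (h1 m q hq).2.2.1 0 _ le_rfl (f2wk_nonneg A k x), zero_mul]

/-- the clock of a layer -/
theorem f2_VT (h1 : SNq) {q : ℝ} (hq : 1 ≤ q) (A : ℕ → ℕ → Q n → Q m → ℝ)
    (X : ℕ → Q n → ℝ) (x : Q n) {c T : ℝ} (hT : 0 ≤ T) (hX0 : ∀ i, 0 ≤ X i x)
    (hX : ∀ i, X i x ≠ 0 → X i x ≤ c ∧ f2V q A i x ≤ T) :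
    VT q (fun i j x y => A i j x y * X i x) x ≤ c ^ 2 * T := by
  by_cases hS : ((range n).filter fun i => X i x ≠ 0).Nonempty
  · set s := ((range n).filter fun i => X i x ≠ 0).max' hS with hs
    have hsm : s ∈ (range n).filter fun i => X i x ≠ 0 := max'_mem _ hS
    have hs2 := hX s (mem_filter.1 hsm).2
    have h2 : ∀ k, wk (fun i j x y => A i j x y * X i x) k x ≤ fun y => c ^ 2 * f2w A s k x y := by
      intro k y
      show wk (fun i j x y => A i j x y * X i x) k x y ≤ c ^ 2 * f2w A s k x y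
      unfold wk f2w
      rw [mul_sum]
      refine sum_le_sum fun i hi => ?_
      rw [mul_sum]
      refine sum_le_sum fun j _ => ?_
      by_cases hk : i + j = k
      · rw [if_pos hk]
        by_cases h0 : X i x = 0
        · simp only [h0, mul_zero, zero_pow two_ne_zero]
          refine mul_nonneg (sq_nonneg _) ?_
          split_ifs
          · exact sq_nonneg _
          · exact le_rfl
        · have h3 : i ≤ s := le_max' _ _ (mem_filter.2 ⟨hi, h0⟩)
          rw [if_pos ⟨hk, h3⟩, mul_pow, mul_comm (c ^ 2)]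
          exact mul_le_mul_of_nonneg_left (pow_le_pow_left₀ (hX0 i) (hX i h0).1 2) (sq_nonneg _)
      · rw [if_neg hk, if_neg fun h => hk h.1, mul_zero]
    calc VT q (fun i j x y => A i j x y * X i x) x
        ≤ ∑ k ∈ range (n + m), c ^ 2 * nq q (f2w A s k x) := by
          unfold VT vk
          refine sum_le_sum fun k _ => ?_
          refine ((h1 m q hq).2.1 _ _ (f2wk_nonneg _ k x) (h2 k)).trans (le_of_eq ?_)
          exact (h1 m q hq).2.2.1 _ _ (sq_nonneg c) (f2w_nonneg A s k x)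
      _ = c ^ 2 * f2V q A s x := by
          unfold f2V
          rw [mul_sum]
      _ ≤ c ^ 2 * T := mul_le_mul_of_nonneg_left hs2.2 (sq_nonneg c)
  · rw [f2_VT_zero h1 hq A X x]
    · exact mul_nonneg (sq_nonneg c) hT
    · intro i hi
      by_contra h0
      exact hS ⟨i, mem_filter.2 ⟨mem_range.2 hi, h0⟩⟩

/-- the stopped clock is positive where the majorant does not vanish -/
theorem f2V_pos (h1 : SNq) {q : ℝ} (hq : 1 ≤ q) (A : ℕ → ℕ → Q n → Q m → ℝ) {i j : ℕ}
    (hi : i < n) (hj : j < m) {x : Q n} {y : Q m} (h : A i j x y ≠ 0) : 0 < f2V q A i x := by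
  have h2 := (h1 m q hq).1 _ (f2w_nonneg A i (i + j) x)
  have h3 : A i j x y ^ 2 ≤ f2w A i (i + j) x y := by
    unfold f2w
    refine le_trans ?_ (single_le_sum (f := fun i' => ∑ j' ∈ range m,
      if i' + j' = i + j ∧ i' ≤ i then A i' j' x y ^ 2 else 0) (fun i' _ => ?_) (mem_range.2 hi))
    · refine le_trans ?_ (single_le_sum (f := fun j' =>
        if i + j' = i + j ∧ i ≤ i then A i j' x y ^ 2 else 0) (fun j' _ => ?_) (mem_range.2 hj))
      · rw [if_pos ⟨rfl, le_rfl⟩]
      · split_ifs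
        · exact sq_nonneg _
        · exact le_rfl
    · refine sum_nonneg fun j' _ => ?_
      split_ifs
      · exact sq_nonneg _
      · exact le_rfl
  have h4 : 0 < nq q (f2w A i (i + j) x) := by
    refine lt_of_le_of_ne h2.1 fun h0 => ?_
    have h5 := h2.2.2.2.1 h0.symm y
    rw [h5] at h3
    have h6 : 0 < A i j x y ^ 2 := by positivity
    linarith
  refine h4.trans_le ?_
  unfold f2V
  exact single_le_sum (f := fun k => nq q (f2w A i k x))
    (fun k _ => ((h1 m q hq).1 _ (f2w_nonneg A i k x)).1) (mem_range.2 (by omega))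

/-- choice of the levels, general form -/
theorem f2_choose' (F : ℕ → Q n → ℝ) : ∃ g : ℝ, 0 < g ∧ ∃ L : ℕ, ∀ x, ∀ i < n,
    0 < F i x → g ^ 4 < F i x ∧ F i x ≤ finLev g L ^ 4 := by
  obtain ⟨c, hc, h1⟩ := fin_lb ((univ : Finset (Q n)) ×ˢ range n) fun p => F p.2 p.1
  obtain ⟨d, h2⟩ := fin_ub ((univ : Finset (Q n)) ×ˢ range n) fun p => F p.2 p.1
  have hm : 0 < min 1 c := lt_min one_pos hc
  have hm1 : min 1 c ≤ 1 := min_le_left _ _
  have hm2 : min 1 c ≤ c := min_le_right _ _
  obtain ⟨g, hgd⟩ : ∃ g : ℝ, g = min 1 c / 2 := ⟨_, rfl⟩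
  have hg : 0 < g := by linarith
  have hg1 : g < 1 := by linarith
  have hgc : g < c := by linarith
  have hg4 : g ^ 4 < c := by
    have : g ^ 4 ≤ g := by
      calc g ^ 4 ≤ g ^ 1 := pow_le_pow_of_le_one hg.le hg1.le (by norm_num)
        _ = g := pow_one g
    linarith
  obtain ⟨L, hL⟩ := pow_unbounded_of_one_lt (d / g ^ 4) (show (1 : ℝ) < 16 by norm_num)
  refine ⟨g, hg, L, fun x i hi hpos => ?_⟩
  have hp : (x, i) ∈ (univ : Finset (Q n)) ×ˢ range n :=
    mem_product.2 ⟨mem_univ _, mem_range.2 hi⟩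
  have h5 := h1 (x, i) hp hpos
  have h6 := h2 (x, i) hp
  refine ⟨hg4.trans_le h5, le_trans h6 ?_⟩
  have h3 : d < 16 ^ L * g ^ 4 := by
    rw [div_lt_iff₀ (by positivity)] at hL
    exact hL
  have h4 : finLev g L ^ 4 = 16 ^ L * g ^ 4 := by
    unfold finLev
    rw [mul_pow, ← pow_mul, mul_comm L 4, pow_mul]
    norm_num
    ring
  rw [h4]
  exact h3.le

/-- choice of the levels -/
theorem f2_choose (q : ℝ) (A : ℕ → ℕ → Q n → Q m → ℝ) : ∃ g : ℝ, 0 < g ∧ ∃ L : ℕ, ∀ x, ∀ i < n,
    0 < f2V q A i x → ∑ k ∈ range L, 2 * finLev g (k + 1) ^ 2 * f2X q A g k i x = 1 := by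
  obtain ⟨g, hg, L, h⟩ := f2_choose' (f2V q A)
  refine ⟨g, hg, L, fun x i hi hpos => ?_⟩
  obtain ⟨ha, hb⟩ := h x i hi hpos
  rw [← fin_layer hg ha hb]
  refine sum_congr rfl fun k _ => ?_
  unfold f2X
  have hk := finLev_pos hg (k + 1)
  by_cases hc : finLev g k ^ 4 < f2V q A i x ∧ f2V q A i x ≤ finLev g (k + 1) ^ 4
  · rw [if_pos hc, if_pos hc]
    field_simp
  · rw [if_neg hc, if_neg hc, mul_zero]

/-! ### averages -/

theorem f2_cs (F G : Q n → ℝ) :
    (av fun x => F x * G x) ^ 2 ≤ (av fun x => F x ^ 2) * av fun x => G x ^ 2 := by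
  unfold av
  rw [div_pow, ← mul_div_mul_comm, sq (2 ^ n : ℝ)]
  refine div_le_div_of_nonneg_right ?_ (by positivity)
  exact sum_mul_sq_le_sq_mul_sq _ _ _

/-- one term -/
theorem f2_term (U P N : Q n → ℝ) {K : ℝ} (hK : 0 ≤ K) (hU : ∀ x, U x ^ 2 = U x)
    (hU0 : ∀ x, 0 ≤ U x) (hN : ∀ x, N x = U x * N x)
    (h : av (fun x => N x ^ 4) ≤ K * av U) :
    av (fun x => P x * N x) ≤ √(√K) * √((av fun x => P x ^ 2) * av U) := by
  have hu : 0 ≤ av U := av_nonneg hU0
  have hp : 0 ≤ av fun x => P x ^ 2 := av_nonneg fun x => sq_nonneg _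
  have h2 : av (fun x => N x ^ 2) ≤ √K * av U := by
    have h3 := f2_cs U fun x => N x ^ 2
    have e1 : (fun x => U x * N x ^ 2) = fun x => N x ^ 2 := by
      funext x
      calc U x * N x ^ 2 = (U x * N x) * N x := by ring
        _ = N x * N x := by rw [← hN x]
        _ = N x ^ 2 := by ring
    have e2 : (fun x => U x ^ 2) = U := funext hU
    have e3 : (fun x => (N x ^ 2) ^ 2) = fun x => N x ^ 4 := by
      funext x; ring
    rw [e1, e2, e3] at h3
    have h4 : (av fun x => N x ^ 2) ^ 2 ≤ (√K * av U) ^ 2 := by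
      rw [mul_pow, Real.sq_sqrt hK]
      calc (av fun x => N x ^ 2) ^ 2 ≤ av U * av (fun x => N x ^ 4) := h3
        _ ≤ av U * (K * av U) := mul_le_mul_of_nonneg_left h hu
        _ = K * av U ^ 2 := by ring
    exact le_of_sq_le_sq h4 (by positivity)
  have h5 := f2_cs P N
  have h6 : (av fun x => P x * N x) ^ 2 ≤ (√(√K) * √((av fun x => P x ^ 2) * av U)) ^ 2 := by
    rw [mul_pow, Real.sq_sqrt (Real.sqrt_nonneg K), Real.sq_sqrt (mul_nonneg hp hu)]
    calc (av fun x => P x * N x) ^ 2 ≤ (av fun x => P x ^ 2) * av fun x => N x ^ 2 := h5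
      _ ≤ (av fun x => P x ^ 2) * (√K * av U) := mul_le_mul_of_nonneg_left h2 hp
      _ = _ := by ring
  exact le_of_sq_le_sq h6 (by positivity)

/-- RU8 -/
theorem f2 (h1 : SNq) (h2 : SN) : SF2 := by
  intro q hq
  have hq1 : (1 : ℝ) ≤ q := hq.le
  obtain ⟨K, hK0, hK⟩ := h2 q hq
  refine ⟨256 * √(√K), by positivity, ?_⟩
  intro n m D A h
  obtain ⟨g, hg, L, hL⟩ := f2_choose q A
  set V : Q n → ℝ := VT q A with hV
  have hV0 : ∀ x, 0 ≤ V x := f2VT_nonneg h1 hq1 A
  set E : ℕ → ℕ → ℕ → Q n → Q m → ℝ := fun k i j x y => D i j x y * f2X q A g k i x with hE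
  set B : ℕ → ℕ → ℕ → Q n → Q m → ℝ := fun k i j x y => A i j x y * f2X q A g k i x with hB
  set N : ℕ → Q n → ℝ := fun k x => av fun y => MX (E k) x y ^ 2 with hN
  have hArr : ∀ k, Ar2 n m (E k) (B k) := fun k =>
    f2_arr h (f2X q A g k) (fun i => f2X_inv h g k i) (fun i x => f2X_nonneg q A hg k i x)
  -- the layer is empty below its level
  have hX0 : ∀ k x, ¬finLev g k ^ 4 < V x → ∀ i, f2X q A g k i x = 0 := by
    intro k x hx i
    unfold f2X
    rw [if_neg]
    intro h3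
    exact hx (h3.1.trans_le (f2V_le h1 hq1 A i x))
  have hVT : ∀ k x, VT q (B k) x ≤ 1 / 4 ∧ VT q (B k) x ≤ finU V g k x := by
    intro k x
    have hk := finLev_pos hg (k + 1)
    have h3 : VT q (B k) x ≤ (1 / (2 * finLev g (k + 1) ^ 2)) ^ 2 * finLev g (k + 1) ^ 4 := by
      refine f2_VT h1 hq1 A (f2X q A g k) x (by positivity)
        (fun i => f2X_nonneg q A hg k i x) fun i hi => ?_
      unfold f2X at hi ⊢
      by_cases hc : finLev g k ^ 4 < f2V q A i x ∧ f2V q A i x ≤ finLev g (k + 1) ^ 4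
      · rw [if_pos hc]
        exact ⟨le_rfl, hc.2⟩
      · rw [if_neg hc] at hi
        exact absurd rfl hi
    have h4 : (1 / (2 * finLev g (k + 1) ^ 2)) ^ 2 * finLev g (k + 1) ^ 4 = 1 / 4 := by
      field_simp
      norm_num
    rw [h4] at h3
    refine ⟨h3, ?_⟩
    unfold finU
    by_cases hx : finLev g k ^ 4 < V x
    · rw [if_pos hx]
      linarith
    · rw [if_neg hx]
      exact le_of_eq (f2_VT_zero h1 hq1 A (f2X q A g k) x fun i _ => hX0 k x hx i)
  have hM0 : ∀ k x y, ¬finLev g k ^ 4 < V x → MX (E k) x y = 0 := by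
    intro k x y hx
    refine fin_MX_zero fun i _ j _ => ?_
    simp only [hE, hX0 k x hx i, mul_zero]
  have hNU : ∀ k x, N k x = finU V g k x * N k x := by
    intro k x
    unfold finU
    by_cases hx : finLev g k ^ 4 < V x
    · rw [if_pos hx, one_mul]
    · rw [if_neg hx, zero_mul]
      have e : (fun y => MX (E k) x y ^ 2) = fun _ : Q m => (0 : ℝ) := by
        funext y
        rw [hM0 k x y hx, zero_pow two_ne_zero]
      show av (fun y => MX (E k) x y ^ 2) = 0
      rw [e, av_const]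
  have hN4 : ∀ k, av (fun x => N k x ^ 4) ≤ K * av (finU V g k) := by
    intro k
    have h3 := hK n m (E k) (B k) (hArr k) fun x => by linarith [(hVT k x).1]
    exact h3.trans (mul_le_mul_of_nonneg_left (av_mono fun x => (hVT k x).2) hK0)
  -- decomposition
  have hdec : ∀ x y, ∀ i < n, ∀ j < m, D i j x y =
      ∑ k ∈ range L, 2 * finLev g (k + 1) ^ 2 * E k i j x y := by
    intro x y i hi j hj
    by_cases h0 : A i j x y = 0
    · have h3 := h.dom i j x y
      rw [h0] at h3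
      have h4 : D i j x y = 0 := abs_eq_zero.1 (le_antisymm h3 (abs_nonneg _))
      simp only [hE, h4, zero_mul, mul_zero, sum_const_zero]
    · have h3 := hL x i hi (f2V_pos h1 hq1 A hi hj h0)
      have e1 : ∑ k ∈ range L, 2 * finLev g (k + 1) ^ 2 * E k i j x y =
          D i j x y * ∑ k ∈ range L, 2 * finLev g (k + 1) ^ 2 * f2X q A g k i x := by
        rw [mul_sum]
        refine sum_congr rfl fun k _ => ?_
        simp only [hE]
        ring
      rw [e1, h3, mul_one]
  -- pointwise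
  have hpt : ∀ x y, MX D x y ^ 2 ≤ 64 * ∑ k ∈ range L, finLev g k ^ 3 *
      ((finU V g k x * finW V g L x) * MX (E k) x y ^ 2) := by
    intro x y
    have h3 := fin_MX (range L) (fun k => 2 * finLev g (k + 1) ^ 2) (fun k _ => by positivity)
      D E x y (hdec x y)
    have h4 : ∑ k ∈ range L, 2 * finLev g (k + 1) ^ 2 * MX (E k) x y =
        8 * ∑ k ∈ range L, finLev g k ^ 2 * MX (E k) x y := by
      rw [mul_sum]
      refine sum_congr rfl fun k _ => ?_
      rw [finLev_succ]; ring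
    rw [h4] at h3
    have h5 : (∑ k ∈ range L, finLev g k ^ 2 * MX (E k) x y) ^ 2 ≤
        (∑ k ∈ range L, finLev g k * finU V g k x) *
          ∑ k ∈ range L, finLev g k ^ 3 * (finU V g k x * MX (E k) x y ^ 2) := by
      refine sum_sq_le_sum_mul_sum_of_sq_le_mul _ (fun k _ => ?_) (fun k _ => ?_) fun k _ => ?_
      · exact mul_nonneg (finLev_pos hg k).le (finU_nonneg V g k x)
      · have := finLev_pos hg k
        have := finU_nonneg V g k x
        positivity
      · by_cases hx : finLev g k ^ 4 < V x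
        · unfold finU
          rw [if_pos hx]
          exact le_of_eq (by ring)
        · rw [hM0 k x y hx]
          exact le_of_eq (by ring)
    have h6 : MX D x y ^ 2 ≤ (8 * ∑ k ∈ range L, finLev g k ^ 2 * MX (E k) x y) ^ 2 :=
      pow_le_pow_left₀ (MX_nonneg _ _ _) h3 2
    have h7 : ∑ k ∈ range L, finLev g k ^ 3 *
        ((finU V g k x * finW V g L x) * MX (E k) x y ^ 2) =
        (∑ k ∈ range L, finLev g k * finU V g k x) *
          ∑ k ∈ range L, finLev g k ^ 3 * (finU V g k x * MX (E k) x y ^ 2) := by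
      rw [mul_sum]
      refine sum_congr rfl fun k _ => ?_
      unfold finW
      ring
    rw [h7]
    calc MX D x y ^ 2 ≤ (8 * ∑ k ∈ range L, finLev g k ^ 2 * MX (E k) x y) ^ 2 := h6
      _ = 64 * (∑ k ∈ range L, finLev g k ^ 2 * MX (E k) x y) ^ 2 := by ring
      _ ≤ _ := mul_le_mul_of_nonneg_left h5 (by norm_num)
  calc av2 (fun x y => MX D x y ^ 2)
      ≤ av2 (fun x y => 64 * ∑ k ∈ range L, finLev g k ^ 3 *
        ((finU V g k x * finW V g L x) * MX (E k) x y ^ 2)) := av2_mono hpt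
    _ = 64 * ∑ k ∈ range L, finLev g k ^ 3 * av (fun x =>
        (finU V g k x * finW V g L x) * N k x) := by
        rw [av2_mul_left, av2_sum]
        congr 1
        refine sum_congr rfl fun k _ => ?_
        rw [av2_mul_left]
        congr 1
        unfold av2
        congr 1
        funext x
        exact av_mul_left _ _
    _ ≤ 64 * ∑ k ∈ range L, finLev g k ^ 3 * (√(√K) *
        √((av fun x => (finU V g k x * finW V g L x) ^ 2) * av (finU V g k))) := by
        refine mul_le_mul_of_nonneg_left (sum_le_sum fun k _ => ?_) (by norm_num)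
        have := finLev_pos hg k
        refine mul_le_mul_of_nonneg_left ?_ (by positivity)
        exact f2_term (finU V g k) (fun x => finU V g k x * finW V g L x) (N k) hK0
          (finU_sq V g k) (finU_nonneg V g k) (hNU k) (hN4 k)
    _ = 64 * √(√K) * ∑ k ∈ range L, finLev g k ^ 3 *
        √((av fun x => (finU V g k x * finW V g L x) ^ 2) * av (finU V g k)) := by
        rw [mul_assoc, mul_sum (a := √(√K))]
        congr 1
        exact sum_congr rfl fun k _ => by ring
    _ ≤ 64 * √(√K) * (4 * av V) :=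
        mul_le_mul_of_nonneg_left (fin_SA V hV0 hg L) (by positivity)
    _ = 256 * √(√K) * av V := by ring

end Pool.Agent.H79.RU
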