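import Pool.Agent.H79.RU.StmR

/-!
# MP_a7284e_an, project RU, row P2a: averages over flips are averages over dyadic intervals
-/

set_option autoImplicit false

namespace Pool.Agent.H79.RU

open MeasureTheory FourierTransform Filter Topology Finset Classical ENNReal
open Pool.Agent.H73.Hyp
open Pool.Agent.H79.RT

/-! ### the orbit on the line -/

/-- the flip of the digit `l` on the line -/
noncomputable def fvt (l : ℤ) (t : ℝ) : ℝ := t + sg l t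

theorem fva_orb (l₀ : ℤ) (g : ℕ → Bool) (k : ℕ) (z : E2) :
    (trob (fun j : ℕ => H73.Hyp.fl 1 (l₀ + j)) g k z) 1 =
      trob (fun j : ℕ => fvt (l₀ + j)) g k (z 1) := by
  induction k with
  | zero => rfl
  | succ k ih =>
    rw [trob_succ, trob_succ]
    by_cases h : g k = true
    · rw [if_pos h, if_pos h, fl_same, ih]
      rfl
    · rw [if_neg h, if_neg h, ih]

/-- the integer part at the scale `i` -/
noncomputable def fvn (i : ℤ) (t : ℝ) : ℤ := ⌊(2 : ℝ) ^ i * t⌋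

theorem fvn_dg (i : ℤ) (t : ℝ) : fvn (i + 1) t = dg i t := rfl

theorem fvn_half (i : ℤ) (t : ℝ) : fvn i t = fvn (i + 1) t / 2 := by
  have h := dg_coarse i 1 t
  rw [fvn_dg, show fvn i t = dg (i - (1 : ℕ)) t by
    unfold fvn dg
    rw [Nat.cast_one, sub_add_cancel], h]
  norm_num

theorem fvn_flip (i : ℤ) (t : ℝ) :
    (fvn (i + 1) t = 2 * fvn i t ∧ fvn (i + 1) (fvt i t) = 2 * fvn i t + 1) ∨
    (fvn (i + 1) t = 2 * fvn i t + 1 ∧ fvn (i + 1) (fvt i t) = 2 * fvn i t) := by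
  have h1 := fvn_half i t
  rcases dg_flip i t with ⟨h2, h3⟩ | ⟨h2, h3⟩
  · left
    rw [← fvn_dg] at h2 h3
    rw [← fvn_dg] at h3
    change fvn (i + 1) (fvt i t) = _ at h3
    obtain ⟨k, hk⟩ := h2
    omega
  · right
    rw [← fvn_dg] at h2 h3
    rw [← fvn_dg] at h3
    change fvn (i + 1) (fvt i t) = _ at h3
    rw [Int.not_even_iff_odd] at h2
    obtain ⟨k, hk⟩ := h2
    omega

/-! ### sums over the cube -/

theorem fva_trx_castSucc {m : ℕ} (b : Bool) (h : Q m) (i : ℕ) (hi : i < m) :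
    trx (Fin.snocEquiv (fun _ : Fin (m + 1) => Bool) (b, h)) i = trx h i := by
  unfold trx
  rw [dif_pos (show i < m + 1 by omega), dif_pos hi]
  change (Fin.snoc (α := fun _ : Fin (m + 1) => Bool) h b) (Fin.castSucc ⟨i, hi⟩) = _
  rw [Fin.snoc_castSucc]

theorem fva_trx_last {m : ℕ} (b : Bool) (h : Q m) :
    trx (Fin.snocEquiv (fun _ : Fin (m + 1) => Bool) (b, h)) m = b := by
  unfold trx
  rw [dif_pos (show m < m + 1 by omega)]
  change (Fin.snoc (α := fun _ : Fin (m + 1) => Bool) h b) (Fin.last m) = _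
  rw [Fin.snoc_last]

theorem fva_Ico (g : ℤ → ℝ) (a : ℤ) (n : ℕ) :
    ∑ c ∈ Ico a (a + n), (g (2 * c) + g (2 * c + 1)) = ∑ c ∈ Ico (2 * a) (2 * (a + n)), g c := by
  induction n with
  | zero => simp
  | succ n ih =>
    have e1 : Ico a (a + ((n + 1 : ℕ) : ℤ)) = insert (a + n) (Ico a (a + n)) := by
      ext x; simp only [mem_Ico, mem_insert]; push_cast; omega
    have e2 : Ico (2 * a) (2 * (a + ((n + 1 : ℕ) : ℤ))) =
        insert (2 * (a + n)) (insert (2 * (a + n) + 1) (Ico (2 * a) (2 * (a + n)))) := by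
      ext x; simp only [mem_Ico, mem_insert]; push_cast; omega
    rw [e1, e2, sum_insert (by simp), sum_insert (by simp), sum_insert (by simp), ih]
    ring

theorem fva_sum (l₀ : ℤ) (m : ℕ) : ∀ (g : ℤ → ℝ) (t : ℝ),
    ∑ h : Q m, g (fvn (l₀ + m) (trob (fun j : ℕ => fvt (l₀ + j)) (trx h) m t)) =
      ∑ c ∈ Ico (2 ^ m * fvn l₀ t) (2 ^ m * (fvn l₀ t + 1)), g c := by
  induction m with
  | zero =>
    intro g t
    have e : Ico (2 ^ 0 * fvn l₀ t) (2 ^ 0 * (fvn l₀ t + 1)) = {fvn l₀ t} := by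
      ext x; simp only [mem_Ico, mem_singleton, pow_zero, one_mul]; omega
    rw [e, sum_singleton]
    simp [trob]
  | succ m ih =>
    intro g t
    rw [← (Fin.snocEquiv (fun _ : Fin (m + 1) => Bool)).sum_comp, Fintype.sum_prod_type_right]
    have h1 : ∀ h : Q m, ∑ b : Bool, g (fvn (l₀ + ((m + 1 : ℕ) : ℤ))
        (trob (fun j : ℕ => fvt (l₀ + j))
          (trx (Fin.snocEquiv (fun _ : Fin (m + 1) => Bool) (b, h))) (m + 1) t)) =
        (fun c => g (2 * c) + g (2 * c + 1))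
          (fvn (l₀ + m) (trob (fun j : ℕ => fvt (l₀ + j)) (trx h) m t)) := by
      intro h
      have h2 : ∀ b : Bool, trob (fun j : ℕ => fvt (l₀ + j))
          (trx (Fin.snocEquiv (fun _ : Fin (m + 1) => Bool) (b, h))) (m + 1) t =
          if b = true then fvt (l₀ + m) (trob (fun j : ℕ => fvt (l₀ + j)) (trx h) m t)
          else trob (fun j : ℕ => fvt (l₀ + j)) (trx h) m t := by
        intro b
        rw [trob_succ, fva_trx_last,
          trob_congr _ m (fun i hi => fva_trx_castSucc b h i hi)]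
      rw [Fintype.sum_bool, h2, h2, if_pos rfl, if_neg (by simp)]
      have e : l₀ + ((m + 1 : ℕ) : ℤ) = l₀ + m + 1 := by push_cast; ring
      rw [e]
      rcases fvn_flip (l₀ + m) (trob (fun j : ℕ => fvt (l₀ + j)) (trx h) m t) with
        ⟨h3, h4⟩ | ⟨h3, h4⟩
      · rw [h3, h4]
        ring
      · rw [h3, h4]
    refine ((sum_congr rfl fun h _ => h1 h).trans
      (ih (fun c => g (2 * c) + g (2 * c + 1)) t)).trans ?_
    have e1 : (2 : ℤ) ^ m * (fvn l₀ t + 1) = 2 ^ m * fvn l₀ t + ((2 ^ m : ℕ) : ℤ) := by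
      push_cast; ring
    rw [e1, fva_Ico, ← e1]
    congr 2 <;> ring

/-! ### the integral -/

theorem fva_cell (g : ℤ → ℝ) (i c : ℤ) :
    ∫⁻ t in Set.Ico ((c : ℝ) * (2 : ℝ) ^ (-i)) (((c : ℝ) + 1) * (2 : ℝ) ^ (-i)),
      ENNReal.ofReal (g ⌊(2 : ℝ) ^ i * t⌋) =
      ENNReal.ofReal (g c) * ENNReal.ofReal ((2 : ℝ) ^ (-i)) := by
  have hp : (0 : ℝ) < (2 : ℝ) ^ i := by positivity
  have h1 : ∀ t ∈ Set.Ico ((c : ℝ) * (2 : ℝ) ^ (-i)) (((c : ℝ) + 1) * (2 : ℝ) ^ (-i)),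
      ENNReal.ofReal (g ⌊(2 : ℝ) ^ i * t⌋) = ENNReal.ofReal (g c) := by
    intro t ht
    obtain ⟨h2, h3⟩ := ht
    rw [zpow_neg, ← div_eq_mul_inv] at h2 h3
    rw [div_le_iff₀ hp] at h2
    rw [lt_div_iff₀ hp] at h3
    rw [show ⌊(2 : ℝ) ^ i * t⌋ = c by
      rw [Int.floor_eq_iff]
      constructor <;> linarith [mul_comm ((2 : ℝ) ^ i) t]]
  rw [setLIntegral_congr_fun measurableSet_Ico h1, setLIntegral_const, Real.volume_Ico]
  congr 2
  ring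

theorem fva_int (g : ℤ → ℝ) (i a : ℤ) (n : ℕ) :
    ∫⁻ t in Set.Ico ((a : ℝ) * (2 : ℝ) ^ (-i)) (((a : ℝ) + n) * (2 : ℝ) ^ (-i)),
      ENNReal.ofReal (g ⌊(2 : ℝ) ^ i * t⌋) =
      ∑ c ∈ Ico a (a + n), ENNReal.ofReal (g c) * ENNReal.ofReal ((2 : ℝ) ^ (-i)) := by
  have hp : (0 : ℝ) < (2 : ℝ) ^ (-i) := by positivity
  induction n with
  | zero => simp
  | succ n ih =>
    have e1 : Ico a (a + ((n + 1 : ℕ) : ℤ)) = insert (a + n) (Ico a (a + n)) := by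
      ext x; simp only [mem_Ico, mem_insert]; push_cast; omega
    have h1 : ((a : ℝ)) * (2 : ℝ) ^ (-i) ≤ ((a : ℝ) + n) * (2 : ℝ) ^ (-i) :=
      mul_le_mul_of_nonneg_right (by linarith [(Nat.cast_nonneg n : (0 : ℝ) ≤ n)]) hp.le
    have h2 : ((a : ℝ) + n) * (2 : ℝ) ^ (-i) ≤ ((a : ℝ) + ((n + 1 : ℕ) : ℝ)) * (2 : ℝ) ^ (-i) :=
      mul_le_mul_of_nonneg_right (by push_cast; linarith) hp.le
    have h3 := fva_cell g i (a + n)
    rw [← Set.Ico_union_Ico_eq_Ico h1 h2, lintegral_union measurableSet_Ico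
      (Set.disjoint_left.2 fun x hx hy => absurd hx.2 (not_lt.2 hy.1)), ih, e1,
      sum_insert (by simp), add_comm]
    congr 1
    rw [← h3]
    push_cast
    rw [add_assoc]

theorem flipAv : SFlipAv := by
  intro l₀ m g z hg
  have h1 : ∀ h : Q m, g ⌊(2 : ℝ) ^ (l₀ + m) * (yf l₀ h z) 1⌋ =
      g (fvn (l₀ + m) (trob (fun j : ℕ => fvt (l₀ + j)) (trx h) m (z 1))) := by
    intro h
    unfold yf
    rw [fva_orb]
    rfl
  have h2 : av (fun h : Q m => g ⌊(2 : ℝ) ^ (l₀ + m) * (yf l₀ h z) 1⌋) =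
      (∑ c ∈ Ico (2 ^ m * fvn l₀ (z 1)) (2 ^ m * (fvn l₀ (z 1) + 1)), g c) / 2 ^ m := by
    unfold av
    rw [sum_congr rfl fun h _ => h1 h, fva_sum]
  rw [h2]
  have h3 := fva_int g (l₀ + m) (2 ^ m * fvn l₀ (z 1)) (2 ^ m)
  have e1 : (2 : ℤ) ^ m * fvn l₀ (z 1) + ((2 ^ m : ℕ) : ℤ) = 2 ^ m * (fvn l₀ (z 1) + 1) := by
    push_cast; ring
  have e2 : (2 : ℝ) ^ m * (2 : ℝ) ^ (-(l₀ + (m : ℤ))) = (2 : ℝ) ^ (-l₀) := by
    rw [← zpow_natCast, ← zpow_add₀ two_ne_zero]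
    congr 1; ring
  have e3 : (((2 ^ m * fvn l₀ (z 1) : ℤ) : ℝ)) * (2 : ℝ) ^ (-(l₀ + (m : ℤ))) =
      (⌊(2 : ℝ) ^ l₀ * z 1⌋ : ℝ) * (2 : ℝ) ^ (-l₀) := by
    rw [← e2]; unfold fvn; push_cast; ring
  have e4 : ((((2 ^ m * fvn l₀ (z 1) : ℤ) : ℝ)) + ((2 ^ m : ℕ) : ℝ)) *
      (2 : ℝ) ^ (-(l₀ + (m : ℤ))) = ((⌊(2 : ℝ) ^ l₀ * z 1⌋ : ℝ) + 1) * (2 : ℝ) ^ (-l₀) := by
    rw [← e2]; unfold fvn; push_cast; ring
  rw [e3, e4, e1] at h3
  have e5 : (2 : ℝ) ^ (-(l₀ + (m : ℤ))) * (2 : ℝ) ^ l₀ = 1 / 2 ^ m := by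
    rw [← zpow_add₀ two_ne_zero, show -(l₀ + (m : ℤ)) + l₀ = -(m : ℤ) by ring, zpow_neg,
      zpow_natCast, one_div]
  rw [h3, ← sum_mul, ← ENNReal.ofReal_sum_of_nonneg fun c _ => hg c,
    ← ENNReal.ofReal_mul (sum_nonneg fun c _ => hg c), ← ENNReal.ofReal_mul (by positivity)]
  congr 1
  generalize (∑ c ∈ Ico (2 ^ m * fvn l₀ (z 1)) (2 ^ m * (fvn l₀ (z 1) + 1)), g c) = S
  calc S / 2 ^ m = S * (1 / 2 ^ m) := by ring
    _ = (2 : ℝ) ^ l₀ * (S * (2 : ℝ) ^ (-(l₀ + (m : ℤ)))) := by rw [← e5]; ring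

end Pool.Agent.H79.RU
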