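import Pool.Agent.H79.RU.Stm

/-!
# MP_a7284e_an, project RU, row U5: the controlling function
-/

set_option autoImplicit false

namespace Pool.Agent.H79.RU

open Finset Classical
open Pool.Agent.H79.RT

variable {n m : ℕ}

/-! ### energies -/

theorem lam_wS_nonneg (A : ℕ → ℕ → Q n → Q m → ℝ) (T : ℕ → Prop) (l : ℕ) (x : Q n) (y : Q m) :
    0 ≤ wS A T l x y := by
  unfold wS
  refine sum_nonneg fun i _ => sum_nonneg fun j _ => ?_
  split_ifs
  · exact sq_nonneg _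
  · exact le_rfl

theorem lam_wk_nonneg (A : ℕ → ℕ → Q n → Q m → ℝ) (k : ℕ) (x : Q n) (y : Q m) :
    0 ≤ wk A k x y := by
  unfold wk
  refine sum_nonneg fun i _ => sum_nonneg fun j _ => ?_
  split_ifs
  · exact sq_nonneg _
  · exact le_rfl

theorem lam_wS_mono (A : ℕ → ℕ → Q n → Q m → ℝ) (T : ℕ → Prop) {l l' : ℕ} (h : l ≤ l') (x : Q n)
    (y : Q m) : wS A T l x y ≤ wS A T l' x y := by
  unfold wS
  refine sum_le_sum fun i _ => sum_le_sum fun j _ => ?_
  by_cases h1 : T (i + j) ∧ j ≤ l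
  · rw [if_pos h1, if_pos ⟨h1.1, h1.2.trans h⟩]
  · rw [if_neg h1]
    split_ifs
    · exact sq_nonneg _
    · exact le_rfl

theorem lam_wS_inv {D A : ℕ → ℕ → Q n → Q m → ℝ} (hA : Ar2 n m D A) (T : ℕ → Prop) (l : ℕ)
    (x : Q n) : Inv l (wS A T l x) := by
  intro k hk y
  unfold wS
  refine sum_congr rfl fun i _ => sum_congr rfl fun j _ => ?_
  by_cases h1 : T (i + j) ∧ j ≤ l
  · rw [if_pos h1, if_pos h1, hA.pay i j x k (h1.2.trans hk) y]
  · rw [if_neg h1, if_neg h1]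

/-- the energy of a set of levels is the sum of the energies of the levels -/
theorem lam_wS_eq (A : ℕ → ℕ → Q n → Q m → ℝ) (T : ℕ → Prop) (x : Q n) (y : Q m) :
    wS A T m x y = ∑ k ∈ range (n + m), if T k then wk A k x y else 0 := by
  have h1 : ∀ k, (if T k then wk A k x y else 0) =
      ∑ i ∈ range n, ∑ j ∈ range m, if i + j = k then (if T k then A i j x y ^ 2 else 0) else 0 := by
    intro k
    by_cases h : T k
    · rw [if_pos h]
      unfold wk
      refine sum_congr rfl fun i _ => sum_congr rfl fun j _ => ?_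
      rw [if_pos h]
    · rw [if_neg h]
      symm
      refine sum_eq_zero fun i _ => sum_eq_zero fun j _ => ?_
      rw [if_neg h, ite_self]
  rw [sum_congr rfl fun k _ => h1 k, sum_comm]
  unfold wS
  refine sum_congr rfl fun i hi => ?_
  rw [sum_comm]
  refine sum_congr rfl fun j hj => ?_
  rw [mem_range] at hi hj
  rw [sum_ite_eq (range (n + m)) (i + j), if_pos (mem_range.2 (by omega))]
  by_cases h : T (i + j)
  · rw [if_pos ⟨h, hj.le⟩, if_pos h]
  · rw [if_neg fun h' => h h'.1, if_neg h]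

/-! ### the norm of the energy of a set of levels -/

theorem lam_nq_zero (h1 : SNq) {q : ℝ} (hq : 1 ≤ q) : nq q (fun _ : Q m => (0 : ℝ)) = 0 := by
  have h := (h1 m q hq).2.2.1 0 (fun _ : Q m => (0 : ℝ)) le_rfl fun _ => le_rfl
  simp only [zero_mul] at h
  exact h

theorem lam_nq_wS (h1 : SNq) {q : ℝ} (hq : 1 ≤ q) (A : ℕ → ℕ → Q n → Q m → ℝ) (T : ℕ → Prop)
    (x : Q n) : nq q (wS A T m x) ≤ ∑ k ∈ range (n + m), if T k then vk q A x k else 0 := by
  have h2 : wS A T m x = fun y => ∑ k ∈ range (n + m), (if T k then wk A k x y else 0) := by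
    funext y
    exact lam_wS_eq A T x y
  rw [h2]
  refine ((h1 m q hq).2.2.2 ℕ (range (n + m)) (fun k y => if T k then wk A k x y else 0)
    fun k y => ?_).trans (sum_le_sum fun k _ => ?_)
  · split_ifs
    · exact lam_wk_nonneg A k x y
    · exact le_rfl
  · by_cases h : T k
    · simp only [if_pos h]
      exact le_rfl
    · simp only [if_neg h]
      exact (lam_nq_zero h1 hq).le

theorem lam_vk_nonneg (h1 : SNq) {q : ℝ} (hq : 1 ≤ q) (A : ℕ → ℕ → Q n → Q m → ℝ) (x : Q n)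
    (k : ℕ) : 0 ≤ vk q A x k :=
  ((h1 m q hq).1 (wk A k x) fun y => lam_wk_nonneg A k x y).1

/-! ### one scale -/

/-- the `l^q` norm of the energies of the links of the scale `s` -/
noncomputable def lamG (q : ℝ) (A : ℕ → ℕ → Q n → Q m → ℝ) (s j : ℕ) (x : Q n) (y : Q m) : ℝ :=
  (∑ c ∈ range (n + m), wS A (Lk (vk q A x) s c) j x y ^ q) ^ (1 / q)

theorem lamG_sum_nonneg (q : ℝ) (A : ℕ → ℕ → Q n → Q m → ℝ) (s j : ℕ) (x : Q n) (y : Q m) :
    0 ≤ ∑ c ∈ range (n + m), wS A (Lk (vk q A x) s c) j x y ^ q :=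
  sum_nonneg fun c _ => Real.rpow_nonneg (lam_wS_nonneg _ _ _ _ _) _

theorem lamG_nonneg (q : ℝ) (A : ℕ → ℕ → Q n → Q m → ℝ) (s j : ℕ) (x : Q n) (y : Q m) :
    0 ≤ lamG q A s j x y := Real.rpow_nonneg (lamG_sum_nonneg q A s j x y) _

theorem lamG_pow {q : ℝ} (hq : 0 < q) (A : ℕ → ℕ → Q n → Q m → ℝ) (s j : ℕ) (x : Q n) (y : Q m) :
    lamG q A s j x y ^ q = ∑ c ∈ range (n + m), wS A (Lk (vk q A x) s c) j x y ^ q := by
  unfold lamG
  rw [← Real.rpow_mul (lamG_sum_nonneg q A s j x y), one_div, inv_mul_cancel₀ hq.ne',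
    Real.rpow_one]

theorem lamG_ge {q : ℝ} (hq : 0 < q) (A : ℕ → ℕ → Q n → Q m → ℝ) {s c : ℕ} (hc : c < n + m) (j : ℕ)
    (x : Q n) (y : Q m) : wS A (Lk (vk q A x) s c) j x y ≤ lamG q A s j x y := by
  refine (Real.rpow_le_rpow_iff (lam_wS_nonneg _ _ _ _ _) (lamG_nonneg q A s j x y) hq).1 ?_
  rw [lamG_pow hq]
  exact single_le_sum (f := fun c => wS A (Lk (vk q A x) s c) j x y ^ q)
    (fun c _ => Real.rpow_nonneg (lam_wS_nonneg _ _ _ _ _) _) (mem_range.2 hc)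

theorem lamG_mono {q : ℝ} (hq : 0 < q) (A : ℕ → ℕ → Q n → Q m → ℝ) (s : ℕ) {j j' : ℕ} (h : j ≤ j')
    (x : Q n) (y : Q m) : lamG q A s j x y ≤ lamG q A s j' x y := by
  unfold lamG
  refine Real.rpow_le_rpow (lamG_sum_nonneg q A s j x y) ?_ (by positivity)
  refine sum_le_sum fun c _ => ?_
  exact Real.rpow_le_rpow (lam_wS_nonneg _ _ _ _ _) (lam_wS_mono A _ h x y) hq.le

theorem lamG_inv {D A : ℕ → ℕ → Q n → Q m → ℝ} (hA : Ar2 n m D A) (q : ℝ) (s j : ℕ)
    (x : Q n) : Inv j (lamG q A s j x) := by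
  intro k hk y
  unfold lamG
  congr 1
  refine sum_congr rfl fun c _ => ?_
  rw [lam_wS_inv hA _ j x k hk y]

theorem lamG_nq (h1 : SNq) (h2 : SCh) {q : ℝ} (hq : 1 < q) {A : ℕ → ℕ → Q n → Q m → ℝ} {x : Q n}
    (hV : VT q A x < 1) (s : ℕ) :
    nq q (lamG q A s m x) ^ q ≤ ((1 : ℝ) / 2 ^ s) ^ (q - 1) * VT q A x := by
  have hq1 : 1 ≤ q := hq.le
  have hq0 : 0 < q := by linarith
  have hp : ∀ k, 0 ≤ vk q A x k := lam_vk_nonneg h1 hq1 A x
  obtain ⟨c1, c2, -, -⟩ := h2 (n + m) (vk q A x) hp hV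
  rw [((h1 m q hq1).1 (lamG q A s m x) fun y => lamG_nonneg q A s m x y).2.2.1]
  have e1 : (fun y => lamG q A s m x y ^ q) =
      fun y => ∑ c ∈ range (n + m), wS A (Lk (vk q A x) s c) m x y ^ q := by
    funext y
    exact lamG_pow hq0 A s m x y
  rw [e1, av_sum]
  have e2 : ∀ c ∈ range (n + m), av (fun y => wS A (Lk (vk q A x) s c) m x y ^ q) ≤
      ((1 : ℝ) / 2 ^ s) ^ (q - 1) *
        ∑ l ∈ range (n + m), (if Lk (vk q A x) s c l then vk q A x l else 0) := by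
    intro c hc
    rw [mem_range] at hc
    rw [← ((h1 m q hq1).1 (wS A (Lk (vk q A x) s c) m x)
      fun y => lam_wS_nonneg _ _ _ _ _).2.2.1]
    have f1 := lam_nq_wS h1 hq1 A (Lk (vk q A x) s c) x
    have f0 : 0 ≤ nq q (wS A (Lk (vk q A x) s c) m x) :=
      ((h1 m q hq1).1 _ fun y => lam_wS_nonneg _ _ _ _ _).1
    have f2 := c2 s c hc
    set E := ∑ l ∈ range (n + m), (if Lk (vk q A x) s c l then vk q A x l else 0) with hE
    have f3 : 0 ≤ E := f0.trans f1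
    calc nq q (wS A (Lk (vk q A x) s c) m x) ^ q ≤ E ^ q := Real.rpow_le_rpow f0 f1 hq0.le
      _ = E ^ (q - 1) * E := by
          have f4 := Real.rpow_add_of_nonneg f3 (show (0 : ℝ) ≤ q - 1 by linarith) zero_le_one
          rw [sub_add_cancel, Real.rpow_one] at f4
          exact f4
      _ ≤ ((1 : ℝ) / 2 ^ s) ^ (q - 1) * E :=
          mul_le_mul_of_nonneg_right (Real.rpow_le_rpow f3 f2 (by linarith)) f3
  refine (sum_le_sum e2).trans ?_
  rw [← mul_sum]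
  refine mul_le_mul_of_nonneg_left ?_ (by positivity)
  rw [sum_comm]
  unfold VT
  refine sum_le_sum fun l _ => ?_
  by_cases h : ∃ c ∈ range (n + m), Lk (vk q A x) s c l
  · obtain ⟨c, hc, hl⟩ := h
    rw [sum_eq_single_of_mem c hc fun c' hc' hne => ?_]
    · rw [if_pos hl]
    · exact if_neg fun hl' => hne (c1 s l c' (mem_range.1 hc') c (mem_range.1 hc) hl' hl)
  · rw [sum_eq_zero fun c hc => if_neg fun hl => h ⟨c, hc, hl⟩]
    exact hp l

/-! ### the controlling function -/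

/-- the controlling function -/
noncomputable def lamF (q θ : ℝ) (S : ℕ) (A : ℕ → ℕ → Q n → Q m → ℝ) (j : ℕ) (x : Q n) (y : Q m) :
    ℝ := wS A (fun _ => True) j x y + ∑ s ∈ range S, θ ^ s * lamG q A s j x y

theorem lamF_nonneg (q : ℝ) {θ : ℝ} (hθ : 0 ≤ θ) (S : ℕ) (A : ℕ → ℕ → Q n → Q m → ℝ) (j : ℕ)
    (x : Q n) (y : Q m) : 0 ≤ lamF q θ S A j x y := by
  unfold lamF
  refine add_nonneg (lam_wS_nonneg _ _ _ _ _) (sum_nonneg fun s _ => ?_)
  exact mul_nonneg (pow_nonneg hθ s) (lamG_nonneg q A s j x y)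

theorem lamF_nq (h1 : SNq) (h2 : SCh) {q θ : ℝ} (hq : 1 < q) (hθ : 1 < θ)
    (hθq : ∀ s : ℕ, (((1 : ℝ) / 2 ^ s) ^ (q - 1)) ^ (1 / q) = (θ⁻¹ ^ s) ^ 2) (S : ℕ)
    {A : ℕ → ℕ → Q n → Q m → ℝ} {x : Q n} (hV : VT q A x < 1) :
    nq q (lamF q θ S A m x) ≤ (1 + 1 / (1 - θ⁻¹)) * VT q A x ^ (1 / q) := by
  have hq1 : 1 ≤ q := hq.le
  have hq0 : 0 < q := by linarith
  have hθ0 : 0 < θ := by linarith
  have hp : ∀ k, 0 ≤ vk q A x k := lam_vk_nonneg h1 hq1 A x
  have hV0 : 0 ≤ VT q A x := sum_nonneg fun k _ => hp k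
  obtain ⟨N1, -, N3, N4⟩ := h1 m q hq1
  -- triangle inequality
  have t1 : nq q (lamF q θ S A m x) ≤ nq q (wS A (fun _ => True) m x) +
      ∑ s ∈ range S, nq q (fun y => θ ^ s * lamG q A s m x y) := by
    have h3 := N4 ℕ (range (S + 1)) (fun k y => if k = 0 then wS A (fun _ => True) m x y else
      θ ^ (k - 1) * lamG q A (k - 1) m x y) fun k y => by
        split_ifs
        · exact lam_wS_nonneg _ _ _ _ _
        · exact mul_nonneg (pow_nonneg hθ0.le _) (lamG_nonneg q A _ m x y)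
    have e1 : (fun y => ∑ k ∈ range (S + 1), (if k = 0 then wS A (fun _ => True) m x y else
        θ ^ (k - 1) * lamG q A (k - 1) m x y)) = lamF q θ S A m x := by
      funext y
      rw [sum_range_succ']
      unfold lamF
      simp only [Nat.add_eq_zero_iff, one_ne_zero, and_false, if_false, Nat.add_sub_cancel,
        if_true]
      rw [add_comm]
    rw [e1, sum_range_succ'] at h3
    simp only [Nat.add_eq_zero_iff, one_ne_zero, and_false, if_false, Nat.add_sub_cancel,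
      if_true] at h3
    rw [add_comm]
    exact h3
  -- the first term
  have t2 : nq q (wS A (fun _ => True) m x) ≤ VT q A x := by
    have h3 := lam_nq_wS h1 hq1 A (fun _ => True) x
    simp only [if_true] at h3
    exact h3
  have t3 : VT q A x ≤ VT q A x ^ (1 / q) := by
    rcases eq_or_lt_of_le hV0 with h0 | h0
    · rw [← h0]
      exact Real.rpow_nonneg le_rfl _
    · have h4 := Real.rpow_le_rpow_of_exponent_ge h0 hV.le
        (show 1 / q ≤ 1 by rw [div_le_one hq0]; exact hq1)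
      rw [Real.rpow_one] at h4
      exact h4
  -- the scales
  have t4 : ∀ s, nq q (fun y => θ ^ s * lamG q A s m x y) ≤ θ⁻¹ ^ s * VT q A x ^ (1 / q) := by
    intro s
    rw [N3 (θ ^ s) (lamG q A s m x) (pow_nonneg hθ0.le s) fun y => lamG_nonneg q A s m x y]
    have g0 : 0 ≤ nq q (lamG q A s m x) := (N1 _ fun y => lamG_nonneg q A s m x y).1
    have g1 := lamG_nq h1 h2 hq hV s
    have g2 : nq q (lamG q A s m x) ≤ (θ⁻¹ ^ s) ^ 2 * VT q A x ^ (1 / q) := by
      have g3 := Real.rpow_le_rpow (Real.rpow_nonneg g0 q) g1 (show (0 : ℝ) ≤ 1 / q by positivity)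
      rw [← Real.rpow_mul g0, mul_one_div_cancel hq0.ne', Real.rpow_one,
        Real.mul_rpow (by positivity) hV0, hθq] at g3
      exact g3
    calc θ ^ s * nq q (lamG q A s m x) ≤ θ ^ s * ((θ⁻¹ ^ s) ^ 2 * VT q A x ^ (1 / q)) :=
          mul_le_mul_of_nonneg_left g2 (pow_nonneg hθ0.le s)
      _ = (θ ^ s * θ⁻¹ ^ s) * (θ⁻¹ ^ s * VT q A x ^ (1 / q)) := by ring
      _ = θ⁻¹ ^ s * VT q A x ^ (1 / q) := by
          rw [← mul_pow, mul_inv_cancel₀ hθ0.ne', one_pow, one_mul]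
  have hi0 : 0 ≤ θ⁻¹ := by positivity
  have hi1 : θ⁻¹ < 1 := inv_lt_one_of_one_lt₀ hθ
  have t5 : ∑ s ∈ range S, θ⁻¹ ^ s ≤ 1 / (1 - θ⁻¹) := by
    rw [one_div, ← tsum_geometric_of_lt_one hi0 hi1]
    exact (summable_geometric_of_lt_one hi0 hi1).sum_le_tsum _ fun s _ => pow_nonneg hi0 s
  have hVq : 0 ≤ VT q A x ^ (1 / q) := Real.rpow_nonneg hV0 _
  calc nq q (lamF q θ S A m x) ≤ VT q A x + ∑ s ∈ range S, θ⁻¹ ^ s * VT q A x ^ (1 / q) :=
        t1.trans (add_le_add t2 (sum_le_sum fun s _ => t4 s))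
    _ ≤ VT q A x ^ (1 / q) + 1 / (1 - θ⁻¹) * VT q A x ^ (1 / q) := by
        rw [← sum_mul]
        exact add_le_add t3 (mul_le_mul_of_nonneg_right t5 hVq)
    _ = _ := by ring

theorem lam (h1 : SNq) (h2 : SCh) : SLam := by
  intro q hq
  have hq1 : 1 ≤ q := hq.le
  have hq0 : 0 < q := by linarith
  set θ : ℝ := (2 : ℝ) ^ ((q - 1) / (2 * q)) with hθd
  have hθ : 1 < θ := Real.one_lt_rpow one_lt_two (div_pos (by linarith) (by positivity))
  have hθ0 : 0 < θ := by linarith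
  have hθq : ∀ s : ℕ, (((1 : ℝ) / 2 ^ s) ^ (q - 1)) ^ (1 / q) = (θ⁻¹ ^ s) ^ 2 := by
    intro s
    have e1 : (1 : ℝ) / 2 ^ s = (2 : ℝ) ^ (-(s : ℝ)) := by
      rw [Real.rpow_neg (by norm_num), Real.rpow_natCast, one_div]
    have e2 : (θ⁻¹ ^ s) ^ 2 = (2 : ℝ) ^ (-((q - 1) / (2 * q)) * ((s * 2 : ℕ) : ℝ)) := by
      rw [← pow_mul, hθd, ← Real.rpow_neg (by norm_num), Real.rpow_mul (by norm_num),
        Real.rpow_natCast]
    rw [e1, e2, ← Real.rpow_mul (by norm_num), ← Real.rpow_mul (by norm_num)]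
    congr 1
    push_cast
    field_simp
  have hi1 : θ⁻¹ < 1 := inv_lt_one_of_one_lt₀ hθ
  have hC : 0 ≤ 1 + 1 / (1 - θ⁻¹) := by
    have : 0 < 1 - θ⁻¹ := by linarith
    positivity
  refine ⟨θ, (1 + 1 / (1 - θ⁻¹)) ^ q, hθ, Real.rpow_nonneg hC _, ?_⟩
  intro n m D A hA hV S
  refine ⟨lamF q θ S A, ?_, ?_, ?_, ?_, ?_, ?_⟩
  · intro j x k hk y
    unfold lamF
    rw [lam_wS_inv hA _ j x k hk y]
    congr 1
    refine sum_congr rfl fun s _ => ?_
    rw [lamG_inv hA q s j x k hk y]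
  · intro j x y
    exact lamF_nonneg q hθ0.le S A j x y
  · intro j j' x y h
    unfold lamF
    refine add_le_add (lam_wS_mono A _ h x y) (sum_le_sum fun s _ => ?_)
    exact mul_le_mul_of_nonneg_left (lamG_mono hq0 A s h x y) (pow_nonneg hθ0.le s)
  · intro j x y
    unfold lamF
    have h3 : 0 ≤ ∑ s ∈ range S, θ ^ s * lamG q A s j x y :=
      sum_nonneg fun s _ => mul_nonneg (pow_nonneg hθ0.le s) (lamG_nonneg q A s j x y)
    linarith
  · intro s hs c hc j x y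
    unfold lamF
    have h3 : θ ^ s * lamG q A s j x y ≤ ∑ s ∈ range S, θ ^ s * lamG q A s j x y :=
      single_le_sum (f := fun s => θ ^ s * lamG q A s j x y)
        (fun s _ => mul_nonneg (pow_nonneg hθ0.le s) (lamG_nonneg q A s j x y)) (mem_range.2 hs)
    have h4 := mul_le_mul_of_nonneg_left (lamG_ge hq0 A (s := s) hc j x y) (pow_nonneg hθ0.le s)
    have h5 := lam_wS_nonneg A (fun _ => True) j x y
    linarith
  · intro x
    have hV0 : 0 ≤ VT q A x := sum_nonneg fun k _ => lam_vk_nonneg h1 hq1 A x k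
    have g0 : ∀ y, 0 ≤ lamF q θ S A m x y := fun y => lamF_nonneg q hθ0.le S A m x y
    rw [← ((h1 m q hq1).1 (lamF q θ S A m x) g0).2.2.1]
    have g1 := lamF_nq h1 h2 hq hθ hθq S (hV x)
    refine (Real.rpow_le_rpow ((h1 m q hq1).1 (lamF q θ S A m x) g0).1 g1 hq0.le).trans ?_
    rw [Real.mul_rpow hC (Real.rpow_nonneg hV0 _), ← Real.rpow_mul hV0,
      one_div_mul_cancel hq0.ne', Real.rpow_one]

end Pool.Agent.H79.RU
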