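import Pool.Agent.H79.RU.Stm

/-!
# MP_a7284e_an, project RU, row RU6: the increments over the links of one scale in one layer
-/

set_option autoImplicit false

namespace Pool.Agent.H79.RU

open Finset Classical
open Pool.Agent.H79.RT

/-- the Cauchy-Schwarz inequality in a form with an inequality between the terms -/
theorem lk_cs {ι : Type} (s : Finset ι) (u f g : ι → ℝ) (hf : ∀ i ∈ s, 0 ≤ f i)
    (hg : ∀ i ∈ s, 0 ≤ g i) (hu : ∀ i ∈ s, u i ^ 2 ≤ f i * g i) :
    (∑ i ∈ s, u i) ^ 2 ≤ (∑ i ∈ s, f i) * ∑ i ∈ s, g i := by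
  have h1 : |∑ i ∈ s, u i| ≤ ∑ i ∈ s, √(f i) * √(g i) := by
    refine (abs_sum_le_sum_abs _ _).trans (sum_le_sum fun i hi => ?_)
    rw [← Real.sqrt_mul (hf i hi)]
    exact Real.abs_le_sqrt (hu i hi)
  have h2 := sum_mul_sq_le_sq_mul_sq s (fun i => √(f i)) (fun i => √(g i))
  have h3 : ∑ i ∈ s, √(f i) ^ 2 = ∑ i ∈ s, f i :=
    sum_congr rfl fun i hi => Real.sq_sqrt (hf i hi)
  have h4 : ∑ i ∈ s, √(g i) ^ 2 = ∑ i ∈ s, g i :=
    sum_congr rfl fun i hi => Real.sq_sqrt (hg i hi)
  rw [h3, h4] at h2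
  calc (∑ i ∈ s, u i) ^ 2 = |∑ i ∈ s, u i| ^ 2 := (sq_abs _).symm
    _ ≤ (∑ i ∈ s, √(f i) * √(g i)) ^ 2 := pow_le_pow_left₀ (abs_nonneg _) h1 2
    _ ≤ _ := h2

/-- Hoelder's inequality with four factors -/
theorem lk_h4 {ι : Type} (s : Finset ι) (u z b d : ι → ℝ) (hz : ∀ i ∈ s, 0 ≤ z i)
    (hb : ∀ i ∈ s, 0 ≤ b i) (hd : ∀ i ∈ s, 0 ≤ d i)
    (hu : ∀ i ∈ s, u i ^ 4 ≤ z i * b i * d i ^ 2) :
    (∑ i ∈ s, u i) ^ 4 ≤ (∑ i ∈ s, z i) * (∑ i ∈ s, b i) * (∑ i ∈ s, d i) ^ 2 := by
  have h1 : (∑ i ∈ s, u i) ^ 2 ≤ (∑ i ∈ s, √(z i * b i)) * ∑ i ∈ s, d i := by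
    refine lk_cs s u _ _ (fun i _ => Real.sqrt_nonneg _) hd fun i hi => ?_
    have e1 : (u i ^ 2) ^ 2 ≤ (√(z i * b i) * d i) ^ 2 := by
      rw [mul_pow, Real.sq_sqrt (mul_nonneg (hz i hi) (hb i hi))]
      calc (u i ^ 2) ^ 2 = u i ^ 4 := by ring
        _ ≤ _ := hu i hi
    exact (pow_le_pow_iff_left₀ (sq_nonneg _) (mul_nonneg (Real.sqrt_nonneg _) (hd i hi))
      two_ne_zero).1 e1
  have h2 : (∑ i ∈ s, √(z i * b i)) ^ 2 ≤ (∑ i ∈ s, z i) * ∑ i ∈ s, b i := by
    refine lk_cs s _ z b hz hb fun i hi => ?_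
    exact (Real.sq_sqrt (mul_nonneg (hz i hi) (hb i hi))).le
  calc (∑ i ∈ s, u i) ^ 4 = ((∑ i ∈ s, u i) ^ 2) ^ 2 := by ring
    _ ≤ ((∑ i ∈ s, √(z i * b i)) * ∑ i ∈ s, d i) ^ 2 := pow_le_pow_left₀ (sq_nonneg _) h1 2
    _ = (∑ i ∈ s, √(z i * b i)) ^ 2 * (∑ i ∈ s, d i) ^ 2 := mul_pow _ _ _
    _ ≤ _ := mul_le_mul_of_nonneg_right h2 (sq_nonneg _)

/-- the sites of a link in one row form an interval -/
theorem lk_ico (p : ℕ → ℝ) (s c j n : ℕ) : ∃ a b, a ≤ b ∧ ∀ F : ℕ → ℝ,
    (∑ i ∈ range n, if Lk p s c (i + j) then F i else 0) = ∑ i ∈ Ico a b, F i := by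
  by_cases h : fst p (s + 1) c = c
  · refine ⟨fst p s c + 1 - j, max (fst p s c + 1 - j) (min n (c + 1 - j)), le_max_left _ _,
      fun F => ?_⟩
    rw [← sum_filter]
    refine sum_congr ?_ fun _ _ => rfl
    ext i
    simp only [mem_filter, mem_range, mem_Ico, Lk, h, true_and]
    omega
  · refine ⟨0, 0, le_rfl, fun F => ?_⟩
    rw [Ico_self, sum_empty]
    exact sum_eq_zero fun i _ => if_neg fun h' => h h'.1

/-- at most one term is present -/
theorem lk_one (N : ℕ) (P : ℕ → Prop) (a : ℝ) (ha : 0 ≤ a)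
    (h : ∀ c < N, ∀ c' < N, P c → P c' → c = c') :
    (∑ c ∈ range N, if P c then a else 0) ≤ a := by
  by_cases hex : ∃ c ∈ range N, P c
  · obtain ⟨c, hc, hP⟩ := hex
    rw [sum_eq_single_of_mem c hc, if_pos hP]
    intro c' hc' hne
    exact if_neg fun h' => hne (h c' (mem_range.1 hc') c (mem_range.1 hc) h' hP)
  · refine (sum_eq_zero fun c hc => if_neg fun h' => hex ⟨c, hc, h'⟩).trans_le ha

section

variable {n m : ℕ}

/-- the energy of the active rows -/
theorem lk_act (A : ℕ → ℕ → Q n → Q m → ℝ) (Λ : ℕ → Q n → Q m → ℝ) (T : ℕ → Prop) (t : ℝ)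
    (ht : 0 ≤ t) (b : ℕ) (x : Q n) (y : Q m) (hT : ∀ j, t * wS A T j x y ≤ Λ j x y) :
    t * (∑ j ∈ range m, if Act Λ b j x y then
      ∑ i ∈ range n, (if T (i + j) then A i j x y ^ 2 else 0) else 0) ≤ 2 ^ (b + 1) := by
  by_cases hex : ((range m).filter fun j => Act Λ b j x y).Nonempty
  · set J := ((range m).filter fun j => Act Λ b j x y).max' hex with hJ
    have hJm := Finset.max'_mem _ hex
    rw [← hJ, mem_filter] at hJm
    have h1 : (∑ j ∈ range m, if Act Λ b j x y then
        ∑ i ∈ range n, (if T (i + j) then A i j x y ^ 2 else 0) else 0) ≤ wS A T J x y := by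
      unfold wS
      rw [sum_comm]
      refine sum_le_sum fun j hj => ?_
      by_cases hA : Act Λ b j x y
      · rw [if_pos hA]
        have hle : j ≤ J := Finset.le_max' _ _ (mem_filter.2 ⟨hj, hA⟩)
        refine sum_le_sum fun i _ => ?_
        by_cases hTi : T (i + j)
        · rw [if_pos hTi, if_pos ⟨hTi, hle⟩]
        · rw [if_neg hTi]
          split_ifs <;> positivity
      · rw [if_neg hA]
        refine sum_nonneg fun i _ => ?_
        split_ifs <;> positivity
    calc _ ≤ t * wS A T J x y := mul_le_mul_of_nonneg_left h1 ht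
      _ ≤ Λ J x y := hT J
      _ ≤ 2 ^ (b + 1) := hJm.2.1
  · rw [not_nonempty_iff_eq_empty, filter_eq_empty_iff] at hex
    rw [sum_eq_zero fun j hj => if_neg (hex hj), mul_zero]
    positivity

end

/-- RU6 -/
theorem link (h1 : SBdg) (h2 : SMod2) (h3 : SCh) (h4 : SNq) : SLink := by
  obtain ⟨C, hC, hbdg⟩ := h1 4 (by norm_num)
  obtain ⟨K, hK, hmod⟩ := h2
  refine ⟨8 * C * K, by positivity, ?_⟩
  intro q θ C' hq hθ n m S D A Λ hAr hVT hCtl s hs b
  have hθ0 : 0 < θ := by linarith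
  have hθs : 0 < θ ^ s := pow_pos hθ0 s
  -- the moduli of continuity
  have hMar : ∀ (j : ℕ) (y : Q m), Mar n (fun i x => D i j x y) (fun i x => A i j x y) :=
    fun j y => ⟨fun i => hAr.odx i j y, fun i => hAr.invx i j y, fun i => hAr.pax i j y,
      fun i x => hAr.na i j x y, fun i x => hAr.dom i j x y,
      fun i hi x => hAr.za i j (Or.inl hi) x y⟩
  choose Z hZ0 hZav hZ using fun (j : ℕ) (y : Q m) => hmod n _ _ (hMar j y)
  -- energies of the rows and of the parts of the rows in the links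
  set B : ℕ → Q n → Q m → ℝ := fun j x y => ∑ i ∈ range n, A i j x y ^ 2 with hB
  set Δ : ℕ → ℕ → Q n → Q m → ℝ := fun c j x y =>
    ∑ i ∈ range n, (if Lk (vk q A x) s c (i + j) then A i j x y ^ 2 else 0) with hΔ
  have hB0 : ∀ j x y, 0 ≤ B j x y := fun j x y => sum_nonneg fun i _ => sq_nonneg _
  have hΔ0 : ∀ c j x y, 0 ≤ Δ c j x y := fun c j x y => sum_nonneg fun i _ => by
    split_ifs <;> positivity
  -- the increments of the rows
  set d : Q n → ℕ → ℕ → Q m → ℝ := fun x c j y => if Act Λ b j x y then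
    ∑ i ∈ range n, (if Lk (vk q A x) s c (i + j) then D i j x y else 0) else 0 with hd
  have hdX : ∀ x c y, dX q D A Λ s c b x y = ∑ j ∈ range m, d x c j y := by
    intro x c y
    unfold dX
    refine sum_congr rfl fun j _ => ?_
    simp only [hd]
    by_cases hA : Act Λ b j x y
    · rw [if_pos hA]
      refine sum_congr rfl fun i _ => ?_
      simp only [hA, true_and]
    · rw [if_neg hA]
      exact sum_eq_zero fun i _ => if_neg fun h => hA h.1
  have hActI : ∀ j x, Inv j (Act Λ b j x) := by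
    intro j x l hl y
    unfold Act
    rw [hCtl.inv j x l hl y]
  have hod : ∀ x c j, Od j (d x c j) := by
    intro x c j y
    simp only [hd]
    rw [show Act Λ b j x (fl j y) = Act Λ b j x y from hActI j x j le_rfl y]
    by_cases hA : Act Λ b j x y
    · rw [if_pos hA, if_pos hA, ← sum_neg_distrib]
      refine sum_congr rfl fun i _ => ?_
      by_cases hL : Lk (vk q A x) s c (i + j)
      · rw [if_pos hL, if_pos hL]
        exact hAr.ody i j x y
      · rw [if_neg hL, if_neg hL, neg_zero]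
    · rw [if_neg hA, if_neg hA, neg_zero]
  have hinv : ∀ x c j, Inv (j + 1) (d x c j) := by
    intro x c j l hl y
    simp only [hd]
    rw [show Act Λ b j x (fl l y) = Act Λ b j x y from hActI j x l (by omega) y]
    by_cases hA : Act Λ b j x y
    · rw [if_pos hA, if_pos hA]
      refine sum_congr rfl fun i _ => ?_
      rw [hAr.invy i j x l hl y]
    · rw [if_neg hA, if_neg hA]
  -- the pointwise bound of the increment of a row
  have hd8 : ∀ x c j y, (d x c j y ^ 2) ^ 4 ≤ Z j y x *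
      (if Act Λ b j x y then B j x y else 0) * (if Act Λ b j x y then Δ c j x y else 0) ^ 2 := by
    intro x c j y
    by_cases hA : Act Λ b j x y
    · obtain ⟨a, e, hae, hsum⟩ := lk_ico (vk q A x) s c j n
      have h5 := hZ j y x a e hae
      rw [← hsum (fun i => D i j x y), ← hsum (fun i => A i j x y ^ 2)] at h5
      simp only [hd, if_pos hA]
      calc _ = (∑ i ∈ range n, if Lk (vk q A x) s c (i + j) then D i j x y else 0) ^ 8 := by
            ring
        _ ≤ _ := h5
    · simp only [hd, if_neg hA]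
      norm_num
  -- the energies
  have hBle : ∀ x y, (∑ j ∈ range m, if Act Λ b j x y then B j x y else 0) ≤ 2 ^ (b + 1) := by
    intro x y
    have h5 := lk_act A Λ (fun _ => True) 1 zero_le_one b x y (fun j => by
      rw [one_mul]; exact hCtl.tot j x y)
    simp only [if_true, one_mul] at h5
    exact h5
  have hΔle : ∀ c < n + m, ∀ x y,
      (∑ j ∈ range m, if Act Λ b j x y then Δ c j x y else 0) ≤ 2 ^ (b + 1) / θ ^ s := by
    intro c hc x y
    have h5 := lk_act A Λ (Lk (vk q A x) s c) (θ ^ s) hθs.le b x y (fun j =>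
      hCtl.lnk s hs c hc j x y)
    rw [le_div_iff₀ hθs, mul_comm]
    exact h5
  have hp0 : ∀ x k, 0 ≤ vk q A x k := by
    intro x k
    refine (((h4 m q hq.le).1) (wk A k x) fun y => ?_).1
    unfold wk
    refine sum_nonneg fun i _ => sum_nonneg fun j _ => ?_
    split_ifs <;> positivity
  have hΔsum : ∀ x y, (∑ c ∈ range (n + m),
      ∑ j ∈ range m, if Act Λ b j x y then Δ c j x y else 0) ≤ 2 ^ (b + 1) := by
    intro x y
    refine le_trans ?_ (hBle x y)
    rw [sum_comm]
    refine sum_le_sum fun j _ => ?_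
    by_cases hA : Act Λ b j x y
    · simp only [if_pos hA, hΔ, hB]
      rw [sum_comm]
      refine sum_le_sum fun i _ => ?_
      exact lk_one (n + m) (fun c => Lk (vk q A x) s c (i + j)) _ (sq_nonneg _)
        (fun c hc c' hc' => (h3 (n + m) (vk q A x) (hp0 x) (hVT x)).1 s (i + j) c hc c' hc')
    · simp only [if_neg hA, sum_const_zero, le_refl]
  -- the bound for fixed `x`, summed over the links
  have hx : ∀ x, (av fun y => ∑ c ∈ range (n + m), dX q D A Λ s c b x y ^ 8) ≤
      C * (8 * 8 ^ b / θ ^ s) * av (fun y => ∑ j ∈ range m, Z j y x) := by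
    intro x
    have e1 : ∀ c, av (fun y => dX q D A Λ s c b x y ^ 8) ≤
        C * av (fun y => (∑ j ∈ range m, d x c j y ^ 2) ^ 4) := by
      intro c
      obtain ⟨M, hM0, hM1, hM2⟩ := hbdg m (d x c) (hod x c) (hinv x c)
      refine le_trans (av_mono fun y => ?_) hM2
      rw [hdX]
      have f1 := hM1 y m
      calc (∑ j ∈ range m, d x c j y) ^ 8 = |∑ j ∈ range m, d x c j y| ^ 8 := by
            rw [← abs_pow, abs_of_nonneg (by positivity)]
        _ ≤ M y ^ 8 := pow_le_pow_left₀ (abs_nonneg _) f1 8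
        _ = M y ^ (2 * 4) := by norm_num
    have e2 : ∀ y, (∑ c ∈ range (n + m), (∑ j ∈ range m, d x c j y ^ 2) ^ 4) ≤
        (8 * 8 ^ b / θ ^ s) * ∑ j ∈ range m, Z j y x := by
      intro y
      have hZs : 0 ≤ ∑ j ∈ range m, Z j y x := sum_nonneg fun j _ => hZ0 j y x
      have f1 : ∀ c ∈ range (n + m), (∑ j ∈ range m, d x c j y ^ 2) ^ 4 ≤
          (∑ j ∈ range m, Z j y x) * (2 ^ (b + 1) * (2 ^ (b + 1) / θ ^ s)) *
            ∑ j ∈ range m, (if Act Λ b j x y then Δ c j x y else 0) := by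
        intro c hc
        have g1 := lk_h4 (range m) (fun j => d x c j y ^ 2) (fun j => Z j y x)
          (fun j => if Act Λ b j x y then B j x y else 0)
          (fun j => if Act Λ b j x y then Δ c j x y else 0) (fun j _ => hZ0 j y x)
          (fun j _ => by split_ifs; exacts [hB0 j x y, le_rfl])
          (fun j _ => by split_ifs; exacts [hΔ0 c j x y, le_rfl]) (fun j _ => hd8 x c j y)
        refine g1.trans ?_
        have g2 := hBle x y
        have g3 := hΔle c (mem_range.1 hc) x y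
        have g4 : 0 ≤ ∑ j ∈ range m, (if Act Λ b j x y then Δ c j x y else 0) :=
          sum_nonneg fun j _ => by split_ifs; exacts [hΔ0 c j x y, le_rfl]
        set Zs := ∑ j ∈ range m, Z j y x
        set Bs := ∑ j ∈ range m, (if Act Λ b j x y then B j x y else 0)
        set Ds := ∑ j ∈ range m, (if Act Λ b j x y then Δ c j x y else 0)
        have g5 : Bs * Ds ≤ 2 ^ (b + 1) * (2 ^ (b + 1) / θ ^ s) :=
          mul_le_mul g2 g3 g4 (by positivity)
        calc Zs * Bs * Ds ^ 2 = Zs * (Bs * Ds) * Ds := by ring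
          _ ≤ Zs * (2 ^ (b + 1) * (2 ^ (b + 1) / θ ^ s)) * Ds := by
            apply mul_le_mul_of_nonneg_right _ g4
            exact mul_le_mul_of_nonneg_left g5 hZs
      refine (sum_le_sum f1).trans ?_
      rw [← mul_sum]
      calc _ ≤ (∑ j ∈ range m, Z j y x) * (2 ^ (b + 1) * (2 ^ (b + 1) / θ ^ s)) * 2 ^ (b + 1) :=
            mul_le_mul_of_nonneg_left (hΔsum x y) (by positivity)
        _ = (8 * 8 ^ b / θ ^ s) * ∑ j ∈ range m, Z j y x := by
            have g6 : (8 : ℝ) * 8 ^ b = 2 ^ (b + 1) * 2 ^ (b + 1) * 2 ^ (b + 1) := by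
              have : (8 : ℝ) = 2 * 2 * 2 := by norm_num
              rw [this, mul_pow, mul_pow]
              ring
            rw [g6]
            ring
    rw [av_sum]
    calc ∑ c ∈ range (n + m), av (fun y => dX q D A Λ s c b x y ^ 8)
        ≤ ∑ c ∈ range (n + m), C * av (fun y => (∑ j ∈ range m, d x c j y ^ 2) ^ 4) :=
          sum_le_sum fun c _ => e1 c
      _ = C * av (fun y => ∑ c ∈ range (n + m), (∑ j ∈ range m, d x c j y ^ 2) ^ 4) := by
          rw [← mul_sum, av_sum]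
      _ ≤ C * av (fun y => (8 * 8 ^ b / θ ^ s) * ∑ j ∈ range m, Z j y x) :=
          mul_le_mul_of_nonneg_left (av_mono e2) hC
      _ = _ := by rw [av_mul_left]; ring
  -- the average over `x`
  have hZtot : av2 (fun (x : Q n) (y : Q m) => ∑ j ∈ range m, Z j y x) ≤ K * av (VT q A) := by
    have e1 : av2 (fun (x : Q n) (y : Q m) => ∑ j ∈ range m, Z j y x) ≤
        K * av2 (fun (x : Q n) (y : Q m) => ∑ j ∈ range m, B j x y) := by
      rw [av2_swap, av2_swap (fun (x : Q n) (y : Q m) => ∑ j ∈ range m, B j x y),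
        ← av2_mul_left]
      refine av_mono fun y => ?_
      rw [av_sum, av_mul_left, av_sum, mul_sum]
      exact sum_le_sum fun j _ => hZav j y
    have e2 : ∀ x y, ∑ j ∈ range m, B j x y = ∑ k ∈ range (n + m), wk A k x y := by
      intro x y
      simp only [hB, wk]
      rw [sum_comm]
      symm
      rw [sum_comm]
      refine sum_congr rfl fun i hi => ?_
      rw [sum_comm]
      refine sum_congr rfl fun j hj => ?_
      rw [sum_ite_eq]
      rw [if_pos]
      rw [mem_range] at hi hj ⊢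
      omega
    have e3 : av2 (fun (x : Q n) (y : Q m) => ∑ j ∈ range m, B j x y) ≤ av (VT q A) := by
      refine av_mono fun x => ?_
      simp only [e2]
      rw [av_sum]
      refine sum_le_sum fun k _ => ?_
      refine (((h4 m q hq.le).1) (wk A k x) fun y => ?_).2.1
      unfold wk
      refine sum_nonneg fun i _ => sum_nonneg fun j _ => ?_
      split_ifs <;> positivity
    exact e1.trans (mul_le_mul_of_nonneg_left e3 hK)
  calc av2 (fun x y => ∑ c ∈ range (n + m), dX q D A Λ s c b x y ^ 8)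
      ≤ av (fun x => C * (8 * 8 ^ b / θ ^ s) * av (fun y => ∑ j ∈ range m, Z j y x)) :=
        av_mono hx
    _ = C * (8 * 8 ^ b / θ ^ s) * av2 (fun (x : Q n) (y : Q m) => ∑ j ∈ range m, Z j y x) := by
        rw [av_mul_left]; rfl
    _ ≤ C * (8 * 8 ^ b / θ ^ s) * (K * av (VT q A)) :=
        mul_le_mul_of_nonneg_left hZtot (by positivity)
    _ = 8 * C * K * 8 ^ b / θ ^ s * av (VT q A) := by ring

end Pool.Agent.H79.RU
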