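import Pool.Agent.H79.RU.StmR
import Pool.Agent.H79.RT.MaxD
import Pool.Agent.H79.RT.HcT

/-!
# MP_a7284e_an, project RU, row P3: the maximal inequality
-/

set_option autoImplicit false

namespace Pool.Agent.H79.RU

open MeasureTheory FourierTransform Filter Topology Finset Classical ENNReal
open Pool.Agent.H73.Hyp
open Pool.Agent.H79.RT

/-- the flips preserve the measure -/
theorem mxu_mp (l₀ : ℤ) {m : ℕ} (h : Q m) :
    MeasurePreserving (yf l₀ h) (volume : Measure E2) volume :=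
  trob_mp (fun _ => mp_fl 1 _) _ _

theorem mxu_Wz_nonneg (L L' : ℕ) (f : L2) (k : ℤ) (z : E2) : 0 ≤ Wz L L' f k z := by
  unfold Wz
  refine sum_nonneg fun i _ => sum_nonneg fun j _ => ?_
  split_ifs
  · positivity
  · exact le_rfl

theorem mxu_Wz_int (L L' : ℕ) (f : L2) (k : ℤ) : Integrable (Wz L L' f k) := by
  unfold Wz
  refine integrable_finsetSum _ fun i _ => integrable_finsetSum _ fun j _ => ?_
  split_ifs
  · exact integrable_sq _
  · exact integrable_zero _ _ _

/-- the total energy of the window -/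
theorem mxu_sum (L L' : ℕ) (f : L2) (z : E2) :
    ∑ k ∈ Icc (-((L : ℤ) + L')) ((L : ℤ) + L'), Wz L L' f k z =
      ∑ i ∈ range (2 * L), ∑ j ∈ range (2 * L'), ‖bb L L' f i j z‖ ^ 2 := by
  unfold Wz
  rw [sum_comm]
  refine sum_congr rfl fun i hi => ?_
  rw [sum_comm]
  refine sum_congr rfl fun j hj => ?_
  rw [sum_ite_eq, if_pos]
  rw [mem_range] at hi hj
  rw [mem_Icc]
  omega

theorem mxu_sum_int (L L' : ℕ) (f : L2) :
    ∫ z, ∑ k ∈ Icc (-((L : ℤ) + L')) ((L : ℤ) + L'), Wz L L' f k z =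
      ∑ i ∈ range (2 * L), ∑ j ∈ range (2 * L'), ‖bb L L' f i j‖ ^ 2 := by
  simp only [mxu_sum]
  rw [integral_finsetSum _ fun i _ => integrable_finsetSum _ fun j _ => integrable_sq _]
  refine sum_congr rfl fun i _ => ?_
  rw [integral_finsetSum _ fun j _ => integrable_sq _]
  exact sum_congr rfl fun j _ => (norm_sq_eq _).symm

/-- the energy is at most the integral of the clock -/
theorem mxu_le (h3 : SNq) {q : ℝ} (hq : 1 < q) (l₀ : ℤ) (L L' : ℕ) (f : L2)
    (hi : Integrable (Nz q l₀ L L' f)) :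
    ∑ i ∈ range (2 * L), ∑ j ∈ range (2 * L'), ‖bb L L' f i j‖ ^ 2 ≤
      ∫ z, Nz q l₀ L L' f z := by
  set m := Int.toNat ((L' : ℤ) - l₀) with hm
  set S : E2 → ℝ := fun z => ∑ k ∈ Icc (-((L : ℤ) + L')) ((L : ℤ) + L'), Wz L L' f k z with hS
  have hSi : Integrable S := integrable_finsetSum _ fun k _ => mxu_Wz_int L L' f k
  have h1 : ∀ h : Q m, ∫ z, S (yf l₀ h z) = ∫ z, S z := by
    intro h
    have hmp := mxu_mp l₀ h
    have h2 : ∫ y, S y ∂(Measure.map (yf l₀ h) volume) = ∫ x, S (yf l₀ h x) :=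
      integral_map hmp.measurable.aemeasurable (by
        rw [hmp.map_eq]; exact hSi.aestronglyMeasurable)
    rw [← h2, hmp.map_eq]
  have h1i : ∀ h : Q m, Integrable fun z => S (yf l₀ h z) := fun h =>
    (mxu_mp l₀ h).integrable_comp_of_integrable hSi
  have h4 : ∫ z, av (fun h : Q m => S (yf l₀ h z)) = ∫ z, S z := by
    unfold av
    rw [integral_div, integral_finsetSum _ fun h _ => h1i h]
    simp only [h1]
    rw [sum_const, card_univ, nsmul_eq_mul]
    have : Fintype.card (Q m) = 2 ^ m := by simp [Q]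
    rw [this]
    push_cast
    field_simp
  have h5 : Integrable fun z => av (fun h : Q m => S (yf l₀ h z)) := by
    unfold av
    exact (integrable_finsetSum _ fun h _ => h1i h).div_const _
  rw [← mxu_sum_int, ← h4]
  refine integral_mono h5 hi fun z => ?_
  show av (fun h : Q m => S (yf l₀ h z)) ≤ Nz q l₀ L L' f z
  unfold Nz
  rw [hS]
  rw [av_sum]
  refine sum_le_sum fun k _ => ?_
  exact ((h3 m q hq.le).1 (fun h => Wz L L' f k (yf l₀ h z))
    fun h => mxu_Wz_nonneg L L' f k _).2.1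

/-- P3: the maximal inequality -/
theorem maxU (h1 : STrU) (h2 : SNormU) (h3 : SNq) : SMaxU := by
  intro q hq
  obtain ⟨C, hC, h1⟩ := h1 q hq
  obtain ⟨C', hC', hc⟩ := hct
  refine ⟨1 + C' * (1 + C), by positivity, fun l₀ f B hB hlo hsh => ?_⟩
  have h4 := h2 q hq l₀ f B hB hlo hsh
  have hn : ‖f‖ ^ 2 ≤ B := by
    have h5 : ∀ L : ℕ, ‖∑ p ∈ range (2 * L) ×ˢ range (2 * L), bb L L f p.1 p.2‖ ^ 2 ≤ B := by
      intro L
      obtain ⟨_, h6, h7⟩ := h4 L L
      rw [mxd_sum_sq, sum_product]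
      exact (mxu_le h3 hq l₀ L L f h6).trans h7
    exact le_of_tendsto ((mxd_lim f).norm.pow 2) (Eventually.of_forall h5)
  refine ⟨hn.trans ?_, fun K hK => ?_⟩
  · have : 0 ≤ C' * (1 + C) * B := by positivity
    nlinarith
  · have h5 : ∀ (L L' : ℕ) (K : Finset ℤ), Maj K (fun k => Xs L L' k f) (C * B) := by
      intro L L' K
      obtain ⟨h6, h7, h8⟩ := h4 L L'
      exact (h1 l₀ L L' f h6 h7 K).mono (mul_le_mul_of_nonneg_left h8 hC)
    refine (hc f (C * B) h5 K hK).mono ?_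
    calc C' * (‖f‖ ^ 2 + C * B) ≤ C' * (B + C * B) :=
          mul_le_mul_of_nonneg_left (by linarith) hC'
      _ = C' * (1 + C) * B := by ring
      _ ≤ (1 + C' * (1 + C)) * B := by nlinarith

end Pool.Agent.H79.RU
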