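import Pool.Agent.H79.RU.Stm
import Pool.Agent.H79.RT.FinA

/-!
# MP_a7284e_an, project RU: modulus of continuity without normalisation
-/

set_option autoImplicit false

namespace Pool.Agent.H79.RU

open Finset Classical
open Pool.Agent.H79.RT

variable {n : ℕ}

theorem m2_geo (b : ℕ → ℝ) (U : ℕ → Prop) (Z : ℝ) (h0 : ∀ k, 0 ≤ b k)
    (h2 : ∀ k, 7 / 5 * b k ≤ b (k + 1)) (hZ : 0 ≤ Z) (hU : ∀ k, U k → b k ≤ Z) (L : ℕ) :
    ∑ k ∈ range L, (if U k then b k else 0) ≤ 5 / 2 * b L ∧
      ∑ k ∈ range L, (if U k then b k else 0) ≤ 7 / 2 * Z := by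
  induction L with
  | zero =>
    have := h0 0
    simp only [range_zero, sum_empty]
    exact ⟨by linarith, by linarith⟩
  | succ L ih =>
    rw [sum_range_succ]
    have h3 := h2 L
    have h4 := h0 L
    by_cases hu : U L
    · rw [if_pos hu]
      have := hU L hu
      exact ⟨by linarith [ih.1], by linarith [ih.1]⟩
    · rw [if_neg hu]
      exact ⟨by linarith [ih.1], by linarith [ih.2]⟩

/-- Hoelder's inequality with the exponent eight and weights -/
theorem m2_cs {ι : Type*} (s : Finset ι) (d t : ι → ℝ) (hd : ∀ k ∈ s, 0 < d k) :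
    (∑ k ∈ s, t k) ^ 8 ≤ (∑ k ∈ s, d k) ^ 7 * ∑ k ∈ s, t k ^ 8 / d k ^ 7 := by
  rcases s.eq_empty_or_nonempty with rfl | hs
  · simp
  set W : ℝ := ∑ k ∈ s, d k with hW
  have hWp : 0 < W := sum_pos hd hs
  have key : ∀ f : ι → ℝ, (∑ k ∈ s, f k) ^ 2 ≤ W * ∑ k ∈ s, f k ^ 2 / d k := by
    intro f
    have h := sq_sum_div_le_sum_sq_div s f hd
    rw [div_le_iff₀ hWp] at h
    linarith
  have h1 := key t
  have h2 := key fun k => t k ^ 2 / d k
  have h3 := key fun k => t k ^ 4 / d k ^ 3
  have e2 : ∑ k ∈ s, (t k ^ 2 / d k) ^ 2 / d k = ∑ k ∈ s, t k ^ 4 / d k ^ 3 := by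
    refine sum_congr rfl fun k hk => ?_
    have := hd k hk
    field_simp
  have e3 : ∑ k ∈ s, (t k ^ 4 / d k ^ 3) ^ 2 / d k = ∑ k ∈ s, t k ^ 8 / d k ^ 7 := by
    refine sum_congr rfl fun k hk => ?_
    have := hd k hk
    field_simp
  rw [e2] at h2
  rw [e3] at h3
  have n1 : 0 ≤ ∑ k ∈ s, t k ^ 2 / d k := sum_nonneg fun k hk => by have := hd k hk; positivity
  have n2 : 0 ≤ ∑ k ∈ s, t k ^ 4 / d k ^ 3 := sum_nonneg fun k hk => by have := hd k hk; positivity
  calc (∑ k ∈ s, t k) ^ 8 = ((∑ k ∈ s, t k) ^ 2) ^ 4 := by ring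
    _ ≤ (W * ∑ k ∈ s, t k ^ 2 / d k) ^ 4 := pow_le_pow_left₀ (sq_nonneg _) h1 4
    _ = W ^ 4 * ((∑ k ∈ s, t k ^ 2 / d k) ^ 2) ^ 2 := by ring
    _ ≤ W ^ 4 * (W * ∑ k ∈ s, t k ^ 4 / d k ^ 3) ^ 2 :=
        mul_le_mul_of_nonneg_left (pow_le_pow_left₀ (sq_nonneg _) h2 2) (by positivity)
    _ = W ^ 6 * (∑ k ∈ s, t k ^ 4 / d k ^ 3) ^ 2 := by ring
    _ ≤ W ^ 6 * (W * ∑ k ∈ s, t k ^ 8 / d k ^ 7) :=
        mul_le_mul_of_nonneg_left h3 (by positivity)
    _ = W ^ 7 * ∑ k ∈ s, t k ^ 8 / d k ^ 7 := by ring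

/-- the martingale of the layer `k` -/
theorem m2_mar {e β : ℕ → Q n → ℝ} (h : Mar n e β) (g : ℝ) (k : ℕ) :
    Mar n (fun i x => e i x * finX β g k i x) fun i x => β i x * finX β g k i x where
  od i x := by
    show e i (fl i x) * finX β g k i (fl i x) = -(e i x * finX β g k i x)
    rw [h.od i x, finX_inv h.pb g k i i le_rfl x]
    ring
  inv i l hl x := by
    show e i (fl l x) * finX β g k i (fl l x) = e i x * finX β g k i x
    rw [h.inv i l hl x, finX_inv h.pb g k i l (by omega) x]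
  pb i l hl x := by
    show β i (fl l x) * finX β g k i (fl l x) = β i x * finX β g k i x
    rw [h.pb i l hl x, finX_inv h.pb g k i l hl x]
  nb i x := mul_nonneg (h.nb i x) (finX_nonneg β g k i x)
  dom i x := by
    show |e i x * finX β g k i x| ≤ β i x * finX β g k i x
    rw [abs_mul, abs_of_nonneg (finX_nonneg β g k i x)]
    exact mul_le_mul_of_nonneg_right (h.dom i x) (finX_nonneg β g k i x)
  zb i hi x := by
    show β i x * finX β g k i x = 0
    rw [h.zb i hi x, zero_mul]

theorem mod2 (h0 : SModL) : SMod2 := by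
  obtain ⟨K, hK, hm⟩ := h0
  refine ⟨102960 * (16 * (K * 2)), by positivity, fun n e β h => ?_⟩
  obtain ⟨g, hg, L, hL⟩ := fin_choose β
  set B : Q n → ℝ := fun x => ∑ i ∈ range n, β i x ^ 2 with hB
  have hB0 : ∀ x, 0 ≤ B x := fun x => sum_nonneg fun _ _ => sq_nonneg _
  have hch : ∀ k : ℕ, ∃ Z : Q n → ℝ, (∀ x, 0 ≤ Z x) ∧
      av Z ≤ K * av (fun x => if ∃ i, β i x * finX β g k i x ≠ 0 then (1 : ℝ) else 0) ∧
      ∀ x s t, s ≤ t → (∑ i ∈ Ico s t, e i x * finX β g k i x) ^ 8 ≤
        Z x * (∑ i ∈ Ico s t, (β i x * finX β g k i x) ^ 2) ^ 2 := fun k =>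
    hm n (fun i x => e i x * finX β g k i x) (fun i x => β i x * finX β g k i x)
      (m2_mar h g k) (fun x => finX_sum β hg k x)
  choose Z hZ0 hZ1 hZ2 using hch
  have hU : ∀ k x, (∃ i, β i x * finX β g k i x ≠ 0) → finLev g k ^ 4 < B x := by
    rintro k x ⟨i, hi⟩
    have hin : i < n := by
      by_contra hc
      push Not at hc
      exact hi (by rw [h.zb i hc x, zero_mul])
    exact finX_ne β g hin (right_ne_zero_of_mul hi)
  have hZ3 : ∀ k, av (Z k) ≤ K * av (finU B g k) := by
    intro k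
    refine (hZ1 k).trans (mul_le_mul_of_nonneg_left (av_mono fun x => ?_) hK)
    by_cases hx : ∃ i, β i x * finX β g k i x ≠ 0
    · rw [if_pos hx]
      unfold finU
      rw [if_pos (hU k x hx)]
    · rw [if_neg hx]
      exact finU_nonneg _ _ _ _
  refine ⟨fun x => 102960 * ∑ k ∈ range L, finLev g (k + 1) ^ 4 * Z k x, fun x => ?_, ?_, ?_⟩
  · refine mul_nonneg (by norm_num) (sum_nonneg fun k _ => mul_nonneg ?_ (hZ0 k x))
    have := finLev_pos hg (k + 1)
    positivity
  · rw [av_mul_left, av_sum]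
    have e1 : ∀ k, av (fun x => finLev g (k + 1) ^ 4 * Z k x) ≤
        16 * (K * (finLev g k ^ 4 * av (finU B g k))) := by
      intro k
      rw [av_mul_left, finLev_succ]
      have h1 := finLev_pos hg k
      have h2 := mul_le_mul_of_nonneg_left (hZ3 k) (show 0 ≤ (2 * finLev g k) ^ 4 by positivity)
      refine h2.trans (le_of_eq ?_)
      ring
    have e2 : ∑ k ∈ range L, finLev g k ^ 4 * av (finU B g k) ≤ 2 * av B := by
      have e3 : ∑ k ∈ range L, finLev g k ^ 4 * av (finU B g k) =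
          av fun x => ∑ k ∈ range L, finLev g k ^ 4 * finU B g k x := by
        rw [av_sum]
        exact sum_congr rfl fun k _ => (av_mul_left _ _).symm
      rw [e3, ← av_mul_left]
      refine av_mono fun x => ?_
      set z : ℝ := √(√(B x)) with hz
      have hz0 : 0 ≤ z := Real.sqrt_nonneg _
      have hz4 : B x = z ^ 4 := by
        have : z ^ 4 = (z ^ 2) ^ 2 := by ring
        rw [this, hz, Real.sq_sqrt (Real.sqrt_nonneg _), Real.sq_sqrt (hB0 x)]
      have := fin_pw B hg x hz0 hz4 4 (by norm_num) L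
      rw [← hz4] at this
      exact this
    calc 102960 * ∑ k ∈ range L, av (fun x => finLev g (k + 1) ^ 4 * Z k x)
        ≤ 102960 * ∑ k ∈ range L, 16 * (K * (finLev g k ^ 4 * av (finU B g k))) :=
          mul_le_mul_of_nonneg_left (sum_le_sum fun k _ => e1 k) (by norm_num)
      _ = 102960 * (16 * (K * ∑ k ∈ range L, finLev g k ^ 4 * av (finU B g k))) := by
          rw [← mul_sum, ← mul_sum]
      _ ≤ 102960 * (16 * (K * (2 * av B))) := by
          refine mul_le_mul_of_nonneg_left (mul_le_mul_of_nonneg_left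
            (mul_le_mul_of_nonneg_left e2 hK) (by norm_num)) (by norm_num)
      _ = 102960 * (16 * (K * 2)) * av B := by ring
  · intro x s t hst
    show (∑ i ∈ Ico s t, e i x) ^ 8 ≤ (102960 * ∑ k ∈ range L, finLev g (k + 1) ^ 4 * Z k x) *
      B x * (∑ i ∈ Ico s t, β i x ^ 2) ^ 2
    set E : ℝ := ∑ i ∈ Ico s t, β i x ^ 2 with hE
    have hE0 : 0 ≤ E := sum_nonneg fun _ _ => sq_nonneg _
    set z : ℝ := √(√(B x)) with hz
    have hz0 : 0 ≤ z := Real.sqrt_nonneg _
    have hz4 : B x = z ^ 4 := by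
      have : z ^ 4 = (z ^ 2) ^ 2 := by ring
      rw [this, hz, Real.sq_sqrt (Real.sqrt_nonneg _), Real.sq_sqrt (hB0 x)]
    -- the increments of the layers
    set T : ℕ → ℝ := fun k => finLev g (k + 1) ^ 2 * ∑ i ∈ Ico s t, e i x * finX β g k i x with hT
    have hsum : ∑ i ∈ Ico s t, e i x = ∑ k ∈ range L, T k := by
      simp only [hT, mul_sum]
      rw [sum_comm]
      refine sum_congr rfl fun i _ => ?_
      by_cases hb : β i x = 0
      · have he : e i x = 0 := by
          have := h.dom i x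
          rw [hb] at this
          exact abs_eq_zero.1 (le_antisymm this (abs_nonneg _))
        rw [he]
        simp
      · have hin : i < n := by
          by_contra hc
          push Not at hc
          exact hb (h.zb i hc x)
        have h1 := hL x i hin hb
        calc e i x = e i x * ∑ k ∈ range L, finLev g (k + 1) ^ 2 * finX β g k i x := by
              rw [h1, mul_one]
          _ = ∑ k ∈ range L, finLev g (k + 1) ^ 2 * (e i x * finX β g k i x) := by
              rw [mul_sum]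
              exact sum_congr rfl fun k _ => by ring
    have hT8 : ∀ k, T k ^ 8 ≤ finLev g (k + 1) ^ 8 * Z k x * E ^ 2 := by
      intro k
      have hc := finLev_pos hg (k + 1)
      have h1 := hZ2 k x s t hst
      have h2 : finLev g (k + 1) ^ 4 * ∑ i ∈ Ico s t, (β i x * finX β g k i x) ^ 2 ≤ E := by
        rw [mul_sum]
        refine sum_le_sum fun i _ => ?_
        unfold finX
        split_ifs with ha
        · apply le_of_eq
          field_simp
        · rw [mul_zero, zero_pow two_ne_zero, mul_zero]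
          positivity
      have h3 : 0 ≤ ∑ i ∈ Ico s t, (β i x * finX β g k i x) ^ 2 :=
        sum_nonneg fun _ _ => sq_nonneg _
      have h4 : (finLev g (k + 1) ^ 4 * ∑ i ∈ Ico s t, (β i x * finX β g k i x) ^ 2) ^ 2 ≤ E ^ 2 :=
        pow_le_pow_left₀ (by positivity) h2 2
      calc T k ^ 8 = finLev g (k + 1) ^ 16 * (∑ i ∈ Ico s t, e i x * finX β g k i x) ^ 8 := by
            simp only [hT]; ring
        _ ≤ finLev g (k + 1) ^ 16 *
            (Z k x * (∑ i ∈ Ico s t, (β i x * finX β g k i x) ^ 2) ^ 2) :=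
            mul_le_mul_of_nonneg_left h1 (by positivity)
        _ = finLev g (k + 1) ^ 8 * Z k x *
            (finLev g (k + 1) ^ 4 * ∑ i ∈ Ico s t, (β i x * finX β g k i x) ^ 2) ^ 2 := by ring
        _ ≤ finLev g (k + 1) ^ 8 * Z k x * E ^ 2 :=
            mul_le_mul_of_nonneg_left h4 (mul_nonneg (by positivity) (hZ0 k x))
    have hT0 : ∀ k, ¬finLev g k ^ 4 < B x → T k = 0 := by
      intro k hk
      have h1 : ∀ i ∈ Ico s t, e i x * finX β g k i x = 0 := by
        intro i _
        have h2 : β i x * finX β g k i x = 0 := by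
          by_contra hc
          exact hk (hU k x ⟨i, hc⟩)
        rcases mul_eq_zero.1 h2 with h3 | h3
        · have := h.dom i x
          rw [h3] at this
          rw [abs_eq_zero.1 (le_antisymm this (abs_nonneg _)), zero_mul]
        · rw [h3, mul_zero]
      simp only [hT]
      rw [sum_eq_zero h1, mul_zero]
    -- weights
    set d : ℕ → ℝ := fun k => √(finLev g (k + 1)) with hd
    have hdp : ∀ k, 0 < d k := fun k => Real.sqrt_pos.2 (finLev_pos hg (k + 1))
    have hd2 : ∀ k, d k ^ 2 = finLev g (k + 1) := fun k =>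
      Real.sq_sqrt (finLev_pos hg (k + 1)).le
    set v : ℝ := √(2 * z) with hv
    have hv0 : 0 ≤ v := Real.sqrt_nonneg _
    have hv2 : v ^ 2 = 2 * z := Real.sq_sqrt (by positivity)
    have hdv : ∀ k, finLev g k ^ 4 < B x → d k ≤ v := by
      intro k hk
      rw [hz4] at hk
      have h1 : finLev g k < z := lt_of_pow_lt_pow_left₀ 4 hz0 hk
      refine Real.sqrt_le_sqrt ?_
      rw [finLev_succ]
      linarith
    set S : Finset ℕ := (range L).filter fun k => finLev g k ^ 4 < B x with hS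
    have hsS : ∑ k ∈ range L, T k = ∑ k ∈ S, T k := by
      rw [hS, sum_filter]
      refine sum_congr rfl fun k _ => ?_
      split_ifs with hk
      · rfl
      · exact hT0 k hk
    have hdS : ∑ k ∈ S, d k ≤ 7 / 2 * v := by
      rw [hS, sum_filter]
      refine (m2_geo d (fun k => finLev g k ^ 4 < B x) v (fun k => (hdp k).le) (fun k => ?_) hv0
        hdv L).2
      have h1 : (7 / 5 * d k) ^ 2 ≤ d (k + 1) ^ 2 := by
        rw [mul_pow, hd2, hd2, finLev_succ g (k + 1)]
        have := finLev_pos hg (k + 1)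
        nlinarith
      exact (pow_le_pow_iff_left₀ (mul_nonneg (by norm_num) (hdp k).le) (hdp (k + 1)).le
        two_ne_zero).1 h1
    have hS0 : 0 ≤ ∑ k ∈ S, d k := sum_nonneg fun k _ => (hdp k).le
    have hmain := m2_cs S d T fun k _ => hdp k
    have hterm : ∀ k ∈ S, T k ^ 8 / d k ^ 7 ≤ v * (finLev g (k + 1) ^ 4 * Z k x) * E ^ 2 := by
      intro k hk
      have hk' : finLev g k ^ 4 < B x := (mem_filter.1 hk).2
      have h1 := hdp k
      rw [div_le_iff₀ (by positivity)]
      refine (hT8 k).trans ?_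
      have h2 : finLev g (k + 1) ^ 8 = d k * d k ^ 7 * finLev g (k + 1) ^ 4 := by
        rw [← hd2]; ring
      rw [h2]
      have h3 : 0 ≤ d k ^ 7 * finLev g (k + 1) ^ 4 * Z k x * E ^ 2 := by
        have := finLev_pos hg (k + 1)
        have := hZ0 k x
        positivity
      have h4 := mul_le_mul_of_nonneg_right (hdv k hk') h3
      nlinarith [h4]
    have hsum2 : ∑ k ∈ S, T k ^ 8 / d k ^ 7 ≤
        v * (∑ k ∈ range L, finLev g (k + 1) ^ 4 * Z k x) * E ^ 2 := by
      refine (sum_le_sum hterm).trans ?_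
      rw [← sum_mul, ← mul_sum]
      refine mul_le_mul_of_nonneg_right (mul_le_mul_of_nonneg_left ?_ hv0) (by positivity)
      refine sum_le_sum_of_subset_of_nonneg (filter_subset _ _) fun k _ _ => ?_
      have := finLev_pos hg (k + 1)
      have := hZ0 k x
      positivity
    have hR0 : 0 ≤ v * (∑ k ∈ range L, finLev g (k + 1) ^ 4 * Z k x) * E ^ 2 := by
      refine mul_nonneg (mul_nonneg hv0 (sum_nonneg fun k _ => ?_)) (by positivity)
      have := finLev_pos hg (k + 1)
      have := hZ0 k x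
      positivity
    rw [hsum, hsS]
    calc (∑ k ∈ S, T k) ^ 8 ≤ (∑ k ∈ S, d k) ^ 7 * ∑ k ∈ S, T k ^ 8 / d k ^ 7 := hmain
      _ ≤ (7 / 2 * v) ^ 7 * (v * (∑ k ∈ range L, finLev g (k + 1) ^ 4 * Z k x) * E ^ 2) :=
          (mul_le_mul_of_nonneg_left hsum2 (by positivity)).trans
            (mul_le_mul_of_nonneg_right (pow_le_pow_left₀ hS0 hdS 7) hR0)
      _ = (7 / 2) ^ 7 * (v ^ 2) ^ 4 * (∑ k ∈ range L, finLev g (k + 1) ^ 4 * Z k x) * E ^ 2 := by
          ring
      _ ≤ (102960 * ∑ k ∈ range L, finLev g (k + 1) ^ 4 * Z k x) * B x * E ^ 2 := by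
          rw [hv2, hz4]
          have h5 : 0 ≤ (∑ k ∈ range L, finLev g (k + 1) ^ 4 * Z k x) * z ^ 4 * E ^ 2 := by
            refine mul_nonneg (mul_nonneg (sum_nonneg fun k _ => ?_) (by positivity)) (by positivity)
            have := finLev_pos hg (k + 1)
            have := hZ0 k x
            positivity
          nlinarith [h5]

end Pool.Agent.H79.RU
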