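import Pool.Agent.H79.RU.Stm
import Pool.Agent.H79.RT.Loc

/-!
# MP_a7284e_an, project RU: row RU1, the modulus of continuity, localised
-/

set_option autoImplicit false

namespace Pool.Agent.H79.RU

open Finset Classical
open Pool.Agent.H79.RT

/-- the canonical modulus of continuity of two sequences -/
noncomputable def mlZ (n : ℕ) (e b : ℕ → ℝ) : ℝ :=
  (range (n + 1) ×ˢ range (n + 1)).sup' ⟨(0, 0), by simp⟩ fun p =>
    (∑ i ∈ Ico p.1 p.2, e i) ^ 8 / (∑ i ∈ Ico p.1 p.2, b i ^ 2) ^ 2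

theorem mlZ_ge (n : ℕ) (e b : ℕ → ℝ) {s t : ℕ} (hs : s ≤ n) (ht : t ≤ n) :
    (∑ i ∈ Ico s t, e i) ^ 8 / (∑ i ∈ Ico s t, b i ^ 2) ^ 2 ≤ mlZ n e b :=
  le_sup' (fun p : ℕ × ℕ => (∑ i ∈ Ico p.1 p.2, e i) ^ 8 / (∑ i ∈ Ico p.1 p.2, b i ^ 2) ^ 2)
    (mem_product.2 ⟨mem_range.2 (Nat.lt_succ_of_le hs), mem_range.2 (Nat.lt_succ_of_le ht)⟩ :
      ((s, t) : ℕ × ℕ) ∈ range (n + 1) ×ˢ range (n + 1))

theorem mlZ_nonneg (n : ℕ) (e b : ℕ → ℝ) : 0 ≤ mlZ n e b := by
  have h := mlZ_ge n e b (Nat.zero_le n) (Nat.zero_le n)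
  refine le_trans (le_of_eq ?_) h
  simp

theorem mlZ_le {n : ℕ} {e b : ℕ → ℝ} {Z : ℝ} (hZ : 0 ≤ Z)
    (h : ∀ s t, s ≤ t → (∑ i ∈ Ico s t, e i) ^ 8 ≤ Z * (∑ i ∈ Ico s t, b i ^ 2) ^ 2) :
    mlZ n e b ≤ Z := by
  refine sup'_le _ _ fun p _ => ?_
  rcases le_or_gt p.1 p.2 with hp | hp
  · exact div_le_of_le_mul₀ (by positivity) hZ (h p.1 p.2 hp)
  · rw [Ico_eq_empty_of_le hp.le]
    simpa using hZ

/-- the sums over `Ico s t` only see the indices below `n` -/
theorem ml_sum {n : ℕ} {f : ℕ → ℝ} (hf : ∀ i, n ≤ i → f i = 0) (s t : ℕ) :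
    ∑ i ∈ Ico s t, f i = ∑ i ∈ Ico (min s n) (min t n), f i := by
  symm
  refine sum_subset (fun i hi => ?_) fun i hi hi' => ?_
  · rw [mem_Ico] at hi ⊢
    omega
  · refine hf i ?_
    rw [mem_Ico] at hi hi'
    omega

theorem mlZ_spec {n : ℕ} {e b : ℕ → ℝ} (he : ∀ i, |e i| ≤ b i) (hb : ∀ i, n ≤ i → b i = 0)
    (s t : ℕ) : (∑ i ∈ Ico s t, e i) ^ 8 ≤ mlZ n e b * (∑ i ∈ Ico s t, b i ^ 2) ^ 2 := by
  have he0 : ∀ i, b i = 0 → e i = 0 := fun i hi => by
    have := he i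
    rw [hi] at this
    exact abs_nonpos_iff.1 this
  rw [ml_sum (n := n) (f := e) (fun i hi => he0 i (hb i hi)) s t,
    ml_sum (n := n) (f := fun i => b i ^ 2) (fun i hi => by rw [hb i hi]; norm_num) s t]
  have h1 := mlZ_ge n e b (min_le_right s n) (min_le_right t n)
  have h0 : 0 ≤ ∑ i ∈ Ico (min s n) (min t n), b i ^ 2 := sum_nonneg fun i _ => sq_nonneg _
  rcases h0.eq_or_lt with h2 | h2
  · have h3 := (sum_eq_zero_iff_of_nonneg fun i _ => sq_nonneg (b i)).1 h2.symm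
    have h4 : ∑ i ∈ Ico (min s n) (min t n), e i = 0 :=
      sum_eq_zero fun i hi => he0 i (pow_eq_zero_iff (two_ne_zero)|>.1 (h3 i hi))
    rw [h4, ← h2]
    norm_num
  · rwa [div_le_iff₀ (by positivity)] at h1

theorem ml_fst0 {n : ℕ} {e β : ℕ → Q n → ℝ} (h : Mar n e β) (i : ℕ) :
    Inv i fun x => fst0 n β x = i := by
  intro l hl x
  refine propext ?_
  show (fst0 n β (fl l x) = i) ↔ (fst0 n β x = i)
  rw [fst0_iff β h.zb, fst0_iff β h.zb]
  have h1 : ∀ k ≤ i, β k (fl l x) = β k x := fun k hk => h.pb k l (hk.trans hl) x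
  constructor
  · rintro ⟨a, b, c⟩
    exact ⟨a, fun k hk => by rw [← h1 k hk.le]; exact b k hk, fun hi => by
      rw [← h1 i le_rfl]; exact c hi⟩
  · rintro ⟨a, b, c⟩
    exact ⟨a, fun k hk => by rw [h1 k hk.le]; exact b k hk, fun hi => by
      rw [h1 i le_rfl]; exact c hi⟩

theorem ml_zero {n : ℕ} {e β : ℕ → Q n → ℝ} (h : Mar n e β) {i : ℕ} {x : Q n}
    (hi : β i x = 0) : e i x = 0 := by
  have := h.dom i x
  rw [hi] at this
  exact abs_nonpos_iff.1 this

/-- the martingale after the first index with a nonzero majorant, resampled -/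
theorem ml_mar {n : ℕ} {e β : ℕ → Q n → ℝ} (h : Mar n e β) (x : Q n) :
    Mar n (fun i x' => e i (mix (fst0 n β x) x x')) fun i x' => β i (mix (fst0 n β x) x x') := by
  set k := fst0 n β x with hk
  have hlow : ∀ i < k, ∀ x', β i (mix k x x') = 0 := by
    intro i hi x'
    rw [mix_lo hi.le (h.pb i)]
    exact fst0_lt hi
  refine ⟨?_, ?_, ?_, ?_, ?_, ?_⟩
  · intro i x'
    show e i (mix k x (fl i x')) = -e i (mix k x x')
    rcases lt_or_ge i k with hi | hi
    · rw [ml_zero h (hlow i hi _), ml_zero h (hlow i hi _), neg_zero]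
    · rw [mix_fl hi]
      exact h.od i _
  · intro i l hl x'
    show e i (mix k x (fl l x')) = e i (mix k x x')
    rcases lt_or_ge i k with hi | hi
    · rw [ml_zero h (hlow i hi _), ml_zero h (hlow i hi _)]
    · rw [mix_fl (by omega)]
      exact h.inv i l hl _
  · intro i l hl x'
    show β i (mix k x (fl l x')) = β i (mix k x x')
    rcases lt_or_ge i k with hi | hi
    · rw [hlow i hi, hlow i hi]
    · rw [mix_fl (hi.trans hl)]
      exact h.pb i l hl _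
  · intro i x'
    exact h.nb i _
  · intro i x'
    exact h.dom i _
  · intro i hi x'
    exact h.zb i hi _

/-- RU1: the modulus of continuity, localised -/
theorem modL (h : SMod) : SModL := by
  obtain ⟨K, hK, hm⟩ := h 4 (by norm_num)
  have key : ∀ (n : ℕ) (e β : ℕ → Q n → ℝ), Mar n e β → (∀ x, ∑ i ∈ range n, β i x ^ 2 ≤ 1) →
      av (fun x => mlZ n (fun i => e i x) fun i => β i x) ≤ K := by
    intro n e β hM hE
    obtain ⟨Z, hZ0, hZK, hZ⟩ := hm n e β hM hE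
    exact (av_mono fun x => mlZ_le (hZ0 x) fun s t hst => hZ x s t hst).trans hZK
  refine ⟨K, hK, fun n e β hM hE => ⟨fun x => mlZ n (fun i => e i x) fun i => β i x,
    fun x => mlZ_nonneg _ _ _, ?_, fun x s t _ =>
      mlZ_spec (fun i => hM.dom i x) (fun i hi => hM.zb i hi x) s t⟩⟩
  have h1 : av (fun x => mlZ n (fun i => e i x) fun i => β i x) =
      av fun x => av fun x' => mlZ n (fun i => e i (mix (fst0 n β x) x x'))
        fun i => β i (mix (fst0 n β x) x x') :=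
    res_all (fst0 n β) (fst0_le β hM.zb) (ml_fst0 hM)
      fun x => mlZ n (fun i => e i x) fun i => β i x
  rw [h1, ← av_mul_left]
  refine av_mono fun x => ?_
  by_cases hx : ∃ i, β i x ≠ 0
  · rw [if_pos hx, mul_one]
    exact key n _ _ (ml_mar hM x) fun x' => hE _
  · rw [if_neg hx, mul_zero]
    refine av_le_const fun x' => ?_
    have hk : fst0 n β x = n := by
      unfold fst0
      rw [dif_neg hx]
    rw [hk, mix_all le_rfl]
    refine mlZ_le le_rfl fun s t _ => ?_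
    have hz : ∑ i ∈ Ico s t, e i x = 0 := sum_eq_zero fun i _ =>
      ml_zero hM (by by_contra hc; exact hx ⟨i, hc⟩)
    rw [hz]
    norm_num

end Pool.Agent.H79.RU
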