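import Pool.Agent.H79.RU.Na

/-!
# MP_a7284e_an, project RU: the maximal inequality for a bounded clock
-/

set_option autoImplicit false

namespace Pool.Agent.H79.RU

open Finset Classical
open Pool.Agent.H79.RT

/-- U7: the maximal inequality for a bounded clock -/
theorem nn_spec (h1 : SNq) (h2 : SCh) (h3 : SLam) (h4 : SLink) : SN := by
  obtain ⟨K₀, hK₀, hK⟩ := h4
  intro q hq
  obtain ⟨θ, C, hθ, hC, hΛ⟩ := h3 q hq
  set δ : ℝ := 8 * ((2 : ℝ) ^ (-q)) ^ 3 with hδ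
  have hδ0 : 0 < δ := by positivity
  have hρ : (2 : ℝ) ^ (-q) < 1 / 2 := by
    have : (2 : ℝ) ^ (-q) < (2 : ℝ) ^ (-1 : ℝ) :=
      Real.rpow_lt_rpow_of_exponent_lt (by norm_num) (by linarith)
    rw [Real.rpow_neg_one] at this
    linarith
  have hδ1 : δ < 1 := by
    have h5 : ((2 : ℝ) ^ (-q)) ^ 3 < (1 / 2) ^ 3 :=
      pow_lt_pow_left₀ hρ (by positivity) (by norm_num)
    rw [hδ]
    linarith
  have root : ∀ t : ℝ, 0 < t → t < 1 → ∃ u : ℝ, 0 < u ∧ u < 1 ∧ u ^ 8 = t := by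
    intro t ht0 ht1
    refine ⟨t ^ (1 / 8 : ℝ), by positivity, Real.rpow_lt_one ht0.le ht1 (by norm_num), ?_⟩
    rw [← Real.rpow_natCast, ← Real.rpow_mul ht0.le]
    norm_num
  obtain ⟨u, hu0, hu1, hu⟩ := root (1 / θ) (by positivity) (by
    rw [div_lt_one (by linarith)]; exact hθ)
  obtain ⟨v, hv0, hv1, hv⟩ := root δ hδ0 hδ1
  set C₁ : ℝ := max C 1 with hC₁
  have hC₁0 : 0 ≤ C₁ := hC.trans (le_max_left C 1)
  set G : ℝ := (1 - u) * (1 - v) with hG
  have hG0 : 0 < G := mul_pos (by linarith) (by linarith)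
  refine ⟨128 + 128 * (C₁ ^ 3 * K₀ / G ^ 8), by positivity, fun n m D A hA hV => ?_⟩
  have hvk : ∀ x k, 0 ≤ vk q A x k := fun x k => nn_vk_nn h1 hq A x k
  have hVT : ∀ x, 0 ≤ VT q A x := fun x => sum_nonneg fun k _ => hvk x k
  have hav : 0 ≤ av (VT q A) := av_nonneg hVT
  rcases Nat.eq_zero_or_pos n with hn | hn
  · have h0 : ∀ x y, MX D x y ≤ 0 := fun x y => MX_le fun k _ => by
      unfold XS
      simp [hn]
    have h5 : (fun x => (av fun y => MX D x y ^ 2) ^ 4) = fun _ => (0 : ℝ) := by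
      funext x
      have h6 : (fun y => MX D x y ^ 2) = fun _ => (0 : ℝ) := by
        funext y
        rw [le_antisymm (h0 x y) (MX_nonneg D x y)]
        norm_num
      rw [h6, av_const]
      norm_num
    rw [h5, av_const]
    positivity
  rcases Nat.eq_zero_or_pos m with hm | hm
  · have h0 : ∀ x y, MX D x y ≤ 0 := fun x y => MX_le fun k _ => by
      unfold XS
      simp [hm]
    have h5 : (fun x => (av fun y => MX D x y ^ 2) ^ 4) = fun _ => (0 : ℝ) := by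
      funext x
      have h6 : (fun y => MX D x y ^ 2) = fun _ => (0 : ℝ) := by
        funext y
        rw [le_antisymm (h0 x y) (MX_nonneg D x y)]
        norm_num
      rw [h6, av_const]
      norm_num
    rw [h5, av_const]
    positivity
  -- the number of scales
  have hch : ∀ x : Q n, _ := fun x => h2 (n + m) (vk q A x) (hvk x) (hV x)
  choose _ _ hfst S₀ hS₀ using hch
  set S : ℕ := univ.sup S₀ with hSdef
  have hS : ∀ x, ∀ k < n + m, ∀ F : ℕ → ℝ, (∀ l < n + m, vk q A x l = 0 → F l = 0) →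
      ∑ l ∈ range (k + 1), F l = F 0 + ∑ s ∈ range S, ∑ l ∈ range (n + m),
        if Lk (vk q A x) s (fst (vk q A x) (s + 1) k) l then F l else 0 :=
    fun x => hS₀ x S (le_sup (f := S₀) (mem_univ x))
  obtain ⟨Λ, hΛ'⟩ := hΛ n m D A hA hV S
  -- the number of layers
  obtain ⟨B, hB1, hB⟩ : ∃ B : ℕ, 1 ≤ B ∧ ∀ x y, Λ m x y ≤ 2 ^ B := by
    have h5 : ∀ p : Q n × Q m, ∃ b : ℕ, Λ m p.1 p.2 ≤ 2 ^ b := fun p => by
      obtain ⟨b, hb⟩ := pow_unbounded_of_one_lt (Λ m p.1 p.2) (show (1 : ℝ) < 2 by norm_num)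
      exact ⟨b, hb.le⟩
    choose f hf using h5
    refine ⟨univ.sup f + 1, by omega, fun x y => (hf (x, y)).trans ?_⟩
    refine pow_le_pow_right₀ (by norm_num) ?_
    have := le_sup (f := f) (mem_univ (x, y))
    omega
  have hpt : ∀ x y, _ := fun x y => nn_pt h1 hq hA hn hm hB1 x y
    (fun j hj => (hΛ'.mono j m x y hj.le).trans (hB x y)) (hS x)
  choose κ hκ hκ2 using hpt
  set U : ℕ × ℕ → Q n → Q m → ℝ := fun a x y =>
    |dX q D A Λ a.1 (fst (vk q A x) (a.1 + 1) (κ x y)) a.2 x y| with hU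
  have hMX : ∀ x y, MX D x y ≤ |D 0 0 x y| + ∑ a ∈ range S ×ˢ range B, U a x y := by
    intro x y
    rw [sum_product]
    exact hκ2 x y
  have hU8 : ∀ a x y, U a x y ^ 8 ≤ ∑ c ∈ range (n + m), dX q D A Λ a.1 c a.2 x y ^ 8 := by
    intro a x y
    have h5 : fst (vk q A x) (a.1 + 1) (κ x y) < n + m :=
      (hfst x (a.1 + 1) (κ x y)).trans_lt (hκ x y)
    have h6 := single_le_sum (f := fun c => dX q D A Λ a.1 c a.2 x y ^ 8)
      (fun c _ => by positivity) (mem_range.2 h5)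
    rw [hU]
    simp only
    rw [show (8 : ℕ) = 2 * 4 by norm_num, pow_mul, sq_abs, ← pow_mul]
    exact h6
  have hUE : ∀ a x y, ¬nnE Λ a.2 x y → U a x y = 0 := by
    intro a x y hE
    rw [hU]
    simp only
    rw [abs_eq_zero]
    unfold dX
    refine sum_eq_zero fun j hj => sum_eq_zero fun i _ => ?_
    exact if_neg fun h5 => hE ⟨j, mem_range.1 hj, h5.1⟩
  -- one term
  have hone : ∀ a ∈ range S ×ˢ range B, av (fun x => (av fun y => U a x y ^ 2) ^ 4) ≤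
      C₁ ^ 3 * K₀ * (u ^ 8) ^ a.1 * (v ^ 8) ^ a.2 * av (VT q A) := by
    intro a ha
    rw [mem_product, mem_range, mem_range] at ha
    have h5 := hK q θ C hq hθ n m S D A Λ hA hV hΛ' a.1 ha.1 a.2
    have hρ0 : 0 < (2 : ℝ) ^ (-q) := by positivity
    have h6 : ∀ x, (av fun y => U a x y ^ 2) ^ 4 ≤ (C₁ * ((2 : ℝ) ^ (-q)) ^ a.2) ^ 3 *
        av fun y => ∑ c ∈ range (n + m), dX q D A Λ a.1 c a.2 x y ^ 8 := by
      intro x
      have h7 := nn_hol (U a x) (nnE Λ a.2 x) (hUE a x)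
      have h8 := nn_prob hq hC hV hΛ' a.2 x
      have h9 : 0 ≤ av fun y => if nnE Λ a.2 x y then (1 : ℝ) else 0 :=
        av_nonneg fun y => by split_ifs <;> norm_num
      have h10 : (av fun y => U a x y ^ 8) ≤
          av fun y => ∑ c ∈ range (n + m), dX q D A Λ a.1 c a.2 x y ^ 8 := av_mono (hU8 a x)
      have h11 : 0 ≤ av fun y => U a x y ^ 8 := av_nonneg fun y => by positivity
      refine h7.trans ?_
      rw [mul_comm]
      exact mul_le_mul (pow_le_pow_left₀ h9 h8 3) h10 h11 (by positivity)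
    calc av (fun x => (av fun y => U a x y ^ 2) ^ 4)
        ≤ av fun x => (C₁ * ((2 : ℝ) ^ (-q)) ^ a.2) ^ 3 *
          av fun y => ∑ c ∈ range (n + m), dX q D A Λ a.1 c a.2 x y ^ 8 := av_mono h6
      _ = (C₁ * ((2 : ℝ) ^ (-q)) ^ a.2) ^ 3 *
          av2 fun x y => ∑ c ∈ range (n + m), dX q D A Λ a.1 c a.2 x y ^ 8 := av_mul_left _ _
      _ ≤ (C₁ * ((2 : ℝ) ^ (-q)) ^ a.2) ^ 3 * (K₀ * 8 ^ a.2 / θ ^ a.1 * av (VT q A)) :=
          mul_le_mul_of_nonneg_left h5 (by positivity)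
      _ = _ := by
        rw [hu, hv, hδ, mul_pow, mul_pow (8 : ℝ), div_pow, one_pow, ← pow_mul, ← pow_mul,
          mul_comm a.2 3]
        ring
  -- the weights
  set w : ℕ × ℕ → ℝ := fun a => (1 - u) * (1 - v) * (u ^ a.1 * v ^ a.2) with hw
  have hw0 : ∀ a, 0 < w a := fun a => mul_pos hG0 (by positivity)
  have hw1 : ∑ a ∈ range S ×ˢ range B, w a ≤ 1 := nn_geo hu0 hu1 hv0 hv1 S B
  have hx : ∀ x, (av fun y => MX D x y ^ 2) ^ 4 ≤ 128 * VT q A x +
      128 * ∑ a ∈ range S ×ˢ range B, (av fun y => U a x y ^ 2) ^ 4 / w a ^ 7 := by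
    intro x
    have h5 := nn_wj (range S ×ˢ range B) w (fun a => U a x) (fun a _ => hw0 a) hw1
    set ρ : ℝ := av fun y => (∑ a ∈ range S ×ˢ range B, U a x y) ^ 2 with hρd
    set τ : ℝ := av fun y => D 0 0 x y ^ 2 with hτ
    have h6 : (av fun y => MX D x y ^ 2) ≤ 2 * (τ + ρ) := by
      calc (av fun y => MX D x y ^ 2)
          ≤ av fun y => 2 * (D 0 0 x y ^ 2 + (∑ a ∈ range S ×ˢ range B, U a x y) ^ 2) := by
            refine av_mono fun y => ?_
            have h7 := pow_le_pow_left₀ (MX_nonneg D x y) (hMX x y) 2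
            have h8 : |D 0 0 x y| ^ 2 = D 0 0 x y ^ 2 := sq_abs _
            nlinarith [sq_nonneg (|D 0 0 x y| - ∑ a ∈ range S ×ˢ range B, U a x y)]
        _ = _ := by rw [av_mul_left, av_add]
    have h7 : 0 ≤ av fun y => MX D x y ^ 2 := av_nonneg fun y => sq_nonneg _
    have hτ0 : 0 ≤ τ := av_nonneg fun y => sq_nonneg _
    have hρ0 : 0 ≤ ρ := av_nonneg fun y => sq_nonneg _
    have hτ1 : τ ≤ VT q A x := by
      have h8 : ∀ y, D 0 0 x y ^ 2 ≤ wk A 0 x y := by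
        intro y
        have h9 : wk A 0 x y = A 0 0 x y ^ 2 := by
          unfold wk
          rw [sum_eq_single_of_mem 0 (mem_range.2 hn) fun i _ hi => ?_,
            sum_eq_single_of_mem 0 (mem_range.2 hm) fun j _ hj => ?_]
          · rw [if_pos rfl]
          · exact if_neg (by omega)
          · exact sum_eq_zero fun j _ => if_neg (by omega)
        rw [h9]
        exact sq_le_sq' (by linarith [neg_le_of_abs_le (hA.dom 0 0 x y)])
          (le_of_abs_le (hA.dom 0 0 x y))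
      have h9 := ((h1 m q hq.le).1 (wk A 0 x) (nn_wk_nn 0 x)).2.1
      calc τ ≤ av (wk A 0 x) := av_mono h8
        _ ≤ vk q A x 0 := h9
        _ ≤ VT q A x := single_le_sum (f := vk q A x) (fun k _ => hvk x k)
            (mem_range.2 (by omega))
    have hτ2 : τ ^ 4 ≤ VT q A x := by
      have h8 : τ ≤ 1 := hτ1.trans (hV x).le
      calc τ ^ 4 ≤ τ ^ 1 := pow_le_pow_of_le_one hτ0 h8 (by norm_num)
        _ = τ := pow_one _
        _ ≤ _ := hτ1
    have h8 : (τ + ρ) ^ 4 ≤ 8 * (τ ^ 4 + ρ ^ 4) := by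
      have h9 : (τ + ρ) ^ 2 ≤ 2 * (τ ^ 2 + ρ ^ 2) := by nlinarith [sq_nonneg (τ - ρ)]
      calc (τ + ρ) ^ 4 = ((τ + ρ) ^ 2) ^ 2 := by ring
        _ ≤ (2 * (τ ^ 2 + ρ ^ 2)) ^ 2 := pow_le_pow_left₀ (sq_nonneg _) h9 2
        _ ≤ 8 * (τ ^ 4 + ρ ^ 4) := by nlinarith [sq_nonneg (τ ^ 2 - ρ ^ 2)]
    calc (av fun y => MX D x y ^ 2) ^ 4 ≤ (2 * (τ + ρ)) ^ 4 := pow_le_pow_left₀ h7 h6 4
      _ = 16 * (τ + ρ) ^ 4 := by ring
      _ ≤ 16 * (8 * (τ ^ 4 + ρ ^ 4)) := by linarith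
      _ ≤ _ := by linarith
  have hterm : ∀ a ∈ range S ×ˢ range B, av (fun x => (av fun y => U a x y ^ 2) ^ 4 / w a ^ 7) ≤
      C₁ ^ 3 * K₀ / G ^ 8 * av (VT q A) * w a := by
    intro a ha
    have h5 : (fun x => (av fun y => U a x y ^ 2) ^ 4 / w a ^ 7) =
        fun x => (av fun y => U a x y ^ 2) ^ 4 * (w a ^ 7)⁻¹ := by
      funext x
      rw [div_eq_mul_inv]
    have h6 : 0 ≤ (w a ^ 7)⁻¹ := inv_nonneg.2 (pow_nonneg (hw0 a).le 7)
    rw [h5, av_mul_right]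
    refine (mul_le_mul_of_nonneg_right (hone a ha) h6).trans (le_of_eq ?_)
    rw [hw]
    simp only
    rw [← hG]
    field_simp
    ring
  calc av (fun x => (av fun y => MX D x y ^ 2) ^ 4)
      ≤ av fun x => 128 * VT q A x +
        128 * ∑ a ∈ range S ×ˢ range B, (av fun y => U a x y ^ 2) ^ 4 / w a ^ 7 := av_mono hx
    _ = 128 * av (VT q A) + 128 * ∑ a ∈ range S ×ˢ range B,
        av (fun x => (av fun y => U a x y ^ 2) ^ 4 / w a ^ 7) := by
      rw [av_add, av_mul_left, av_mul_left, av_sum]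
    _ ≤ 128 * av (VT q A) + 128 * ∑ a ∈ range S ×ˢ range B,
        C₁ ^ 3 * K₀ / G ^ 8 * av (VT q A) * w a := by
      have := sum_le_sum hterm
      linarith
    _ = 128 * av (VT q A) + 128 * (C₁ ^ 3 * K₀ / G ^ 8 * av (VT q A) *
        ∑ a ∈ range S ×ˢ range B, w a) := by
      rw [← mul_sum (s := range S ×ˢ range B) (f := w)]
    _ ≤ 128 * av (VT q A) + 128 * (C₁ ^ 3 * K₀ / G ^ 8 * av (VT q A) * 1) := by
      have h5 : 0 ≤ C₁ ^ 3 * K₀ / G ^ 8 * av (VT q A) := by positivity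
      have := mul_le_mul_of_nonneg_left hw1 h5
      linarith
    _ = _ := by ring

end Pool.Agent.H79.RU
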