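import Pool.Agent.H79.RU.StmR
import Pool.Agent.H79.RT.All

/-!
# MP_a7284e_an, project RU, row P2: the clock on the plane in terms of Haar coefficients
-/

set_option autoImplicit false

namespace Pool.Agent.H79.RU

open MeasureTheory FourierTransform Filter Topology Finset Classical ENNReal
open Pool.Agent.H73.Hyp
open Pool.Agent.H79.RT

/-! ### integer parts -/

/-- integer parts at coarser scales -/
theorem nu_floor {j M : ℤ} (h : j ≤ M) (t : ℝ) :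
    ⌊(2 : ℝ) ^ j * ((⌊(2 : ℝ) ^ M * t⌋ : ℝ) * (2 : ℝ) ^ (-M))⌋ = ⌊(2 : ℝ) ^ j * t⌋ := by
  obtain ⟨n, rfl⟩ : ∃ n : ℕ, M = j + n := ⟨(M - j).toNat, by omega⟩
  have hj : (0 : ℝ) < (2 : ℝ) ^ j := by positivity
  have hn : (0 : ℝ) < (2 : ℝ) ^ n := by positivity
  have e1 : (2 : ℝ) ^ (j + (n : ℤ)) = (2 : ℝ) ^ j * (2 : ℝ) ^ n := by
    rw [zpow_add₀ (by norm_num), zpow_natCast]
  have e2 : (2 : ℝ) ^ (-(j + (n : ℤ))) = ((2 : ℝ) ^ j * (2 : ℝ) ^ n)⁻¹ := by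
    rw [zpow_neg, e1]
  rw [e1, e2]
  have hx' : (2 : ℝ) ^ j * (2 : ℝ) ^ n * t = (2 : ℝ) ^ j * t * (2 : ℝ) ^ n := by ring
  rw [hx']
  have h1 : (⌊(2 : ℝ) ^ j * t⌋ : ℝ) ≤ (2 : ℝ) ^ j * t := Int.floor_le _
  have h2 : (2 : ℝ) ^ j * t < (⌊(2 : ℝ) ^ j * t⌋ : ℝ) + 1 := Int.lt_floor_add_one _
  have h3 : ⌊(2 : ℝ) ^ j * t⌋ * 2 ^ n ≤ ⌊(2 : ℝ) ^ j * t * (2 : ℝ) ^ n⌋ := by
    rw [Int.le_floor]
    push_cast
    exact mul_le_mul_of_nonneg_right h1 hn.le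
  have h4 : ⌊(2 : ℝ) ^ j * t * (2 : ℝ) ^ n⌋ < (⌊(2 : ℝ) ^ j * t⌋ + 1) * 2 ^ n := by
    rw [Int.floor_lt]
    push_cast
    exact mul_lt_mul_of_pos_right h2 hn
  rw [Int.floor_eq_iff]
  have e3 : (2 : ℝ) ^ j * ((⌊(2 : ℝ) ^ j * t * (2 : ℝ) ^ n⌋ : ℝ) * ((2 : ℝ) ^ j * (2 : ℝ) ^ n)⁻¹) =
      (⌊(2 : ℝ) ^ j * t * (2 : ℝ) ^ n⌋ : ℝ) / 2 ^ n := by
    field_simp
  rw [e3]
  constructor
  · rw [le_div_iff₀ hn]
    exact_mod_cast h3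
  · rw [div_lt_iff₀ hn]
    exact_mod_cast h4

theorem nu_mfloor (l : ℤ) : Measurable fun t : ℝ => ⌊(2 : ℝ) ^ l * t⌋ :=
  Int.measurable_floor.comp (measurable_const.mul measurable_id)

/-- the integral of a function of the integer part -/
theorem nu_lint (l : ℤ) (φ : ℤ → ℝ≥0∞) :
    ∫⁻ t : ℝ, φ ⌊(2 : ℝ) ^ l * t⌋ = ∑' c : ℤ, ENNReal.ofReal ((2 : ℝ) ^ (-l)) * φ c := by
  have hp : (0 : ℝ) < (2 : ℝ) ^ l := by positivity
  have h1 : ∫⁻ t : ℝ, φ ⌊(2 : ℝ) ^ l * t⌋ =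
      ∫⁻ u : ℝ, φ ⌊u⌋ ∂(Measure.map (fun t : ℝ => (2 : ℝ) ^ l * t) volume) := by
    have hm : Measurable fun u : ℝ => φ ⌊u⌋ :=
      (measurable_from_top (f := φ)).comp Int.measurable_floor
    have hg : Measurable fun t : ℝ => (2 : ℝ) ^ l * t := measurable_const.mul measurable_id
    exact (lintegral_map hm hg).symm
  rw [h1, Real.map_volume_mul_left hp.ne', lintegral_smul_measure,
    mxd_floor.lintegral_comp (measurable_from_top (f := φ)), lintegral_count, smul_eq_mul,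
    ENNReal.tsum_mul_left, abs_of_pos (inv_pos.2 hp), zpow_neg]

/-! ### the flips of the second coordinate -/

theorem nu_yf0 (l₀ : ℤ) {m : ℕ} (h : Q m) (z : E2) : (yf l₀ h z) 0 = z 0 :=
  trob_inv (τ := fun j : ℕ => H73.Hyp.fl 1 (l₀ + j)) (F := fun z : E2 => z 0)
    (fun _ _ => fl_ne (by decide) _ _) _ _ _

theorem nu_yf_mp (l₀ : ℤ) {m : ℕ} (h : Q m) :
    MeasurePreserving (yf l₀ h) (volume : Measure E2) volume :=
  trob_mp (fun _ => mp_fl 1 _) _ _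

/-! ### the energies in terms of Haar coefficients -/

/-- the energy of the level `k` in terms of Haar coefficients -/
noncomputable def nuE (L L' : ℕ) (f : L2) (k : ℤ) (s t : ℝ) : ℝ :=
  ∑ i ∈ range (2 * L), ∑ j ∈ range (2 * L'),
    if ((i : ℤ) - L) + ((j : ℤ) - L') = k then (2 : ℝ) ^ k *
      ‖cf f ((i : ℤ) - L, ⌊(2 : ℝ) ^ ((i : ℤ) - L) * s⌋)
        ((j : ℤ) - L', ⌊(2 : ℝ) ^ ((j : ℤ) - L') * t⌋)‖ ^ 2 else 0

theorem nuE_nonneg (L L' : ℕ) (f : L2) (k : ℤ) (s t : ℝ) : 0 ≤ nuE L L' f k s t := by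
  unfold nuE
  refine sum_nonneg fun i _ => sum_nonneg fun j _ => ?_
  split_ifs
  · positivity
  · exact le_rfl

theorem nu_half (i : ℤ) : ((2 : ℝ) ^ ((i : ℝ) / 2)) ^ 2 = (2 : ℝ) ^ i := by
  rw [← Real.rpow_natCast, ← Real.rpow_mul (by norm_num), ← Real.rpow_intCast]
  congr 1
  push_cast
  ring

theorem nu_bb (f : L2) (L L' : ℕ) : ∀ᵐ z : E2, ∀ i j : ℕ, ‖bb L L' f i j z‖ ^ 2 =
    (2 : ℝ) ^ ((i : ℤ) - L) * (2 : ℝ) ^ ((j : ℤ) - L') *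
      ‖cf f ((i : ℤ) - L, ⌊(2 : ℝ) ^ ((i : ℤ) - L) * z 0⌋)
        ((j : ℤ) - L', ⌊(2 : ℝ) ^ ((j : ℤ) - L') * z 1⌋)‖ ^ 2 := by
  refine ae_all_iff.2 fun i => ae_all_iff.2 fun j => ?_
  filter_upwards [haar_all f ((i : ℤ) - L) ((j : ℤ) - L')] with z hz
  unfold bb
  rw [hz, mul_pow, mul_pow, nu_half, nu_half]

theorem nu_Wz (f : L2) (L L' : ℕ) :
    ∀ᵐ z : E2, ∀ k : ℤ, Wz L L' f k z = nuE L L' f k (z 0) (z 1) := by
  filter_upwards [nu_bb f L L'] with z hz k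
  unfold Wz nuE
  refine sum_congr rfl fun i _ => sum_congr rfl fun j _ => ?_
  by_cases h : ((i : ℤ) - L) + ((j : ℤ) - L') = k
  · rw [if_pos h, if_pos h, hz i j, ← zpow_add₀ (by norm_num), h]
  · rw [if_neg h, if_neg h]

theorem nu_Wy (f : L2) (L L' : ℕ) (l₀ : ℤ) (m : ℕ) : ∀ᵐ z : E2, ∀ (h : Q m) (k : ℤ),
    Wz L L' f k (yf l₀ h z) = nuE L L' f k (z 0) ((yf l₀ h z) 1) := by
  refine ae_all_iff.2 fun h => ?_
  filter_upwards [(nu_yf_mp l₀ h).quasiMeasurePreserving.ae (nu_Wz f L L')] with z hz k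
  rw [hz k, nu_yf0]

theorem nuE_floor (L L' : ℕ) (f : L2) (k : ℤ) (s t : ℝ) {M : ℤ} (hM : (L' : ℤ) ≤ M) :
    nuE L L' f k s ((⌊(2 : ℝ) ^ M * t⌋ : ℝ) * (2 : ℝ) ^ (-M)) = nuE L L' f k s t := by
  unfold nuE
  refine sum_congr rfl fun i _ => sum_congr rfl fun j hj => ?_
  rw [mem_range] at hj
  rw [nu_floor (by omega)]

theorem nuE_le {L L' : ℕ} {f : L2} {l₀ : ℤ} (hLo : Lo f l₀) (k : ℤ) (s t : ℝ) :
    ENNReal.ofReal (nuE L L' f k s t) ≤ shW f l₀ k s t := by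
  unfold nuE shW
  rw [ENNReal.ofReal_sum_of_nonneg fun i _ => sum_nonneg fun j _ => by
    split_ifs
    · positivity
    · exact le_rfl]
  have h3 := ENNReal.sum_le_tsum (f := fun i : ℤ => if l₀ ≤ k - i then ENNReal.ofReal ((2 : ℝ) ^ k *
    ‖cf f (i, ⌊(2 : ℝ) ^ i * s⌋) (k - i, ⌊(2 : ℝ) ^ (k - i) * t⌋)‖ ^ 2) else 0)
    ((range (2 * L)).image fun i : ℕ => (i : ℤ) - L)
  rw [sum_image (fun x _ y _ hxy => by
    have h' : (x : ℤ) - L = (y : ℤ) - L := hxy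
    omega)] at h3
  refine le_trans (sum_le_sum fun i _ => ?_) h3
  have key : (∑ j ∈ range (2 * L'), if ((i : ℤ) - L) + ((j : ℤ) - L') = k then (2 : ℝ) ^ k *
      ‖cf f ((i : ℤ) - L, ⌊(2 : ℝ) ^ ((i : ℤ) - L) * s⌋)
        ((j : ℤ) - L', ⌊(2 : ℝ) ^ ((j : ℤ) - L') * t⌋)‖ ^ 2 else 0) ≤
      (2 : ℝ) ^ k * ‖cf f ((i : ℤ) - L, ⌊(2 : ℝ) ^ ((i : ℤ) - L) * s⌋)
        (k - ((i : ℤ) - L), ⌊(2 : ℝ) ^ (k - ((i : ℤ) - L)) * t⌋)‖ ^ 2 := by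
    by_cases hj : ∃ j ∈ range (2 * L'), ((i : ℤ) - L) + (((j : ℕ) : ℤ) - L') = k
    · obtain ⟨j0, hj0, hk⟩ := hj
      rw [sum_eq_single_of_mem j0 hj0 fun j _ hne => by
        rw [if_neg]
        intro h'
        exact hne (by omega), if_pos hk]
      have e : ((j0 : ℕ) : ℤ) - L' = k - ((i : ℤ) - L) := by omega
      rw [e]
    · push Not at hj
      rw [sum_eq_zero fun j hj' => if_neg (hj j hj')]
      positivity
  refine (ENNReal.ofReal_le_ofReal key).trans ?_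
  by_cases h : l₀ ≤ k - ((i : ℤ) - L)
  · rw [if_pos h]
  · rw [if_neg h, hLo _ _ (by push Not at h; exact h)]
    simp

/-! ### the bound at a point -/

/-- the normalised `L^q` norm over a dyadic interval -/
noncomputable def nuR (q : ℝ) (f : L2) (l₀ k : ℤ) (s : ℝ) (c : ℤ) : ℝ≥0∞ :=
  (ENNReal.ofReal ((2 : ℝ) ^ l₀) *
      ∫⁻ t in Set.Ico ((c : ℝ) * (2 : ℝ) ^ (-l₀)) (((c : ℝ) + 1) * (2 : ℝ) ^ (-l₀)),
        shW f l₀ k s t ^ q) ^ (1 / q)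

theorem nu_pt (h1 : SFlipAv) {q : ℝ} (hq : 1 < q) {l₀ : ℤ} {f : L2} (hLo : Lo f l₀) (L L' : ℕ) :
    ∀ᵐ z : E2, ∀ k : ℤ,
      ENNReal.ofReal (nq q fun h : Q (Int.toNat ((L' : ℤ) - l₀)) => Wz L L' f k (yf l₀ h z)) ≤
        nuR q f l₀ k (z 0) ⌊(2 : ℝ) ^ l₀ * z 1⌋ := by
  have hq0 : 0 < q := by linarith
  filter_upwards [nu_Wy f L L' l₀ (Int.toNat ((L' : ℤ) - l₀))] with z hz k
  have hM : (L' : ℤ) ≤ l₀ + ((Int.toNat ((L' : ℤ) - l₀) : ℕ) : ℤ) := by omega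
  set m := Int.toNat ((L' : ℤ) - l₀) with hm
  set g : ℤ → ℝ := fun c => (nuE L L' f k (z 0) ((c : ℝ) * (2 : ℝ) ^ (-(l₀ + (m : ℤ))))) ^ q
    with hg
  have hg0 : ∀ c, 0 ≤ g c := fun c => Real.rpow_nonneg (nuE_nonneg _ _ _ _ _ _) _
  have hgt : ∀ t : ℝ, g ⌊(2 : ℝ) ^ (l₀ + (m : ℤ)) * t⌋ = (nuE L L' f k (z 0) t) ^ q := by
    intro t
    rw [hg]
    simp only
    rw [nuE_floor _ _ _ _ _ _ hM]
  have e1 : (fun h : Q m => (Wz L L' f k (yf l₀ h z)) ^ q) =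
      fun h : Q m => g ⌊(2 : ℝ) ^ (l₀ + (m : ℤ)) * (yf l₀ h z) 1⌋ := by
    funext h
    rw [hgt, hz h k]
  have hav : 0 ≤ av fun h : Q m => (Wz L L' f k (yf l₀ h z)) ^ q := by
    rw [e1]
    unfold av
    exact div_nonneg (sum_nonneg fun h _ => hg0 _) (by positivity)
  unfold nq
  rw [← ENNReal.ofReal_rpow_of_nonneg hav (by positivity)]
  unfold nuR
  refine ENNReal.rpow_le_rpow ?_ (by positivity)
  rw [e1, h1 l₀ m g z hg0]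
  refine mul_le_mul' le_rfl (lintegral_mono fun t => ?_)
  rw [hgt, ← ENNReal.ofReal_rpow_of_nonneg (nuE_nonneg _ _ _ _ _ _) hq0.le]
  exact ENNReal.rpow_le_rpow (nuE_le hLo _ _ _) hq0.le

/-! ### measurability -/

theorem nu_m2 (F : ℤ → ℤ → ℝ≥0∞) (i j : ℤ) :
    Measurable fun p : ℝ × ℝ => F ⌊(2 : ℝ) ^ i * p.1⌋ ⌊(2 : ℝ) ^ j * p.2⌋ := by
  have h2 : Measurable fun p : ℝ × ℝ => (⌊(2 : ℝ) ^ i * p.1⌋, ⌊(2 : ℝ) ^ j * p.2⌋) :=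
    ((nu_mfloor i).comp measurable_fst).prodMk ((nu_mfloor j).comp measurable_snd)
  have h3 : Measurable fun c : ℤ × ℤ => F c.1 c.2 := measurable_of_countable _
  exact h3.comp h2

theorem nu_shW_meas (f : L2) (l₀ k : ℤ) : Measurable fun p : ℝ × ℝ => shW f l₀ k p.1 p.2 := by
  generalize hG : (fun (i a b : ℤ) => if l₀ ≤ k - i then ENNReal.ofReal ((2 : ℝ) ^ k *
    ‖cf f (i, a) (k - i, b)‖ ^ 2) else 0) = G
  have e : (fun p : ℝ × ℝ => shW f l₀ k p.1 p.2) = fun p : ℝ × ℝ =>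
      ∑' i : ℤ, G i ⌊(2 : ℝ) ^ i * p.1⌋ ⌊(2 : ℝ) ^ (k - i) * p.2⌋ := by
    rw [← hG]
    rfl
  rw [e]
  exact Measurable.tsum fun i => nu_m2 (G i) i (k - i)

theorem nuR_meas (q : ℝ) (f : L2) (l₀ k c : ℤ) : Measurable fun s : ℝ => nuR q f l₀ k s c := by
  unfold nuR
  refine Measurable.pow_const ?_ _
  refine Measurable.const_mul ?_ _
  exact ((nu_shW_meas f l₀ k).pow_const q).lintegral_prod_right'

theorem nuR_meas2 (q : ℝ) (f : L2) (l₀ k : ℤ) :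
    Measurable fun p : ℝ × ℝ => nuR q f l₀ k p.1 ⌊(2 : ℝ) ^ l₀ * p.2⌋ := by
  have h1 : Measurable fun p : ℝ × ℤ => nuR q f l₀ k p.1 p.2 :=
    measurable_from_prod_countable_left fun c => nuR_meas q f l₀ k c
  have h2 : Measurable fun p : ℝ × ℝ => (p.1, ⌊(2 : ℝ) ^ l₀ * p.2⌋) :=
    measurable_fst.prodMk ((nu_mfloor l₀).comp measurable_snd)
  exact h1.comp h2

theorem nuR_lint (q : ℝ) (f : L2) (l₀ k : ℤ) :
    ∫⁻ z : E2, nuR q f l₀ k (z 0) ⌊(2 : ℝ) ^ l₀ * z 1⌋ =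
      ∑' c : ℤ, ∫⁻ s : ℝ, ENNReal.ofReal ((2 : ℝ) ^ (-l₀)) * nuR q f l₀ k s c := by
  have h1 := mxe_mp.lintegral_comp (nuR_meas2 q f l₀ k)
  have h2 : ∫⁻ z : E2, nuR q f l₀ k (z 0) ⌊(2 : ℝ) ^ l₀ * z 1⌋ =
      ∫⁻ p : ℝ × ℝ, nuR q f l₀ k p.1 ⌊(2 : ℝ) ^ l₀ * p.2⌋ := h1
  rw [h2]
  have h3 := lintegral_prod (μ := (volume : Measure ℝ)) (ν := (volume : Measure ℝ))
    (fun p : ℝ × ℝ => nuR q f l₀ k p.1 ⌊(2 : ℝ) ^ l₀ * p.2⌋) (nuR_meas2 q f l₀ k).aemeasurable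
  have h4 : ∫⁻ p : ℝ × ℝ, nuR q f l₀ k p.1 ⌊(2 : ℝ) ^ l₀ * p.2⌋ =
      ∫⁻ s : ℝ, ∫⁻ t : ℝ, nuR q f l₀ k s ⌊(2 : ℝ) ^ l₀ * t⌋ := h3
  rw [h4]
  simp only [nu_lint]
  exact lintegral_tsum fun c => ((nuR_meas q f l₀ k c).const_mul _).aemeasurable

theorem nu_shN (q : ℝ) (f : L2) (l₀ : ℤ) : shN q f l₀ =
    ∑' c : ℤ, ∑' k : ℤ, ∫⁻ s : ℝ, ENNReal.ofReal ((2 : ℝ) ^ (-l₀)) * nuR q f l₀ k s c := rfl

/-! ### the clock -/

theorem nu_Nz_meas (q : ℝ) (l₀ : ℤ) (L L' : ℕ) (f : L2) :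
    AEStronglyMeasurable (Nz q l₀ L L' f) volume := by
  have hW : ∀ k : ℤ, AEMeasurable (Wz L L' f k) volume := by
    intro k
    unfold Wz
    refine Finset.aemeasurable_fun_sum _ fun i _ => Finset.aemeasurable_fun_sum _ fun j _ => ?_
    split_ifs
    · exact ((Lp.aestronglyMeasurable (bb L L' f i j)).aemeasurable.norm).pow_const 2
    · exact aemeasurable_const
  refine AEMeasurable.aestronglyMeasurable ?_
  unfold Nz nq av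
  refine Finset.aemeasurable_fun_sum _ fun k _ => ?_
  refine AEMeasurable.pow_const ?_ _
  refine AEMeasurable.div_const ?_ _
  refine Finset.aemeasurable_fun_sum _ fun h _ => ?_
  refine AEMeasurable.pow_const ?_ _
  exact (hW k).comp_quasiMeasurePreserving (nu_yf_mp l₀ h).quasiMeasurePreserving

theorem nu_nq_nonneg {n : ℕ} (q : ℝ) {F : Q n → ℝ} (hF : ∀ x, 0 ≤ F x) : 0 ≤ nq q F := by
  unfold nq av
  exact Real.rpow_nonneg (div_nonneg (sum_nonneg fun x _ => Real.rpow_nonneg (hF x) _)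
    (by positivity)) _

theorem nu_Wz_nonneg (L L' : ℕ) (f : L2) (k : ℤ) (z : E2) : 0 ≤ Wz L L' f k z := by
  unfold Wz
  refine sum_nonneg fun i _ => sum_nonneg fun j _ => ?_
  split_ifs
  · exact sq_nonneg _
  · exact le_rfl

theorem nu_main (h1 : SFlipAv) {q : ℝ} (hq : 1 < q) {l₀ : ℤ} {f : L2} (hLo : Lo f l₀) (L L' : ℕ) :
    ∫⁻ z : E2, ENNReal.ofReal (Nz q l₀ L L' f z) ≤ shN q f l₀ := by
  have hstep : ∫⁻ z : E2, ENNReal.ofReal (Nz q l₀ L L' f z) ≤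
      ∫⁻ z : E2, ∑ k ∈ Icc (-((L : ℤ) + L')) ((L : ℤ) + L'),
        nuR q f l₀ k (z 0) ⌊(2 : ℝ) ^ l₀ * z 1⌋ := by
    refine lintegral_mono_ae ?_
    filter_upwards [nu_pt h1 hq hLo L L'] with z hz
    unfold Nz
    rw [ENNReal.ofReal_sum_of_nonneg fun k _ => nu_nq_nonneg q fun h => nu_Wz_nonneg _ _ _ _ _]
    exact sum_le_sum fun k _ => hz k
  refine hstep.trans ?_
  rw [lintegral_finsetSum _ fun k _ => by
    have := (nuR_meas2 q f l₀ k).comp mxe_mp.measurable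
    exact this]
  simp only [nuR_lint]
  refine (ENNReal.sum_le_tsum _).trans ?_
  rw [ENNReal.tsum_comm, nu_shN]

/-- P2 -/
theorem normU (h1 : SFlipAv) : SNormU := by
  intro q hq l₀ f B hB hLo hN L L'
  have hle := (nu_main h1 hq hLo L L').trans hN
  have hnn : ∀ z : E2, 0 ≤ Nz q l₀ L L' f z := fun z =>
    sum_nonneg fun k _ => nu_nq_nonneg q fun h => nu_Wz_nonneg _ _ _ _ _
  have hint : Integrable (Nz q l₀ L L' f) := by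
    refine ⟨nu_Nz_meas q l₀ L L' f, ?_⟩
    rw [hasFiniteIntegral_iff_ofReal (Eventually.of_forall hnn)]
    exact hle.trans_lt ENNReal.ofReal_lt_top
  refine ⟨fun i j hij => ?_, hint, ?_⟩
  · rw [Lp.eq_zero_iff_ae_eq_zero]
    filter_upwards [nu_bb f L L'] with z hz
    have h2 := hz i j
    rw [hLo _ _ hij, norm_zero] at h2
    have h3 : ‖bb L L' f i j z‖ ^ 2 = 0 := by rw [h2]; ring
    have h4 : ‖bb L L' f i j z‖ = 0 := by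
      exact pow_eq_zero_iff (two_ne_zero) |>.1 h3
    exact norm_eq_zero.1 h4
  · rw [integral_eq_lintegral_of_nonneg_ae (Eventually.of_forall hnn) hint.1]
    exact ENNReal.toReal_le_of_le_ofReal hB hle

end Pool.Agent.H79.RU
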