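import Pool.Agent.H79.RU.Stm

/-!
# MP_a7284e_an, project RU: the normalised norms on the cube
-/

set_option autoImplicit false

namespace Pool.Agent.H79.RU

open Finset Classical
open Pool.Agent.H79.RT

theorem nqh_card (n : ℕ) : ((univ : Finset (Q n)).card : ℝ) = 2 ^ n := by
  rw [card_univ]
  have : Fintype.card (Q n) = 2 ^ n := by simp [Q]
  rw [this]
  push_cast
  ring

theorem nqh_nonneg {n : ℕ} {q : ℝ} {F : Q n → ℝ} (hF : ∀ x, 0 ≤ F x) : 0 ≤ nq q F :=
  Real.rpow_nonneg (av_nonneg fun x => Real.rpow_nonneg (hF x) q) _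

theorem nqh_pow {n : ℕ} {q : ℝ} (hq : 1 ≤ q) {F : Q n → ℝ} (hF : ∀ x, 0 ≤ F x) :
    nq q F ^ q = av (fun x => F x ^ q) := by
  unfold nq
  rw [one_div]
  exact Real.rpow_inv_rpow (av_nonneg fun x => Real.rpow_nonneg (hF x) q) (by linarith)

theorem nqh_av_le {n : ℕ} {q : ℝ} (hq : 1 ≤ q) {F : Q n → ℝ} (hF : ∀ x, 0 ≤ F x) :
    av F ≤ nq q F := by
  have h1 : (av F) ^ q ≤ av (fun x => F x ^ q) := by
    have h2 := Real.rpow_arith_mean_le_arith_mean_rpow (univ : Finset (Q n))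
      (fun _ => 1 / 2 ^ n) F (fun _ _ => by positivity) (by
        rw [sum_const, nsmul_eq_mul, nqh_card]
        field_simp) (fun x _ => hF x) hq
    have h3 : ∑ x : Q n, 1 / 2 ^ n * F x = av F := by
      unfold av
      rw [← mul_sum]; ring
    have h4 : ∑ x : Q n, 1 / 2 ^ n * F x ^ q = av (fun x => F x ^ q) := by
      unfold av
      rw [← mul_sum]; ring
    rw [h3, h4] at h2
    exact h2
  have h0 : 0 ≤ av F := av_nonneg hF
  have h5 : ((av F) ^ q) ^ (1 / q) = av F := by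
    rw [one_div]
    exact Real.rpow_rpow_inv h0 (by linarith)
  calc av F = ((av F) ^ q) ^ (1 / q) := h5.symm
    _ ≤ nq q F := Real.rpow_le_rpow (Real.rpow_nonneg h0 q) h1 (by positivity)

theorem nqh_zero {n : ℕ} {q : ℝ} (hq : 1 ≤ q) {F : Q n → ℝ} (hF : ∀ x, 0 ≤ F x)
    (h : nq q F = 0) (x : Q n) : F x = 0 := by
  have h1 := nqh_pow hq hF
  rw [h, Real.zero_rpow (by linarith)] at h1
  have h2 : ∑ x : Q n, F x ^ q = 0 := by
    unfold av at h1
    have h3 : (0 : ℝ) < 2 ^ n := by positivity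
    field_simp at h1
    linarith
  have h4 := (sum_eq_zero_iff_of_nonneg fun x _ => Real.rpow_nonneg (hF x) q).1 h2 x (mem_univ x)
  exact (Real.rpow_eq_zero (hF x) (by linarith)).1 h4

theorem nqh_mono {n : ℕ} {q : ℝ} (hq : 1 ≤ q) {F G : Q n → ℝ} (hF : ∀ x, 0 ≤ F x)
    (hFG : ∀ x, F x ≤ G x) : nq q F ≤ nq q G :=
  Real.rpow_le_rpow (av_nonneg fun x => Real.rpow_nonneg (hF x) q)
    (av_mono fun x => Real.rpow_le_rpow (hF x) (hFG x) (by linarith)) (by positivity)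

theorem nqh_smul {n : ℕ} {q : ℝ} (hq : 1 ≤ q) {c : ℝ} {F : Q n → ℝ} (hc : 0 ≤ c)
    (hF : ∀ x, 0 ≤ F x) : nq q (fun x => c * F x) = c * nq q F := by
  unfold nq
  have h1 : (fun x : Q n => (c * F x) ^ q) = fun x => c ^ q * F x ^ q := by
    funext x
    exact Real.mul_rpow hc (hF x)
  rw [h1, av_mul_left, Real.mul_rpow (Real.rpow_nonneg hc q)
    (av_nonneg fun x => Real.rpow_nonneg (hF x) q)]
  congr 1
  rw [one_div]
  exact Real.rpow_rpow_inv hc (by linarith)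

theorem nqh_sum_form {n : ℕ} {q : ℝ} {F : Q n → ℝ} (hF : ∀ x, 0 ≤ F x) :
    nq q F = (∑ x, F x ^ q) ^ (1 / q) / (2 ^ n : ℝ) ^ (1 / q) := by
  unfold nq av
  exact Real.div_rpow (sum_nonneg fun x _ => Real.rpow_nonneg (hF x) q) (by positivity) _

theorem nqh_add {n : ℕ} {q : ℝ} (hq : 1 ≤ q) {F G : Q n → ℝ} (hF : ∀ x, 0 ≤ F x)
    (hG : ∀ x, 0 ≤ G x) : nq q (fun x => F x + G x) ≤ nq q F + nq q G := by
  rw [nqh_sum_form hF, nqh_sum_form hG, nqh_sum_form fun x => add_nonneg (hF x) (hG x),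
    ← add_div]
  refine div_le_div_of_nonneg_right ?_ (by positivity)
  exact Real.Lp_add_le_of_nonneg (univ : Finset (Q n)) hq (fun x _ => hF x) (fun x _ => hG x)

theorem nqh_tri {n : ℕ} {q : ℝ} (hq : 1 ≤ q) {ι : Type} (s : Finset ι) (F : ι → Q n → ℝ)
    (hF : ∀ k x, 0 ≤ F k x) : nq q (fun x => ∑ k ∈ s, F k x) ≤ ∑ k ∈ s, nq q (F k) := by
  induction s using Finset.induction_on with
  | empty =>
    simp only [sum_empty]
    have h1 : nq q (fun _ : Q n => (0 : ℝ)) = 0 := by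
      have h2 : (av fun _ : Q n => (0 : ℝ) ^ q) = 0 := by
        rw [Real.zero_rpow (by linarith), av_const]
      have h3 : 0 < 1 / q := by positivity
      show (av fun _ : Q n => (0 : ℝ) ^ q) ^ (1 / q) = 0
      rw [h2, Real.zero_rpow h3.ne']
    rw [h1]
  | insert a s ha ih =>
    have h1 : (fun x : Q n => ∑ k ∈ insert a s, F k x) = fun x => F a x + ∑ k ∈ s, F k x := by
      funext x
      exact sum_insert ha
    rw [h1, sum_insert ha]
    exact (nqh_add hq (hF a) fun x => sum_nonneg fun k _ => hF k x).trans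
      (add_le_add le_rfl ih)

/-- U3: the norms -/
theorem nq_spec : SNq := by
  intro n q hq
  refine ⟨fun F hF => ⟨nqh_nonneg hF, nqh_av_le hq hF, nqh_pow hq hF, nqh_zero hq hF, fun l => ?_⟩,
    fun F G hF hFG => nqh_mono hq hF hFG, fun c F hc hF => nqh_smul hq hc hF,
    fun ι s F hF => nqh_tri hq s F hF⟩
  unfold nq
  rw [av_fl l fun x => F x ^ q]

end Pool.Agent.H79.RU
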