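import Pool.Agent.H79.RU.StmR
import Pool.Agent.H79.RT.Cf

/-!
# MP_a7284e_an, project RU: the tails of the mixed norm
-/

set_option autoImplicit false

namespace Pool.Agent.H79.RU

open MeasureTheory FourierTransform Filter Topology Finset Classical ENNReal
open Pool.Agent.H73.Hyp
open Pool.Agent.H79.RT

/-- dominated convergence for sums over the integers -/
theorem tlu_tsum (F : ℕ → ℤ → ℝ≥0∞) (G : ℤ → ℝ≥0∞) (h1 : ∀ n i, F n i ≤ G i)
    (h2 : ∑' i, G i ≠ ⊤) (h3 : ∀ i, Tendsto (fun n => F n i) atTop (𝓝 0)) :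
    Tendsto (fun n => ∑' i, F n i) atTop (𝓝 0) := by
  have h := tendsto_lintegral_of_dominated_convergence (μ := (Measure.count : Measure ℤ))
    (F := F) (f := fun _ => 0) G (fun n => measurable_of_countable _)
    (fun n => Eventually.of_forall (h1 n)) (by rw [lintegral_count]; exact h2)
    (Eventually.of_forall h3)
  simpa [lintegral_count] using h

/-- the Haar coefficients of the tail -/
theorem tlu_cf (f : L2) (b : ℤ) (p r : ℤ × ℤ) :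
    cf (f - Ep (Uf 0) b (Ep (Uf 1) b f)) p r = if p.1 < b ∧ r.1 < b then 0 else cf f p r := by
  obtain ⟨h0, h1, h2, -⟩ := cf_spec
  rw [h2, h0, h1]
  by_cases hp : p.1 < b <;> by_cases hr : r.1 < b <;> simp [hp, hr]

theorem tlu_cf_le (f : L2) (b : ℤ) (p r : ℤ × ℤ) :
    ‖cf (f - Ep (Uf 0) b (Ep (Uf 1) b f)) p r‖ ≤ ‖cf f p r‖ := by
  rw [tlu_cf]
  split_ifs
  · simp
  · exact le_rfl

/-- the terms of the sum `shW` -/
noncomputable def tluT (f : L2) (l₀ k : ℤ) (s t : ℝ) (i : ℤ) : ℝ≥0∞ :=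
  if l₀ ≤ k - i then ENNReal.ofReal ((2 : ℝ) ^ k *
    ‖cf f (i, ⌊(2 : ℝ) ^ i * s⌋) (k - i, ⌊(2 : ℝ) ^ (k - i) * t⌋)‖ ^ 2) else 0

theorem tlu_shW (f : L2) (l₀ k : ℤ) (s t : ℝ) : shW f l₀ k s t = ∑' i, tluT f l₀ k s t i := rfl

theorem tlu_T_le (f : L2) (l₀ k : ℤ) (s t : ℝ) (i b : ℤ) :
    tluT (f - Ep (Uf 0) b (Ep (Uf 1) b f)) l₀ k s t i ≤ tluT f l₀ k s t i := by
  unfold tluT
  split_ifs with h
  · refine ENNReal.ofReal_le_ofReal ?_
    have h2 : (0 : ℝ) ≤ (2 : ℝ) ^ k := by positivity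
    refine mul_le_mul_of_nonneg_left ?_ h2
    exact pow_le_pow_left₀ (norm_nonneg _) (tlu_cf_le _ _ _ _) 2
  · exact le_rfl

theorem tlu_T_zero (f : L2) (l₀ k : ℤ) (s t : ℝ) (i b : ℤ) (h1 : i < b) (h2 : k - i < b) :
    tluT (f - Ep (Uf 0) b (Ep (Uf 1) b f)) l₀ k s t i = 0 := by
  unfold tluT
  split_ifs with h
  · rw [tlu_cf, if_pos ⟨h1, h2⟩]
    simp
  · rfl

theorem tlu_shW_le (f : L2) (l₀ k : ℤ) (s t : ℝ) (b : ℤ) :
    shW (f - Ep (Uf 0) b (Ep (Uf 1) b f)) l₀ k s t ≤ shW f l₀ k s t := by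
  rw [tlu_shW, tlu_shW]
  exact ENNReal.tsum_le_tsum fun i => tlu_T_le f l₀ k s t i b

theorem tlu_shW_lim (f : L2) (l₀ k : ℤ) (s t : ℝ) (h : shW f l₀ k s t ≠ ⊤) :
    Tendsto (fun b : ℕ => shW (f - Ep (Uf 0) (b : ℤ) (Ep (Uf 1) (b : ℤ) f)) l₀ k s t) atTop
      (𝓝 0) := by
  simp only [tlu_shW]
  refine tlu_tsum _ (tluT f l₀ k s t) (fun n i => tlu_T_le f l₀ k s t i n) h fun i => ?_
  refine tendsto_const_nhds.congr' ?_
  filter_upwards [eventually_ge_atTop (Int.toNat (max i (k - i)) + 1)] with b hb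
  have hb' : max i (k - i) < (b : ℤ) := by
    have := Int.self_le_toNat (max i (k - i))
    omega
  exact (tlu_T_zero f l₀ k s t i b (lt_of_le_of_lt (le_max_left _ _) hb')
    (lt_of_le_of_lt (le_max_right _ _) hb')).symm

/-- the function of the two floors -/
noncomputable def tluP (f : L2) (k i : ℤ) (p : ℤ × ℤ) : ℝ≥0∞ :=
  ENNReal.ofReal ((2 : ℝ) ^ k * ‖cf f (i, p.1) (k - i, p.2)‖ ^ 2)

theorem tlu_P_meas (f : L2) (k i : ℤ) : Measurable (tluP f k i) := measurable_of_countable _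

theorem tlu_fl_meas (i j : ℤ) :
    Measurable fun x : ℝ × ℝ => (⌊(2 : ℝ) ^ i * x.1⌋, ⌊(2 : ℝ) ^ j * x.2⌋) := by
  have h1 : Measurable fun x : ℝ × ℝ => (2 : ℝ) ^ i * x.1 := measurable_fst.const_mul _
  have h2 : Measurable fun x : ℝ × ℝ => (2 : ℝ) ^ j * x.2 := measurable_snd.const_mul _
  exact (h1.floor).prodMk (h2.floor)

theorem tlu_T_eq (f : L2) (l₀ k i : ℤ) (s t : ℝ) : tluT f l₀ k s t i =
    if l₀ ≤ k - i then tluP f k i (⌊(2 : ℝ) ^ i * s⌋, ⌊(2 : ℝ) ^ (k - i) * t⌋) else 0 := by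
  unfold tluT tluP
  rfl

theorem tlu_T_meas (f : L2) (l₀ k i : ℤ) :
    Measurable fun x : ℝ × ℝ => tluT f l₀ k x.1 x.2 i := by
  have h0 := (tlu_P_meas f k i).comp (tlu_fl_meas i (k - i))
  by_cases h : l₀ ≤ k - i
  · have h1 : (fun x : ℝ × ℝ => tluT f l₀ k x.1 x.2 i) = tluP f k i ∘
        fun x : ℝ × ℝ => (⌊(2 : ℝ) ^ i * x.1⌋, ⌊(2 : ℝ) ^ (k - i) * x.2⌋) := by
      funext x
      rw [tlu_T_eq, if_pos h, Function.comp_apply]
    rw [h1]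
    exact h0
  · have h1 : (fun x : ℝ × ℝ => tluT f l₀ k x.1 x.2 i) = fun _ => 0 := by
      funext x
      rw [tlu_T_eq, if_neg h]
    rw [h1]
    exact measurable_const

theorem tlu_shW_meas (f : L2) (l₀ k : ℤ) :
    Measurable fun x : ℝ × ℝ => shW f l₀ k x.1 x.2 := by
  simp only [tlu_shW]
  exact Measurable.tsum fun i => tlu_T_meas f l₀ k i

/-- the inner quantity -/
noncomputable def tluI (q : ℝ) (f : L2) (l₀ c k : ℤ) (s : ℝ) : ℝ≥0∞ :=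
  ∫⁻ t in Set.Ico ((c : ℝ) * (2 : ℝ) ^ (-l₀)) (((c : ℝ) + 1) * (2 : ℝ) ^ (-l₀)),
    shW f l₀ k s t ^ q

/-- the outer quantity -/
noncomputable def tluO (q : ℝ) (f : L2) (l₀ c k : ℤ) (s : ℝ) : ℝ≥0∞ :=
  ENNReal.ofReal ((2 : ℝ) ^ (-l₀)) *
    (ENNReal.ofReal ((2 : ℝ) ^ l₀) * tluI q f l₀ c k s) ^ (1 / q)

theorem tlu_shN (q : ℝ) (f : L2) (l₀ : ℤ) :
    shN q f l₀ = ∑' c : ℤ, ∑' k : ℤ, ∫⁻ s : ℝ, tluO q f l₀ c k s := rfl

theorem tlu_I_meas (q : ℝ) (f : L2) (l₀ c k : ℤ) : Measurable (tluI q f l₀ c k) := by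
  unfold tluI
  exact ((tlu_shW_meas f l₀ k).pow_const q).lintegral_prod_right'

theorem tlu_O_meas (q : ℝ) (f : L2) (l₀ c k : ℤ) : Measurable (tluO q f l₀ c k) := by
  unfold tluO
  exact measurable_const.mul ((measurable_const.mul (tlu_I_meas q f l₀ c k)).pow_const _)

theorem tlu_I_le (q : ℝ) (hq : 1 < q) (f : L2) (l₀ c k : ℤ) (s : ℝ) (b : ℤ) :
    tluI q (f - Ep (Uf 0) b (Ep (Uf 1) b f)) l₀ c k s ≤ tluI q f l₀ c k s := by
  unfold tluI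
  exact lintegral_mono fun t => ENNReal.rpow_le_rpow (tlu_shW_le f l₀ k s t b) (by linarith)

theorem tlu_O_le (q : ℝ) (hq : 1 < q) (f : L2) (l₀ c k : ℤ) (s : ℝ) (b : ℤ) :
    tluO q (f - Ep (Uf 0) b (Ep (Uf 1) b f)) l₀ c k s ≤ tluO q f l₀ c k s := by
  unfold tluO
  gcongr
  · exact tlu_I_le q hq f l₀ c k s b

theorem tlu_I_lim (q : ℝ) (hq : 1 < q) (f : L2) (l₀ c k : ℤ) (s : ℝ)
    (h : tluI q f l₀ c k s ≠ ⊤) :
    Tendsto (fun b : ℕ => tluI q (f - Ep (Uf 0) (b : ℤ) (Ep (Uf 1) (b : ℤ) f)) l₀ c k s) atTop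
      (𝓝 0) := by
  have hq0 : (0 : ℝ) < q := by linarith
  have hmeas : ∀ g : L2, Measurable fun t : ℝ => shW g l₀ k s t ^ q := fun g =>
    ((tlu_shW_meas g l₀ k).comp (measurable_const.prodMk measurable_id)).pow_const q
  have h1 := tendsto_lintegral_of_dominated_convergence
    (μ := volume.restrict (Set.Ico ((c : ℝ) * (2 : ℝ) ^ (-l₀)) (((c : ℝ) + 1) * (2 : ℝ) ^ (-l₀))))
    (F := fun (b : ℕ) t => shW (f - Ep (Uf 0) (b : ℤ) (Ep (Uf 1) (b : ℤ) f)) l₀ k s t ^ q)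
    (f := fun _ => 0) (fun t => shW f l₀ k s t ^ q) (fun n => hmeas _)
    (fun n => Eventually.of_forall fun t => ENNReal.rpow_le_rpow (tlu_shW_le f l₀ k s t n) hq0.le)
    h (by
      filter_upwards [ae_lt_top (hmeas f) h] with t ht
      have hfin : shW f l₀ k s t ≠ ⊤ := by
        intro h0
        rw [h0, ENNReal.top_rpow_of_pos hq0] at ht
        exact lt_irrefl _ ht
      have h2 := (ENNReal.continuous_rpow_const (y := q)).continuousAt.tendsto.comp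
        (tlu_shW_lim f l₀ k s t hfin)
      rw [ENNReal.zero_rpow_of_pos hq0] at h2
      exact h2)
  simpa [tluI] using h1

theorem tlu_O_lim (q : ℝ) (hq : 1 < q) (f : L2) (l₀ c k : ℤ) (s : ℝ)
    (h : tluO q f l₀ c k s ≠ ⊤) :
    Tendsto (fun b : ℕ => tluO q (f - Ep (Uf 0) (b : ℤ) (Ep (Uf 1) (b : ℤ) f)) l₀ c k s) atTop
      (𝓝 0) := by
  have hq0 : (0 : ℝ) < q := by linarith
  have hq1 : (0 : ℝ) < 1 / q := by positivity
  have ha : ENNReal.ofReal ((2 : ℝ) ^ (-l₀)) ≠ 0 := by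
    rw [Ne, ENNReal.ofReal_eq_zero, not_le]
    positivity
  have hb : ENNReal.ofReal ((2 : ℝ) ^ l₀) ≠ 0 := by
    rw [Ne, ENNReal.ofReal_eq_zero, not_le]
    positivity
  have hI : tluI q f l₀ c k s ≠ ⊤ := by
    intro h0
    apply h
    unfold tluO
    rw [h0, ENNReal.mul_top hb, ENNReal.top_rpow_of_pos hq1, ENNReal.mul_top ha]
  have h1 := tlu_I_lim q hq f l₀ c k s hI
  have h2 := ENNReal.Tendsto.const_mul (a := ENNReal.ofReal ((2 : ℝ) ^ l₀)) h1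
    (Or.inr ENNReal.ofReal_ne_top)
  rw [mul_zero] at h2
  have h3 := (ENNReal.continuous_rpow_const (y := 1 / q)).continuousAt.tendsto.comp h2
  rw [ENNReal.zero_rpow_of_pos hq1] at h3
  have h4 := ENNReal.Tendsto.const_mul (a := ENNReal.ofReal ((2 : ℝ) ^ (-l₀))) h3
    (Or.inr ENNReal.ofReal_ne_top)
  rw [mul_zero] at h4
  exact h4

/-- P4a -/
theorem tailU : STailU := by
  intro q hq l₀ f hlo hfin
  refine ⟨fun b p r hr => ?_, ?_⟩
  · have h := tlu_cf_le f b p r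
    rw [hlo p r hr, norm_zero] at h
    exact norm_le_zero_iff.1 h
  have hc : ∀ c : ℤ, ∑' k : ℤ, ∫⁻ s : ℝ, tluO q f l₀ c k s ≠ ⊤ := fun c =>
    ne_top_of_le_ne_top hfin (ENNReal.le_tsum c)
  have hk : ∀ c k : ℤ, ∫⁻ s : ℝ, tluO q f l₀ c k s ≠ ⊤ := fun c k =>
    ne_top_of_le_ne_top (hc c) (ENNReal.le_tsum (f := fun k => ∫⁻ s : ℝ, tluO q f l₀ c k s) k)
  have hint : ∀ c k : ℤ, Tendsto (fun b : ℕ => ∫⁻ s : ℝ,
      tluO q (f - Ep (Uf 0) (b : ℤ) (Ep (Uf 1) (b : ℤ) f)) l₀ c k s) atTop (𝓝 0) := by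
    intro c k
    have h1 := tendsto_lintegral_of_dominated_convergence (μ := (volume : Measure ℝ))
      (F := fun (b : ℕ) s => tluO q (f - Ep (Uf 0) (b : ℤ) (Ep (Uf 1) (b : ℤ) f)) l₀ c k s)
      (f := fun _ => 0) (fun s => tluO q f l₀ c k s) (fun n => tlu_O_meas q _ l₀ c k)
      (fun n => Eventually.of_forall fun s => tlu_O_le q hq f l₀ c k s n) (hk c k) (by
        filter_upwards [ae_lt_top (tlu_O_meas q f l₀ c k) (hk c k)] with s hs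
        exact tlu_O_lim q hq f l₀ c k s hs.ne)
    simpa using h1
  simp only [tlu_shN]
  refine tlu_tsum _ (fun c => ∑' k : ℤ, ∫⁻ s : ℝ, tluO q f l₀ c k s) (fun n c => ?_) hfin
    fun c => ?_
  · exact ENNReal.tsum_le_tsum fun k => lintegral_mono fun s => tlu_O_le q hq f l₀ c k s n
  · refine tlu_tsum _ (fun k => ∫⁻ s : ℝ, tluO q f l₀ c k s) (fun n k => ?_) (hc c) (hint c)
    exact lintegral_mono fun s => tlu_O_le q hq f l₀ c k s n

end Pool.Agent.H79.RU
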