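import Pool.Agent.H79.RU.StmR

/-!
# MP_a7284e_an, project RU: transfer along the orbits of the flips (row P1)
-/

set_option autoImplicit false

namespace Pool.Agent.H79.RU

open MeasureTheory FourierTransform Filter Topology Finset Classical ENNReal
open Pool.Agent.H73.Hyp
open Pool.Agent.H79.RT

/-! ### reindexing of the rows -/

theorem tu_reidx {M : Type*} [AddCommMonoid M] (l₀ : ℤ) (L' : ℕ) (F : ℕ → M)
    (hF : ∀ j : ℕ, (j : ℤ) - L' < l₀ → F j = 0) :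
    ∑ j ∈ range (2 * L'), F j = ∑ j ∈ range (Int.toNat ((L' : ℤ) - l₀)),
      if 0 ≤ (j : ℤ) + l₀ + L' then F (Int.toNat ((j : ℤ) + l₀ + L')) else 0 := by
  rw [← sum_filter]
  have h1 : ∑ j ∈ range (2 * L'), F j =
      ∑ j ∈ (range (2 * L')).filter (fun j : ℕ => l₀ ≤ (j : ℤ) - L'), F j := by
    rw [sum_filter]
    refine sum_congr rfl fun j _ => ?_
    split_ifs with h
    · rfl
    · exact hF j (by omega)
  rw [h1]
  refine sum_nbij' (fun j => Int.toNat ((j : ℤ) - L' - l₀))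
    (fun j => Int.toNat ((j : ℤ) + l₀ + L')) ?_ ?_ ?_ ?_ ?_
  · intro j hj
    simp only [mem_filter, mem_range] at hj ⊢
    omega
  · intro j hj
    simp only [mem_filter, mem_range] at hj ⊢
    omega
  · intro j hj
    simp only [mem_filter, mem_range] at hj ⊢
    omega
  · intro j hj
    simp only [mem_filter, mem_range] at hj ⊢
    omega
  · intro j hj
    simp only [mem_filter, mem_range] at hj ⊢
    congr 1
    omega

/-! ### norms -/

theorem tu_nq_nonneg {n : ℕ} (q : ℝ) {F : Q n → ℝ} (hF : ∀ x, 0 ≤ F x) : 0 ≤ nq q F :=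
  Real.rpow_nonneg (av_nonneg fun x => Real.rpow_nonneg (hF x) _) _

theorem tu_nq_zero {n : ℕ} {q : ℝ} (hq : 1 < q) {F : Q n → ℝ} (hF : ∀ x, F x = 0) :
    nq q F = 0 := by
  have h0 : q ≠ 0 := by linarith
  have h1 : (1 / q : ℝ) ≠ 0 := one_div_ne_zero h0
  unfold nq
  have e : (fun x => F x ^ q) = fun _ : Q n => (0 : ℝ) := by
    funext x
    rw [hF x, Real.zero_rpow h0]
  rw [e, av_const, Real.zero_rpow h1]

theorem Wz_nonneg (L L' : ℕ) (f : L2) (k : ℤ) (z : E2) : 0 ≤ Wz L L' f k z := by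
  unfold Wz
  refine sum_nonneg fun i _ => sum_nonneg fun j _ => ?_
  split_ifs
  · exact sq_nonneg _
  · exact le_rfl

theorem Nz_nonneg (q : ℝ) (l₀ : ℤ) (L L' : ℕ) (f : L2) (z : E2) : 0 ≤ Nz q l₀ L L' f z :=
  sum_nonneg fun _ _ => tu_nq_nonneg q fun _ => Wz_nonneg _ _ _ _ _

theorem Wz_out (L L' : ℕ) (f : L2) {k : ℤ} (hk : k ∉ Icc (-((L : ℤ) + L')) ((L : ℤ) + L'))
    (z : E2) : Wz L L' f k z = 0 := by
  unfold Wz
  refine sum_eq_zero fun i hi => sum_eq_zero fun j hj => ?_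
  rw [mem_range] at hi hj
  rw [mem_Icc] at hk
  rw [if_neg]
  omega

/-! ### the orbit maps of the plane -/

/-- the orbit map -/
noncomputable def tuT (L : ℕ) (l₀ : ℤ) {n m : ℕ} (g : Q n) (h : Q m) (x : E2) : E2 :=
  trob (trs L) (trx g) n (yf l₀ h x)

theorem tuT_mp (L : ℕ) (l₀ : ℤ) {n m : ℕ} (g : Q n) (h : Q m) :
    MeasurePreserving (tuT L l₀ g h) (volume : Measure E2) volume :=
  (trob_mp (fun _ => mp_fl 0 _) _ _).comp (trob_mp (fun _ => mp_fl 1 _) _ _)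

theorem tuT_eq (L : ℕ) (l₀ : ℤ) {n m : ℕ} (g : Q n) (h : Q m) (x : E2) :
    tuT L l₀ g h x = yf l₀ h (trob (trs L) (trx g) n x) :=
  trob_comm2 (σ := trs L) (τ := fun j : ℕ => H73.Hyp.fl 1 (l₀ + j))
    (fun _ _ _ => H73.Hyp.fl_comm _ _ _ _ _) _ _ _ _ _

theorem tuT_fl0 (L : ℕ) (l₀ : ℤ) {n m : ℕ} (g : Q n) (h : Q m) {l : ℕ} (hl : l < n) (x : E2) :
    tuT L l₀ (fl l g) h x = H73.Hyp.fl 0 ((l : ℤ) - L) (tuT L l₀ g h x) :=
  trob_flip (τ := trs L) (fun _ _ => H73.Hyp.fl_fl _ _ _) (fun _ _ _ => H73.Hyp.fl_comm _ _ _ _ _)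
    (trx_fl g hl) (fun i hi => trx_fl_ne g i hi) n hl _

theorem tuT_fl1 (L : ℕ) (l₀ : ℤ) {n m : ℕ} (g : Q n) (h : Q m) {l : ℕ} (hl : l < m) (x : E2) :
    tuT L l₀ g (fl l h) x = H73.Hyp.fl 1 (l₀ + l) (tuT L l₀ g h x) := by
  rw [tuT_eq, tuT_eq]
  exact trob_flip (τ := fun j : ℕ => H73.Hyp.fl 1 (l₀ + j)) (fun _ _ => H73.Hyp.fl_fl _ _ _)
    (fun _ _ _ => H73.Hyp.fl_comm _ _ _ _ _) (trx_fl h hl) (fun i hi => trx_fl_ne h i hi) m hl _

/-- the relations which hold almost everywhere -/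
def tuGood (L L' : ℕ) (l₀ : ℤ) (f : L2) (K : Finset ℤ) (y : E2) : Prop :=
  (∀ i j : ℕ, bb L L' f i j (H73.Hyp.fl 0 ((i : ℤ) - L) y) = -bb L L' f i j y) ∧
  (∀ i j l : ℕ, i < l → bb L L' f i j (H73.Hyp.fl 0 ((l : ℤ) - L) y) = bb L L' f i j y) ∧
  (∀ i j : ℕ, bb L L' f i j (H73.Hyp.fl 1 ((j : ℤ) - L') y) = -bb L L' f i j y) ∧
  (∀ i j l : ℕ, j < l → bb L L' f i j (H73.Hyp.fl 1 ((l : ℤ) - L') y) = bb L L' f i j y) ∧
  (∀ i j : ℕ, (j : ℤ) - L' < l₀ → bb L L' f i j y = 0) ∧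
  ∀ k ∈ K, Xs L L' k f y = ∑ i ∈ range (2 * L),
    ∑ j ∈ (range (2 * L')).filter (fun j : ℕ => (i : ℤ) + j ≤ k + L + L'), bb L L' f i j y

theorem tu_good (L L' : ℕ) (l₀ : ℤ) (f : L2) (K : Finset ℤ)
    (hd : ∀ i j : ℕ, (j : ℤ) - L' < l₀ → bb L L' f i j = 0) :
    ∀ᵐ y : E2, tuGood L L' l₀ f K y := by
  have a1 : ∀ᵐ y : E2, ∀ i j : ℕ,
      bb L L' f i j (H73.Hyp.fl 0 ((i : ℤ) - L) y) = -bb L L' f i j y :=
    ae_all_iff.2 fun i => ae_all_iff.2 fun j => bb_flip0 L L' f i j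
  have a2 : ∀ᵐ y : E2, ∀ i j l : ℕ, i < l →
      bb L L' f i j (H73.Hyp.fl 0 ((l : ℤ) - L) y) = bb L L' f i j y :=
    ae_all_iff.2 fun i => ae_all_iff.2 fun j => ae_all_iff.2 fun l => ae_all_iff.2 fun hl =>
      bb_flip0_lt L L' f i j l hl
  have a3 : ∀ᵐ y : E2, ∀ i j : ℕ,
      bb L L' f i j (H73.Hyp.fl 1 ((j : ℤ) - L') y) = -bb L L' f i j y :=
    ae_all_iff.2 fun i => ae_all_iff.2 fun j => bb_flip1 L L' f i j
  have a4 : ∀ᵐ y : E2, ∀ i j l : ℕ, j < l →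
      bb L L' f i j (H73.Hyp.fl 1 ((l : ℤ) - L') y) = bb L L' f i j y :=
    ae_all_iff.2 fun i => ae_all_iff.2 fun j => ae_all_iff.2 fun l => ae_all_iff.2 fun hl =>
      bb_flip1_lt L L' f i j l hl
  have a5 : ∀ᵐ y : E2, ∀ i j : ℕ, (j : ℤ) - L' < l₀ → bb L L' f i j y = 0 :=
    ae_all_iff.2 fun i => ae_all_iff.2 fun j => ae_all_iff.2 fun hj => by
      rw [hd i j hj]
      filter_upwards [Lp.coeFn_zero ℂ 2 (volume : Measure E2)] with y hy
      rw [hy, Pi.zero_apply]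
  have a6 : ∀ᵐ x : E2, ∀ k ∈ K, Xs L L' k f x = ∑ i ∈ range (2 * L),
      ∑ j ∈ (range (2 * L')).filter (fun j : ℕ => (i : ℤ) + j ≤ k + L + L'),
        bb L L' f i j x := by
    rw [Finset.eventually_all]
    intro k _
    have b0 : ∀ᵐ x : E2, ∀ i ∈ range (2 * L),
        (∑ j ∈ (range (2 * L')).filter (fun j : ℕ => (i : ℤ) + j ≤ k + L + L'),
          bb L L' f i j : L2) x =
        ∑ j ∈ (range (2 * L')).filter (fun j : ℕ => (i : ℤ) + j ≤ k + L + L'),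
          bb L L' f i j x := by
      rw [Finset.eventually_all]
      intro i _
      exact coe_sum _ _
    filter_upwards [coe_sum (range (2 * L)) fun i =>
      ∑ j ∈ (range (2 * L')).filter (fun j : ℕ => (i : ℤ) + j ≤ k + L + L'), bb L L' f i j,
      b0] with x b1 b2
    unfold Xs
    rw [b1]
    exact sum_congr rfl fun i hi => b2 i hi
  filter_upwards [a1, a2, a3, a4, a5, a6] with y h1 h2 h3 h4 h5 h6
  exact ⟨h1, h2, h3, h4, h5, h6⟩

/-! ### the pieces, with the rows counted from the scale `l₀` -/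

/-- the pieces -/
noncomputable def tub (L L' : ℕ) (l₀ : ℤ) (f : L2) (i j : ℕ) (y : E2) : ℂ :=
  if i < 2 * L ∧ j < Int.toNat ((L' : ℤ) - l₀) ∧ 0 ≤ (j : ℤ) + l₀ + L' then
    bb L L' f i (Int.toNat ((j : ℤ) + l₀ + L')) y else 0

section pieces

variable {L L' : ℕ} {l₀ : ℤ} {f : L2} {K : Finset ℤ} {y : E2}

theorem tub_fl0 (hy : tuGood L L' l₀ f K y) (i j : ℕ) :
    tub L L' l₀ f i j (H73.Hyp.fl 0 ((i : ℤ) - L) y) = -tub L L' l₀ f i j y := by
  unfold tub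
  split_ifs
  · exact hy.1 i _
  · rw [neg_zero]

theorem tub_fl0_lt (hy : tuGood L L' l₀ f K y) (i j l : ℕ) (hl : i < l) :
    tub L L' l₀ f i j (H73.Hyp.fl 0 ((l : ℤ) - L) y) = tub L L' l₀ f i j y := by
  unfold tub
  split_ifs
  · exact hy.2.1 i _ l hl
  · rfl

theorem tub_fl1 (hy : tuGood L L' l₀ f K y) (i j : ℕ) :
    tub L L' l₀ f i j (H73.Hyp.fl 1 (l₀ + j) y) = -tub L L' l₀ f i j y := by
  unfold tub
  split_ifs with h
  · have e : l₀ + (j : ℤ) = ((Int.toNat ((j : ℤ) + l₀ + L') : ℕ) : ℤ) - L' := by omega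
    rw [e]
    exact hy.2.2.1 i _
  · rw [neg_zero]

theorem tub_fl1_lt (hy : tuGood L L' l₀ f K y) (i j l : ℕ) (hl : j < l) :
    tub L L' l₀ f i j (H73.Hyp.fl 1 (l₀ + l) y) = tub L L' l₀ f i j y := by
  unfold tub
  split_ifs with h
  · have e : l₀ + (l : ℤ) = ((Int.toNat ((l : ℤ) + l₀ + L') : ℕ) : ℤ) - L' := by omega
    rw [e]
    exact hy.2.2.2.1 i _ _ (by omega)
  · rfl

theorem tub_pos {i j : ℕ} (hi : i ∈ range (2 * L)) (hj : j ∈ range (Int.toNat ((L' : ℤ) - l₀)))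
    (h0 : 0 ≤ (j : ℤ) + l₀ + L') (y : E2) :
    tub L L' l₀ f i j y = bb L L' f i (Int.toNat ((j : ℤ) + l₀ + L')) y :=
  if_pos ⟨mem_range.1 hi, mem_range.1 hj, h0⟩

theorem tub_neg {i j : ℕ} (h0 : ¬0 ≤ (j : ℤ) + l₀ + L') (y : E2) :
    tub L L' l₀ f i j y = 0 := if_neg fun h => h0 h.2.2

/-- the energy of a level -/
theorem tu_wk (hy : tuGood L L' l₀ f K y) (κ : ℕ) :
    (∑ i ∈ range (2 * L), ∑ j ∈ range (Int.toNat ((L' : ℤ) - l₀)),
      if i + j = κ then ‖tub L L' l₀ f i j y‖ ^ 2 else 0) = Wz L L' f ((κ : ℤ) - L + l₀) y := by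
  unfold Wz
  refine sum_congr rfl fun i hi => ?_
  have hF : ∀ j : ℕ, (j : ℤ) - L' < l₀ →
      (if ((i : ℤ) - L) + ((j : ℤ) - L') = (κ : ℤ) - L + l₀ then
        ‖bb L L' f i j y‖ ^ 2 else 0) = 0 := by
    intro j hj
    rw [hy.2.2.2.2.1 i j hj, norm_zero, zero_pow two_ne_zero, ite_self]
  rw [tu_reidx l₀ L' _ hF]
  refine sum_congr rfl fun j hj => ?_
  by_cases h0 : 0 ≤ (j : ℤ) + l₀ + L'
  · rw [if_pos h0, tub_pos hi hj h0]
    by_cases h1 : i + j = κ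
    · rw [if_pos h1, if_pos (by omega)]
    · rw [if_neg h1, if_neg (by omega)]
  · rw [if_neg h0, tub_neg h0, norm_zero, zero_pow two_ne_zero, ite_self]

/-- the hyperbolic sums -/
theorem tu_XS {φ : ℂ → ℝ} (hφs : ∀ (s : Finset ℕ) (z : ℕ → ℂ), φ (∑ i ∈ s, z i) =
      ∑ i ∈ s, φ (z i)) (hφ0 : φ 0 = 0) (hy : tuGood L L' l₀ f K y) (k : ℤ) (hk : k ∈ K) :
    φ (Xs L L' k f y) = ∑ i ∈ range (2 * L), ∑ j ∈ range (Int.toNat ((L' : ℤ) - l₀)),
      if (i : ℤ) + j ≤ k + L - l₀ then φ (tub L L' l₀ f i j y) else 0 := by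
  rw [hy.2.2.2.2.2 k hk, hφs]
  refine sum_congr rfl fun i hi => ?_
  have hF : ∀ j : ℕ, (j : ℤ) - L' < l₀ →
      (if (i : ℤ) + j ≤ k + L + L' then φ (bb L L' f i j y) else 0) = 0 := by
    intro j hj
    rw [hy.2.2.2.2.1 i j hj, hφ0, ite_self]
  rw [hφs, sum_filter, tu_reidx l₀ L' _ hF]
  refine sum_congr rfl fun j hj => ?_
  by_cases h0 : 0 ≤ (j : ℤ) + l₀ + L'
  · rw [if_pos h0, tub_pos hi hj h0]
    by_cases h1 : (i : ℤ) + j ≤ k + L - l₀
    · rw [if_pos h1, if_pos (by omega)]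
    · rw [if_neg h1, if_neg (by omega)]
  · rw [if_neg h0, tub_neg h0, hφ0, ite_self]

end pieces

/-! ### the arrays of an orbit -/

/-- the array of an orbit -/
noncomputable def tuD (L L' : ℕ) (l₀ : ℤ) (f : L2) (φ : ℂ → ℝ) (x : E2) (i j : ℕ)
    (g : Q (2 * L)) (h : Q (Int.toNat ((L' : ℤ) - l₀))) : ℝ :=
  φ (tub L L' l₀ f i j (tuT L l₀ g h x))

/-- the majorants of an orbit -/
noncomputable def tuA (L L' : ℕ) (l₀ : ℤ) (f : L2) (x : E2) (i j : ℕ)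
    (g : Q (2 * L)) (h : Q (Int.toNat ((L' : ℤ) - l₀))) : ℝ :=
  ‖tub L L' l₀ f i j (tuT L l₀ g h x)‖

section orbit

variable {L L' : ℕ} {l₀ : ℤ} {f : L2} {K : Finset ℤ} {x : E2}

theorem tub_out0 {i j : ℕ} (h : 2 * L ≤ i) (y : E2) : tub L L' l₀ f i j y = 0 := by
  unfold tub
  rw [if_neg (by omega)]

theorem tub_out1 {i j : ℕ} (h : Int.toNat ((L' : ℤ) - l₀) ≤ j) (y : E2) :
    tub L L' l₀ f i j y = 0 := by
  unfold tub
  rw [if_neg (by omega)]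

theorem tu_arr {φ : ℂ → ℝ} (hφn : ∀ z, φ (-z) = -φ z) (hφb : ∀ z, |φ z| ≤ ‖z‖)
    (hx : ∀ (g : Q (2 * L)) (h : Q (Int.toNat ((L' : ℤ) - l₀))),
      tuGood L L' l₀ f K (tuT L l₀ g h x)) :
    Ar2 (2 * L) (Int.toNat ((L' : ℤ) - l₀)) (tuD L L' l₀ f φ x) (tuA L L' l₀ f x) where
  odx i j h g := by
    show φ (tub L L' l₀ f i j (tuT L l₀ (fl i g) h x)) = -φ (tub L L' l₀ f i j (tuT L l₀ g h x))
    rcases Nat.lt_or_ge i (2 * L) with h1 | h1
    · rw [tuT_fl0 L l₀ g h h1, tub_fl0 (hx g h), hφn]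
    · rw [tub_out0 h1, tub_out0 h1, ← hφn, neg_zero]
  invx i j h l hl g := by
    show φ (tub L L' l₀ f i j (tuT L l₀ (fl l g) h x)) = φ (tub L L' l₀ f i j (tuT L l₀ g h x))
    rcases Nat.lt_or_ge l (2 * L) with h1 | h1
    · rw [tuT_fl0 L l₀ g h h1, tub_fl0_lt (hx g h) i j l (by omega)]
    · rw [fl_of_le h1]
  ody i j g h := by
    show φ (tub L L' l₀ f i j (tuT L l₀ g (fl j h) x)) = -φ (tub L L' l₀ f i j (tuT L l₀ g h x))
    rcases Nat.lt_or_ge j (Int.toNat ((L' : ℤ) - l₀)) with h1 | h1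
    · rw [tuT_fl1 L l₀ g h h1, tub_fl1 (hx g h), hφn]
    · rw [tub_out1 h1, tub_out1 h1, ← hφn, neg_zero]
  invy i j g l hl h := by
    show φ (tub L L' l₀ f i j (tuT L l₀ g (fl l h) x)) = φ (tub L L' l₀ f i j (tuT L l₀ g h x))
    rcases Nat.lt_or_ge l (Int.toNat ((L' : ℤ) - l₀)) with h1 | h1
    · rw [tuT_fl1 L l₀ g h h1, tub_fl1_lt (hx g h) i j l (by omega)]
    · rw [fl_of_le h1]
  pax i j h l hl g := by
    show ‖tub L L' l₀ f i j (tuT L l₀ (fl l g) h x)‖ = ‖tub L L' l₀ f i j (tuT L l₀ g h x)‖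
    rcases Nat.lt_or_ge l (2 * L) with h1 | h1
    · rw [tuT_fl0 L l₀ g h h1]
      rcases Nat.eq_or_lt_of_le hl with h2 | h2
      · rw [← h2, tub_fl0 (hx g h), norm_neg]
      · rw [tub_fl0_lt (hx g h) i j l h2]
    · rw [fl_of_le h1]
  pay i j g l hl h := by
    show ‖tub L L' l₀ f i j (tuT L l₀ g (fl l h) x)‖ = ‖tub L L' l₀ f i j (tuT L l₀ g h x)‖
    rcases Nat.lt_or_ge l (Int.toNat ((L' : ℤ) - l₀)) with h1 | h1
    · rw [tuT_fl1 L l₀ g h h1]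
      rcases Nat.eq_or_lt_of_le hl with h2 | h2
      · rw [← h2, tub_fl1 (hx g h), norm_neg]
      · rw [tub_fl1_lt (hx g h) i j l h2]
    · rw [fl_of_le h1]
  na i j g h := norm_nonneg _
  dom i j g h := hφb _
  za i j hij g h := by
    show ‖tub L L' l₀ f i j (tuT L l₀ g h x)‖ = 0
    rcases hij with h1 | h1
    · rw [tub_out0 h1, norm_zero]
    · rw [tub_out1 h1, norm_zero]

theorem tu_MX {φ : ℂ → ℝ} (hφs : ∀ (s : Finset ℕ) (z : ℕ → ℂ), φ (∑ i ∈ s, z i) =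
      ∑ i ∈ s, φ (z i)) (hφ0 : φ 0 = 0)
    (hx : ∀ (g : Q (2 * L)) (h : Q (Int.toNat ((L' : ℤ) - l₀))),
      tuGood L L' l₀ f K (tuT L l₀ g h x))
    (g : Q (2 * L)) (h : Q (Int.toNat ((L' : ℤ) - l₀))) (k : ℤ) (hk : k ∈ K) :
    |φ (Xs L L' k f (tuT L l₀ g h x))| ≤ MX (tuD L L' l₀ f φ x) g h := by
  have e := tu_XS hφs hφ0 (hx g h) k hk
  by_cases h0 : 0 ≤ k + L - l₀
  · have e2 : φ (Xs L L' k f (tuT L l₀ g h x)) =
        XS (tuD L L' l₀ f φ x) (k + L - l₀).toNat g h := by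
      rw [e]
      unfold XS
      refine sum_congr rfl fun i _ => sum_congr rfl fun j _ => ?_
      by_cases h1 : (i : ℤ) + j ≤ k + L - l₀
      · rw [if_pos h1, if_pos (by omega)]
        rfl
      · rw [if_neg h1, if_neg (by omega)]
    rw [e2]
    exact abs_XS_le_MX _ _ _ _
  · have e2 : φ (Xs L L' k f (tuT L l₀ g h x)) = 0 := by
      rw [e]
      refine sum_eq_zero fun i _ => sum_eq_zero fun j _ => ?_
      rw [if_neg (by omega)]
    rw [e2, abs_zero]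
    exact MX_nonneg _ _ _

theorem tu_VT {q : ℝ} (hq : 1 < q)
    (hx : ∀ (g : Q (2 * L)) (h : Q (Int.toNat ((L' : ℤ) - l₀))),
      tuGood L L' l₀ f K (tuT L l₀ g h x)) (g : Q (2 * L)) :
    VT q (tuA L L' l₀ f x) g ≤ Nz q l₀ L L' f (trob (trs L) (trx g) (2 * L) x) := by
  set N : ℤ → ℝ := fun k => nq q fun h : Q (Int.toNat ((L' : ℤ) - l₀)) =>
    Wz L L' f k (yf l₀ h (trob (trs L) (trx g) (2 * L) x)) with hN
  have hN0 : ∀ k, 0 ≤ N k := fun k => tu_nq_nonneg q fun _ => Wz_nonneg _ _ _ _ _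
  have e1 : ∀ κ, vk q (tuA L L' l₀ f x) g κ = N ((κ : ℤ) - L + l₀) := by
    intro κ
    rw [hN]
    unfold vk
    congr 1
    funext h
    rw [← tuT_eq]
    exact tu_wk (hx g h) κ
  have e2 : VT q (tuA L L' l₀ f x) g =
      ∑ k ∈ (range (2 * L + Int.toNat ((L' : ℤ) - l₀))).image
        (fun κ : ℕ => (κ : ℤ) - L + l₀), N k := by
    rw [sum_image fun a _ b _ hab => by
      have hab' : (a : ℤ) - L + l₀ = (b : ℤ) - L + l₀ := hab
      omega]
    exact sum_congr rfl fun κ _ => e1 κ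
  rw [e2]
  have e3 : ∑ k ∈ (range (2 * L + Int.toNat ((L' : ℤ) - l₀))).image
        (fun κ : ℕ => (κ : ℤ) - L + l₀), N k =
      ∑ k ∈ ((range (2 * L + Int.toNat ((L' : ℤ) - l₀))).image
        (fun κ : ℕ => (κ : ℤ) - L + l₀)).filter
          (fun k => k ∈ Icc (-((L : ℤ) + L')) ((L : ℤ) + L')), N k := by
    rw [sum_filter]
    refine sum_congr rfl fun k _ => ?_
    split_ifs with hk
    · rfl
    · exact tu_nq_zero hq fun h => Wz_out L L' f hk _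
  rw [e3]
  exact sum_le_sum_of_subset_of_nonneg (fun k hk => (mem_filter.1 hk).2) fun k _ _ => hN0 k

end orbit

/-- row P1 -/
theorem trU (h : SF2) : STrU := by
  intro q hq
  obtain ⟨C, hC, hfin⟩ := h q hq
  refine ⟨2 * C, by linarith, ?_⟩
  intro l₀ L L' f hd hint K
  rcases K.eq_empty_or_nonempty with rfl | hK
  · refine ⟨fun _ => 0, integrable_zero _ _ _, Filter.Eventually.of_forall fun x k hk =>
      absurd hk (notMem_empty k), ?_⟩
    rw [integral_zero]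
    exact mul_nonneg (by linarith) (integral_nonneg fun z => Nz_nonneg q l₀ L L' f z)
  set G : E2 → ℝ := K.sup' hK fun k x => ‖Xs L L' k f x‖ ^ 2 with hG
  have hGx : ∀ x, G x = K.sup' hK fun k => ‖Xs L L' k f x‖ ^ 2 := fun x => by
    rw [hG, Finset.sup'_apply]
  have hGk : ∀ x, ∀ k ∈ K, ‖Xs L L' k f x‖ ^ 2 ≤ G x := fun x k hk => by
    rw [hGx]
    exact le_sup' (fun k => ‖Xs L L' k f x‖ ^ 2) hk
  have hG0 : ∀ x, 0 ≤ G x := fun x => by
    obtain ⟨k, hk⟩ := hK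
    exact (sq_nonneg _).trans (hGk x k hk)
  have hGm : Measurable G := by
    refine Finset.measurable_sup' hK fun k _ => ?_
    exact ((Lp.stronglyMeasurable (Xs L L' k f)).measurable.norm).pow_const 2
  have hGi : Integrable G := by
    refine (integrable_finsetSum K fun k _ => integrable_sq (Xs L L' k f)).mono'
      hGm.aestronglyMeasurable (Filter.Eventually.of_forall fun x => ?_)
    rw [Real.norm_of_nonneg (hG0 x), hGx]
    refine sup'_le _ _ fun k hk => ?_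
    exact single_le_sum (f := fun k => ‖Xs L L' k f x‖ ^ 2) (fun k _ => sq_nonneg _) hk
  refine ⟨G, hGi, Filter.Eventually.of_forall hGk, ?_⟩
  -- the orbits
  obtain ⟨iG, eG⟩ := tr_int (n := 2 * L) (m := Int.toNat ((L' : ℤ) - l₀)) hGi (tuT L l₀)
    (tuT_mp L l₀)
  obtain ⟨iH, eH⟩ := tr_int (n := 2 * L) (m := 0) hint
    (fun g _ => trob (trs L) (trx g) (2 * L)) (fun g _ => trob_mp (fun _ => mp_fl 0 _) _ _)
  rw [← eG, ← eH, ← integral_const_mul]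
  have good : ∀ᵐ x : E2, ∀ (g : Q (2 * L)) (h : Q (Int.toNat ((L' : ℤ) - l₀))),
      tuGood L L' l₀ f K (tuT L l₀ g h x) := by
    rw [ae_all_iff]
    intro g
    rw [ae_all_iff]
    intro h
    exact (tuT_mp L l₀ g h).quasiMeasurePreserving.ae (tu_good L L' l₀ f K hd)
  refine integral_mono_ae iG (iH.const_mul _) ?_
  filter_upwards [good] with x hx
  have A1 := hfin (2 * L) (Int.toNat ((L' : ℤ) - l₀)) _ _ (tu_arr (φ := Complex.re)
    (fun z => Complex.neg_re z) Complex.abs_re_le_norm hx)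
  have A2 := hfin (2 * L) (Int.toNat ((L' : ℤ) - l₀)) _ _ (tu_arr (φ := Complex.im)
    (fun z => Complex.neg_im z) Complex.abs_im_le_norm hx)
  have B : av (VT q (tuA L L' l₀ f x)) ≤
      av2 fun (g : Q (2 * L)) (_ : Q 0) => Nz q l₀ L L' f (trob (trs L) (trx g) (2 * L) x) := by
    unfold av2
    refine av_mono fun g => ?_
    rw [av_const]
    exact tu_VT hq hx g
  have M1 : (av2 fun (g : Q (2 * L)) (h : Q (Int.toNat ((L' : ℤ) - l₀))) =>
      G (tuT L l₀ g h x)) ≤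
      av2 fun (g : Q (2 * L)) (h : Q (Int.toNat ((L' : ℤ) - l₀))) =>
        MX (tuD L L' l₀ f Complex.re x) g h ^ 2 + MX (tuD L L' l₀ f Complex.im x) g h ^ 2 := by
    refine av2_mono fun g h => ?_
    rw [hGx]
    refine sup'_le _ _ fun k hk => ?_
    have c1 := tu_MX (φ := Complex.re) (fun s z => Complex.re_sum s z) Complex.zero_re hx g h k hk
    have c2 := tu_MX (φ := Complex.im) (fun s z => Complex.im_sum s z) Complex.zero_im hx g h k hk
    rw [← Complex.normSq_eq_norm_sq, Complex.normSq_apply, ← sq, ← sq]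
    have d1 := pow_le_pow_left₀ (abs_nonneg _) c1 2
    have d2 := pow_le_pow_left₀ (abs_nonneg _) c2 2
    rw [sq_abs] at d1 d2
    exact add_le_add d1 d2
  rw [av2_add] at M1
  refine M1.trans ?_
  have B' := mul_le_mul_of_nonneg_left B hC
  show _ ≤ 2 * C * _
  linarith

end Pool.Agent.H79.RU
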