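import Pool.Agent.H79.RT.All
import Pool.Agent.H79.RU.ModL
import Pool.Agent.H79.RU.Mod2
import Pool.Agent.H79.RU.Nq
import Pool.Agent.H79.RU.Ch
import Pool.Agent.H79.RU.Lam
import Pool.Agent.H79.RU.Link
import Pool.Agent.H79.RU.N
import Pool.Agent.H79.RU.F2
import Pool.Agent.H79.RU.TrU
import Pool.Agent.H79.RU.FlipAv
import Pool.Agent.H79.RU.NormU
import Pool.Agent.H79.RU.MaxU
import Pool.Agent.H79.RU.TailU
import Pool.Agent.H79.RU.ConvU

/-!
# MP_a7284e_an, project RU: assembly
-/

set_option autoImplicit false

namespace Pool.Agent.H79.RU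

open Pool.Agent.H79.RT

theorem mod2_all : SMod2 := mod2 (modL (RT.mod bdg))

theorem lam_all : SLam := lam nq_spec ch

theorem link_all : SLink := link bdg mod2_all ch nq_spec

theorem nn_all : SN := nn_spec nq_spec ch lam_all link_all

theorem f2_all : SF2 := f2 nq_spec nn_all

theorem trU_all : STrU := trU f2_all

theorem normU_all : SNormU := normU flipAv

theorem maxU_all : SMaxU := maxU trU_all normU_all nq_spec

theorem convU_all : SConvU := convU maxU_all tailU

end Pool.Agent.H79.RU
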