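import Pool.Agent.H79.RT.Stm
import Pool.Agent.H79.RT.Basic

/-!
# MP_a7284e_an, project RU: hyperbolic shells in mixed norms, definitions

Finite cubes `Q n` (variable `x`) and `Q m` (variable `y`), two-parameter martingale differences
`D i j x y` with predictable majorants `A i j x y`. The clock depends on `x` only: it is the sum
over the levels `k` of the `L^q` norms in `y` (`q > 1`) of the energies of the levels.
-/

set_option autoImplicit false

namespace Pool.Agent.H79.RU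

open Finset Classical
open Pool.Agent.H79.RT

/-- two-parameter martingale differences with predictable majorants -/
structure Ar2 (n m : ℕ) (D A : ℕ → ℕ → Q n → Q m → ℝ) : Prop where
  odx : ∀ i j y, Od i fun x => D i j x y
  invx : ∀ i j y, Inv (i + 1) fun x => D i j x y
  ody : ∀ i j x, Od j (D i j x)
  invy : ∀ i j x, Inv (j + 1) (D i j x)
  pax : ∀ i j y, Inv i fun x => A i j x y
  pay : ∀ i j x, Inv j (A i j x)
  na : ∀ i j x y, 0 ≤ A i j x y
  dom : ∀ i j x y, |D i j x y| ≤ A i j x y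
  za : ∀ i j, n ≤ i ∨ m ≤ j → ∀ x y, A i j x y = 0

/-- the normalised `L^q` norm of a nonnegative function on the cube -/
noncomputable def nq {n : ℕ} (q : ℝ) (F : Q n → ℝ) : ℝ := (av fun x => F x ^ q) ^ (1 / q)

section defs

variable {n m : ℕ}

/-- energy of the row `j` -/
noncomputable def rw' (A : ℕ → ℕ → Q n → Q m → ℝ) (j : ℕ) (x : Q n) (y : Q m) : ℝ :=
  ∑ i ∈ range n, A i j x y ^ 2

/-- energy of the sites `(i, j)`, `j ≤ l`, with `i + j` in the set `S` of levels -/
noncomputable def wS (A : ℕ → ℕ → Q n → Q m → ℝ) (S : ℕ → Prop) (l : ℕ) (x : Q n) (y : Q m) : ℝ :=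
  ∑ i ∈ range n, ∑ j ∈ range m, if S (i + j) ∧ j ≤ l then A i j x y ^ 2 else 0

/-- energy of the level `k` -/
noncomputable def wk (A : ℕ → ℕ → Q n → Q m → ℝ) (k : ℕ) (x : Q n) (y : Q m) : ℝ :=
  ∑ i ∈ range n, ∑ j ∈ range m, if i + j = k then A i j x y ^ 2 else 0

/-- norm in `y` of the energy of the level `k` -/
noncomputable def vk (q : ℝ) (A : ℕ → ℕ → Q n → Q m → ℝ) (x : Q n) (k : ℕ) : ℝ := nq q (wk A k x)

/-- the total of the clock -/
noncomputable def VT (q : ℝ) (A : ℕ → ℕ → Q n → Q m → ℝ) (x : Q n) : ℝ :=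
  ∑ k ∈ range (n + m), vk q A x k

end defs

/-! ### the chain of levels -/

/-- class of the level `k` at the scale `s` of the clock `p` -/
noncomputable def cls (p : ℕ → ℝ) (s k : ℕ) : ℤ := ⌊(2 : ℝ) ^ s * ∑ l ∈ range (k + 1), p l⌋

/-- first level of the class of `k` at the scale `s` -/
noncomputable def fst (p : ℕ → ℝ) (s k : ℕ) : ℕ :=
  ((range k).filter fun l => cls p s l < cls p s k).card

/-- the level `l` belongs to the link that ends at `c`, scale `s` -/
def Lk (p : ℕ → ℝ) (s c l : ℕ) : Prop := fst p (s + 1) c = c ∧ fst p s c < l ∧ l ≤ c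

section act

variable {n m : ℕ}

/-- the row `j` belongs to the layer `b` of the function `Λ` -/
def Act (Λ : ℕ → Q n → Q m → ℝ) (b j : ℕ) (x : Q n) (y : Q m) : Prop :=
  Λ j x y ≤ 2 ^ (b + 1) ∧ (b = 0 ∨ 2 ^ b < Λ j x y)

/-- increment of the hyperbolic partial sums over the link `(s, c)`, restricted to the layer `b` -/
noncomputable def dX (q : ℝ) (D A : ℕ → ℕ → Q n → Q m → ℝ) (Λ : ℕ → Q n → Q m → ℝ) (s c b : ℕ)
    (x : Q n) (y : Q m) : ℝ :=
  ∑ j ∈ range m, ∑ i ∈ range n,
    if Act Λ b j x y ∧ Lk (vk q A x) s c (i + j) then D i j x y else 0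

/-- `Λ` controls the energies of the links up to the scale `S`, with rate `θ` and constant `C` -/
structure Ctl (q θ C : ℝ) (S : ℕ) (A : ℕ → ℕ → Q n → Q m → ℝ) (Λ : ℕ → Q n → Q m → ℝ) : Prop where
  inv : ∀ j x, Inv j (Λ j x)
  nn : ∀ j x y, 0 ≤ Λ j x y
  mono : ∀ j j' x y, j ≤ j' → Λ j x y ≤ Λ j' x y
  tot : ∀ j x y, wS A (fun _ => True) j x y ≤ Λ j x y
  lnk : ∀ s < S, ∀ c < n + m, ∀ j x y, θ ^ s * wS A (Lk (vk q A x) s c) j x y ≤ Λ j x y
  nrm : ∀ x, av (fun y => Λ m x y ^ q) ≤ C * VT q A x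

end act

end Pool.Agent.H79.RU
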