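import Pool.Agent.H79.RU.Stm

/-!
# MP_a7284e_an, project RU: the maximal inequality for a bounded clock, tools
-/

set_option autoImplicit false

namespace Pool.Agent.H79.RU

open Finset Classical
open Pool.Agent.H79.RT

variable {n m : ℕ}

/-! ### inequalities -/

/-- weighted Cauchy-Schwarz -/
theorem nn_cs {ι : Type*} (s : Finset ι) (w z : ι → ℝ) (hw : ∀ i ∈ s, 0 < w i)
    (hs : ∑ i ∈ s, w i ≤ 1) : (∑ i ∈ s, z i) ^ 2 ≤ ∑ i ∈ s, z i ^ 2 / w i := by
  have h0 : 0 ≤ ∑ i ∈ s, z i ^ 2 / w i :=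
    sum_nonneg fun i hi => div_nonneg (sq_nonneg _) (hw i hi).le
  have h := Finset.sum_sq_le_sum_mul_sum_of_sq_le_mul s (f := w)
    (g := fun i => z i ^ 2 / w i) (r := z) (fun i hi => (hw i hi).le)
    (fun i hi => div_nonneg (sq_nonneg _) (hw i hi).le) (fun i hi => by
      have := (hw i hi).ne'
      refine le_of_eq ?_
      field_simp)
  refine h.trans ?_
  calc (∑ i ∈ s, w i) * ∑ i ∈ s, z i ^ 2 / w i ≤ 1 * ∑ i ∈ s, z i ^ 2 / w i :=
        mul_le_mul_of_nonneg_right hs h0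
    _ = _ := one_mul _

theorem nn_wj {ι : Type*} (s : Finset ι) (w : ι → ℝ) (T : ι → Q m → ℝ) (hw : ∀ i ∈ s, 0 < w i)
    (hs : ∑ i ∈ s, w i ≤ 1) :
    (av fun y => (∑ i ∈ s, T i y) ^ 2) ^ 4 ≤
      ∑ i ∈ s, (av fun y => T i y ^ 2) ^ 4 / w i ^ 7 := by
  have h1 : av (fun y => (∑ i ∈ s, T i y) ^ 2) ≤ ∑ i ∈ s, (av fun y => T i y ^ 2) / w i := by
    calc av (fun y => (∑ i ∈ s, T i y) ^ 2) ≤ av fun y => ∑ i ∈ s, T i y ^ 2 / w i :=
          av_mono fun y => nn_cs s w (fun i => T i y) hw hs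
      _ = ∑ i ∈ s, av fun y => T i y ^ 2 / w i := av_sum _ _
      _ = _ := by
        refine sum_congr rfl fun i _ => ?_
        have : (fun y => T i y ^ 2 / w i) = fun y => T i y ^ 2 * (w i)⁻¹ := by
          funext y
          rw [div_eq_mul_inv]
        rw [this, av_mul_right, div_eq_mul_inv]
  have h2 := nn_cs s w (fun i => (av fun y => T i y ^ 2) / w i) hw hs
  have h3 := nn_cs s w (fun i => ((av fun y => T i y ^ 2) / w i) ^ 2 / w i) hw hs
  have h0 : 0 ≤ av (fun y => (∑ i ∈ s, T i y) ^ 2) := av_nonneg fun y => sq_nonneg _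
  have h4 : (av fun y => (∑ i ∈ s, T i y) ^ 2) ^ 2 ≤
      ∑ i ∈ s, ((av fun y => T i y ^ 2) / w i) ^ 2 / w i :=
    (pow_le_pow_left₀ h0 h1 2).trans h2
  calc (av fun y => (∑ i ∈ s, T i y) ^ 2) ^ 4 = ((av fun y => (∑ i ∈ s, T i y) ^ 2) ^ 2) ^ 2 := by
        ring
    _ ≤ (∑ i ∈ s, ((av fun y => T i y ^ 2) / w i) ^ 2 / w i) ^ 2 :=
        pow_le_pow_left₀ (sq_nonneg _) h4 2
    _ ≤ _ := h3
    _ = _ := by
      refine sum_congr rfl fun i hi => ?_
      have := (hw i hi).ne'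
      field_simp

theorem nn_av_cs (F G : Q m → ℝ) :
    (av fun y => F y * G y) ^ 2 ≤ (av fun y => F y ^ 2) * av fun y => G y ^ 2 := by
  unfold av
  rw [div_pow, ← mul_div_mul_comm, sq (2 ^ m : ℝ)]
  refine div_le_div_of_nonneg_right ?_ (by positivity)
  exact sum_mul_sq_le_sq_mul_sq _ _ _

theorem nn_hol (T : Q m → ℝ) (E : Q m → Prop) (h : ∀ y, ¬E y → T y = 0) :
    (av fun y => T y ^ 2) ^ 4 ≤
      (av fun y => T y ^ 8) * (av fun y => if E y then (1 : ℝ) else 0) ^ 3 := by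
  set P : ℝ := av fun y => if E y then (1 : ℝ) else 0 with hP
  have key : ∀ k : ℕ, k ≠ 0 → (av fun y => T y ^ k) ^ 2 ≤ (av fun y => T y ^ (2 * k)) * P := by
    intro k hk
    have h1 := nn_av_cs (fun y => T y ^ k) (fun y => if E y then (1 : ℝ) else 0)
    have h2 : (fun y => T y ^ k * if E y then (1 : ℝ) else 0) = fun y => T y ^ k := by
      funext y
      by_cases hy : E y
      · rw [if_pos hy, mul_one]
      · rw [if_neg hy, h y hy, zero_pow hk, mul_zero]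
    have h3 : (fun y => (T y ^ k) ^ 2) = fun y => T y ^ (2 * k) := by
      funext y
      rw [← pow_mul, mul_comm]
    have h4 : (fun y => (if E y then (1 : ℝ) else 0) ^ 2) = fun y => if E y then (1 : ℝ) else 0 := by
      funext y
      by_cases hy : E y
      · rw [if_pos hy, one_pow]
      · rw [if_neg hy]
        norm_num
    rw [h2, h3, h4] at h1
    exact h1
  have hP0 : 0 ≤ P := av_nonneg fun y => by split_ifs <;> norm_num
  have h2 := key 2 (by norm_num)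
  have h4 := key 4 (by norm_num)
  norm_num at h2 h4
  have hb : 0 ≤ av fun y => T y ^ 4 := av_nonneg fun y => by positivity
  calc (av fun y => T y ^ 2) ^ 4 = ((av fun y => T y ^ 2) ^ 2) ^ 2 := by ring
    _ ≤ ((av fun y => T y ^ 4) * P) ^ 2 := pow_le_pow_left₀ (sq_nonneg _) h2 2
    _ = (av fun y => T y ^ 4) ^ 2 * P ^ 2 := by ring
    _ ≤ ((av fun y => T y ^ 8) * P) * P ^ 2 := mul_le_mul_of_nonneg_right h4 (by positivity)
    _ = _ := by ring

/-! ### the layers -/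

/-- some row is in the layer `b` -/
def nnE (Λ : ℕ → Q n → Q m → ℝ) (b : ℕ) (x : Q n) (y : Q m) : Prop := ∃ j < m, Act Λ b j x y

theorem nn_prob {q θ C : ℝ} {S : ℕ} {A : ℕ → ℕ → Q n → Q m → ℝ} {Λ : ℕ → Q n → Q m → ℝ}
    (hq : 1 < q) (hC : 0 ≤ C) (hV : ∀ x, VT q A x < 1) (h : Ctl q θ C S A Λ) (b : ℕ) (x : Q n) :
    (av fun y => if nnE Λ b x y then (1 : ℝ) else 0) ≤
      max C 1 * ((2 : ℝ) ^ (-q)) ^ b := by
  rcases Nat.eq_zero_or_pos b with rfl | hb
  · rw [pow_zero, mul_one]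
    refine (av_le_const fun y => ?_).trans (le_max_right C 1)
    split_ifs <;> norm_num
  · have hρ : 0 < (2 : ℝ) ^ (-q) := by positivity
    have h1 : ∀ y, (if nnE Λ b x y then (1 : ℝ) else 0) ≤
        ((2 : ℝ) ^ (-q)) ^ b * Λ m x y ^ q := by
      intro y
      have hn : 0 ≤ Λ m x y := h.nn m x y
      split_ifs with hy
      · obtain ⟨j, hj, hj1, hj2⟩ := hy
        have h2 : (2 : ℝ) ^ b < Λ j x y := hj2.resolve_left (by omega)
        have h3 : (2 : ℝ) ^ b ≤ Λ m x y := h2.le.trans (h.mono j m x y hj.le)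
        have h4 : ((2 : ℝ) ^ b) ^ q ≤ Λ m x y ^ q :=
          Real.rpow_le_rpow (by positivity) h3 (by linarith)
        have h5 : ((2 : ℝ) ^ (-q)) ^ b * ((2 : ℝ) ^ b) ^ q = 1 := by
          rw [← Real.rpow_natCast, ← Real.rpow_natCast, ← Real.rpow_mul (by norm_num),
            ← Real.rpow_mul (by norm_num), ← Real.rpow_add (by norm_num)]
          rw [show -q * (b : ℝ) + (b : ℝ) * q = 0 by ring, Real.rpow_zero]
        calc (1 : ℝ) = ((2 : ℝ) ^ (-q)) ^ b * ((2 : ℝ) ^ b) ^ q := h5.symm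
          _ ≤ _ := mul_le_mul_of_nonneg_left h4 (by positivity)
      · have := Real.rpow_nonneg hn q
        positivity
    calc (av fun y => if nnE Λ b x y then (1 : ℝ) else 0)
        ≤ av fun y => ((2 : ℝ) ^ (-q)) ^ b * Λ m x y ^ q := av_mono h1
      _ = ((2 : ℝ) ^ (-q)) ^ b * av fun y => Λ m x y ^ q := av_mul_left _ _
      _ ≤ ((2 : ℝ) ^ (-q)) ^ b * (C * VT q A x) :=
          mul_le_mul_of_nonneg_left (h.nrm x) (by positivity)
      _ ≤ ((2 : ℝ) ^ (-q)) ^ b * (C * 1) :=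
          mul_le_mul_of_nonneg_left (mul_le_mul_of_nonneg_left (hV x).le hC) (by positivity)
      _ ≤ ((2 : ℝ) ^ (-q)) ^ b * max C 1 :=
          mul_le_mul_of_nonneg_left (by rw [mul_one]; exact le_max_left C 1) (by positivity)
      _ = _ := mul_comm _ _

/-- every row belongs to exactly one layer -/
theorem nn_act {Λ : ℕ → Q n → Q m → ℝ} {B j : ℕ} {x : Q n} {y : Q m} (hB : 1 ≤ B)
    (h : Λ j x y ≤ 2 ^ B) (v : ℝ) : ∑ b ∈ range B, (if Act Λ b j x y then v else 0) = v := by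
  have hex : ∃ b : ℕ, Λ j x y ≤ 2 ^ (b + 1) := ⟨B - 1, by
    rw [Nat.sub_add_cancel hB]; exact h⟩
  have h1 := Nat.find_spec hex
  have h2 : Nat.find hex ≤ B - 1 := Nat.find_min' hex (by
    rw [Nat.sub_add_cancel hB]; exact h)
  have h3 : Act Λ (Nat.find hex) j x y := by
    refine ⟨h1, ?_⟩
    rcases Nat.eq_zero_or_pos (Nat.find hex) with h0 | h0
    · exact Or.inl h0
    · right
      have h4 := Nat.find_min hex (m := Nat.find hex - 1) (by omega)
      rw [Nat.sub_add_cancel h0] at h4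
      exact not_le.1 h4
  rw [sum_eq_single_of_mem (Nat.find hex) (mem_range.2 (by omega)) fun b _ hne => ?_, if_pos h3]
  refine if_neg fun hb => ?_
  have h4 : Nat.find hex ≤ b := Nat.find_min' hex hb.1
  have h5 : (2 : ℝ) ^ b < Λ j x y := hb.2.resolve_left (by omega)
  have h6 : (2 : ℝ) ^ (Nat.find hex + 1) ≤ 2 ^ b :=
    pow_le_pow_right₀ (by norm_num) (by omega)
  linarith

/-! ### levels -/

/-- the differences on the level `l` -/
noncomputable def nnF (D : ℕ → ℕ → Q n → Q m → ℝ) (x : Q n) (y : Q m) (l : ℕ) : ℝ :=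
  ∑ i ∈ range n, ∑ j ∈ range m, if i + j = l then D i j x y else 0

theorem nn_set (D : ℕ → ℕ → Q n → Q m → ℝ) (x : Q n) (y : Q m) (s : Finset ℕ) (P : ℕ → Prop)
    (hs : ∀ i < n, ∀ j < m, P (i + j) → i + j ∈ s) :
    ∑ l ∈ s, (if P l then nnF D x y l else 0) =
      ∑ i ∈ range n, ∑ j ∈ range m, if P (i + j) then D i j x y else 0 := by
  have h1 : ∀ l ∈ s, (if P l then nnF D x y l else 0) =
      ∑ i ∈ range n, ∑ j ∈ range m, if i + j = l then (if P l then D i j x y else 0) else 0 := by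
    intro l _
    unfold nnF
    by_cases hl : P l
    · simp only [if_pos hl]
    · simp [if_neg hl]
  rw [sum_congr rfl h1, sum_comm]
  refine sum_congr rfl fun i hi => ?_
  rw [sum_comm]
  refine sum_congr rfl fun j hj => ?_
  rw [sum_ite_eq]
  by_cases hp : P (i + j)
  · rw [if_pos (hs i (mem_range.1 hi) j (mem_range.1 hj) hp)]
  · rw [if_neg hp]
    split_ifs <;> rfl

theorem nn_xs (D : ℕ → ℕ → Q n → Q m → ℝ) (x : Q n) (y : Q m) (k : ℕ) :
    XS D k x y = ∑ l ∈ range (k + 1), nnF D x y l := by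
  have h := nn_set D x y (range (k + 1)) (fun l => l ≤ k) (fun i _ j _ h => mem_range.2 (by omega))
  refine Eq.trans ?_ (h.symm.trans ?_)
  · unfold XS
    refine sum_congr rfl fun i _ => sum_congr rfl fun j _ => ?_
    by_cases hij : i + j ≤ k
    · rw [if_pos hij, if_pos hij]
    · rw [if_neg hij, if_neg hij]
  · refine sum_congr rfl fun l hl => ?_
    rw [mem_range] at hl
    rw [if_pos (by omega)]

theorem nn_sumdX {q : ℝ} {D A : ℕ → ℕ → Q n → Q m → ℝ} {Λ : ℕ → Q n → Q m → ℝ} {B : ℕ}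
    (hB : 1 ≤ B) (x : Q n) (y : Q m) (h : ∀ j < m, Λ j x y ≤ 2 ^ B) (s c : ℕ) :
    ∑ b ∈ range B, dX q D A Λ s c b x y =
      ∑ l ∈ range (n + m), if Lk (vk q A x) s c l then nnF D x y l else 0 := by
  rw [nn_set D x y (range (n + m)) (fun l => Lk (vk q A x) s c l)
    (fun i hi j hj _ => mem_range.2 (by omega))]
  unfold dX
  rw [sum_comm, sum_comm (s := range n)]
  refine sum_congr rfl fun j hj => ?_
  rw [sum_comm]
  refine sum_congr rfl fun i hi => ?_
  rw [← nn_act hB (h j (mem_range.1 hj))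
    (if Lk (vk q A x) s c (i + j) then D i j x y else 0)]
  refine sum_congr rfl fun b _ => ?_
  by_cases h1 : Act Λ b j x y
  · by_cases h2 : Lk (vk q A x) s c (i + j)
    · rw [if_pos ⟨h1, h2⟩, if_pos h1, if_pos h2]
    · rw [if_neg fun h3 => h2 h3.2, if_pos h1, if_neg h2]
  · rw [if_neg fun h3 => h1 h3.1, if_neg h1]

theorem nn_wk_nn {A : ℕ → ℕ → Q n → Q m → ℝ} (k : ℕ) (x : Q n) (y : Q m) : 0 ≤ wk A k x y := by
  unfold wk
  refine sum_nonneg fun i _ => sum_nonneg fun j _ => ?_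
  split_ifs
  · positivity
  · exact le_rfl

theorem nn_vk_nn (h1 : SNq) {q : ℝ} (hq : 1 < q) (A : ℕ → ℕ → Q n → Q m → ℝ) (x : Q n) (k : ℕ) :
    0 ≤ vk q A x k :=
  ((h1 m q hq.le).1 (wk A k x) (nn_wk_nn k x)).1

theorem nn_Fz (h1 : SNq) {q : ℝ} (hq : 1 < q) {D A : ℕ → ℕ → Q n → Q m → ℝ} (hA : Ar2 n m D A)
    (x : Q n) (y : Q m) {l : ℕ} (hl : vk q A x l = 0) : nnF D x y l = 0 := by
  have h2 := ((h1 m q hq.le).1 (wk A l x) (nn_wk_nn l x)).2.2.2.1 hl y
  unfold wk at h2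
  have h3 : ∀ i ∈ range n, ∀ j ∈ range m,
      0 ≤ (if i + j = l then A i j x y ^ 2 else (0 : ℝ)) := by
    intro i _ j _
    split_ifs
    · positivity
    · exact le_rfl
  rw [sum_eq_zero_iff_of_nonneg fun i hi => sum_nonneg fun j hj => h3 i hi j hj] at h2
  unfold nnF
  refine sum_eq_zero fun i hi => sum_eq_zero fun j hj => ?_
  have h4 := h2 i hi
  rw [sum_eq_zero_iff_of_nonneg fun j hj => h3 i hi j hj] at h4
  have h5 := h4 j hj
  split_ifs with h6
  · rw [if_pos h6] at h5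
    have h7 : A i j x y = 0 := by
      simpa using h5
    have h8 := hA.dom i j x y
    rw [h7] at h8
    exact abs_nonpos_iff.1 h8
  · rfl

/-- the pointwise bound -/
theorem nn_pt (h1 : SNq) {q : ℝ} (hq : 1 < q) {D A : ℕ → ℕ → Q n → Q m → ℝ} (hA : Ar2 n m D A)
    (hn : 1 ≤ n) (hm : 1 ≤ m) {Λ : ℕ → Q n → Q m → ℝ} {B S : ℕ} (hB : 1 ≤ B) (x : Q n) (y : Q m)
    (hΛ : ∀ j < m, Λ j x y ≤ 2 ^ B)
    (hS : ∀ k < n + m, ∀ F : ℕ → ℝ, (∀ l < n + m, vk q A x l = 0 → F l = 0) →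
      ∑ l ∈ range (k + 1), F l = F 0 + ∑ s ∈ range S, ∑ l ∈ range (n + m),
        if Lk (vk q A x) s (fst (vk q A x) (s + 1) k) l then F l else 0) :
    ∃ κ < n + m, MX D x y ≤ |D 0 0 x y| +
      ∑ s ∈ range S, ∑ b ∈ range B, |dX q D A Λ s (fst (vk q A x) (s + 1) κ) b x y| := by
  obtain ⟨k, hk, hk2⟩ := exists_mem_eq_sup' (s := range (n + m + 1))
    ⟨0, mem_range.2 (by omega)⟩ fun k => |XS D k x y|
  have hk3 : MX D x y = |XS D k x y| := hk2
  rw [mem_range] at hk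
  have hF0 : nnF D x y 0 = D 0 0 x y := by
    unfold nnF
    rw [sum_eq_single_of_mem 0 (mem_range.2 (by omega)) fun i _ hi => ?_,
      sum_eq_single_of_mem 0 (mem_range.2 (by omega)) fun j _ hj => ?_]
    · rw [if_pos rfl]
    · exact if_neg (by omega)
    · exact sum_eq_zero fun j _ => if_neg (by omega)
  have main : ∀ κ < n + m, |XS D κ x y| ≤ |D 0 0 x y| +
      ∑ s ∈ range S, ∑ b ∈ range B, |dX q D A Λ s (fst (vk q A x) (s + 1) κ) b x y| := by
    intro κ hκ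
    rw [nn_xs, hS κ hκ (nnF D x y) (fun l _ hl => nn_Fz h1 hq hA x y hl), hF0]
    refine (abs_add_le _ _).trans (add_le_add le_rfl ?_)
    refine (abs_sum_le_sum_abs _ _).trans (sum_le_sum fun s _ => ?_)
    rw [← nn_sumdX hB x y hΛ]
    exact abs_sum_le_sum_abs _ _
  rcases Nat.lt_or_ge k (n + m) with h | h
  · exact ⟨k, h, hk3 ▸ main k h⟩
  · refine ⟨n + m - 1, by omega, ?_⟩
    have h2 : XS D k x y = XS D (n + m - 1) x y := by
      unfold XS
      refine sum_congr rfl fun i hi => sum_congr rfl fun j hj => ?_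
      rw [mem_range] at hi hj
      rw [if_pos (by omega), if_pos (by omega)]
    rw [hk3, h2]
    exact main _ (by omega)

/-! ### the sum over the scales and the layers -/

theorem nn_geo {u v : ℝ} (hu0 : 0 < u) (hu1 : u < 1) (hv0 : 0 < v) (hv1 : v < 1) (S B : ℕ) :
    ∑ a ∈ range S ×ˢ range B, (1 - u) * (1 - v) * (u ^ a.1 * v ^ a.2) ≤ 1 := by
  have h1 : ∀ w : ℝ, 0 < w → w < 1 → ∀ N : ℕ, (1 - w) * ∑ i ∈ range N, w ^ i ≤ 1 := by
    intro w h0 h1 N
    rw [mul_neg_geom_sum]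
    have := pow_pos h0 N
    linarith
  rw [← mul_sum, sum_product]
  have h2 : ∑ i ∈ range S, ∑ j ∈ range B, u ^ i * v ^ j =
      (∑ i ∈ range S, u ^ i) * ∑ j ∈ range B, v ^ j := by
    rw [sum_mul_sum]
  rw [h2]
  have h3 := h1 u hu0 hu1 S
  have h4 := h1 v hv0 hv1 B
  have h5 : 0 ≤ ∑ i ∈ range S, u ^ i := sum_nonneg fun i _ => by positivity
  have h6 : 0 ≤ ∑ i ∈ range B, v ^ i := sum_nonneg fun i _ => by positivity
  have h7 : 0 ≤ 1 - u := by linarith
  have h8 : 0 ≤ 1 - v := by linarith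
  calc (1 - u) * (1 - v) * ((∑ i ∈ range S, u ^ i) * ∑ j ∈ range B, v ^ j)
      = ((1 - u) * ∑ i ∈ range S, u ^ i) * ((1 - v) * ∑ j ∈ range B, v ^ j) := by ring
    _ ≤ 1 := mul_le_one₀ h3 (mul_nonneg h8 h6) h4

end Pool.Agent.H79.RU
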