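import Pool.Agent.H79.RU.Defs

/-!
# MP_a7284e_an, project RU: statements of the rows on cubes
-/

set_option autoImplicit false

namespace Pool.Agent.H79.RU

open Finset Classical
open Pool.Agent.H79.RT

/-- U1: the modulus of continuity, localised -/
def SModL : Prop := ∃ K : ℝ, 0 ≤ K ∧ ∀ (n : ℕ) (e β : ℕ → Q n → ℝ),
  Mar n e β → (∀ x, ∑ i ∈ range n, β i x ^ 2 ≤ 1) → ∃ Z : Q n → ℝ, (∀ x, 0 ≤ Z x) ∧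
    av Z ≤ K * av (fun x => if ∃ i, β i x ≠ 0 then (1 : ℝ) else 0) ∧
    ∀ x s t, s ≤ t → (∑ i ∈ Ico s t, e i x) ^ 8 ≤ Z x * (∑ i ∈ Ico s t, β i x ^ 2) ^ 2

/-- U2: the modulus of continuity, without normalisation -/
def SMod2 : Prop := ∃ K : ℝ, 0 ≤ K ∧ ∀ (n : ℕ) (e β : ℕ → Q n → ℝ),
  Mar n e β → ∃ Z : Q n → ℝ, (∀ x, 0 ≤ Z x) ∧
    av Z ≤ K * av (fun x => ∑ i ∈ range n, β i x ^ 2) ∧
    ∀ x s t, s ≤ t → (∑ i ∈ Ico s t, e i x) ^ 8 ≤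
      Z x * (∑ i ∈ range n, β i x ^ 2) * (∑ i ∈ Ico s t, β i x ^ 2) ^ 2

/-- U3: the norms -/
def SNq : Prop := ∀ (n : ℕ) (q : ℝ), 1 ≤ q →
  (∀ F : Q n → ℝ, (∀ x, 0 ≤ F x) → 0 ≤ nq q F ∧ av F ≤ nq q F ∧
    nq q F ^ q = av (fun x => F x ^ q) ∧ (nq q F = 0 → ∀ x, F x = 0) ∧
    ∀ l, nq q (fun x => F (fl l x)) = nq q F) ∧
  (∀ F G : Q n → ℝ, (∀ x, 0 ≤ F x) → (∀ x, F x ≤ G x) → nq q F ≤ nq q G) ∧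
  (∀ (c : ℝ) (F : Q n → ℝ), 0 ≤ c → (∀ x, 0 ≤ F x) → nq q (fun x => c * F x) = c * nq q F) ∧
  ∀ (ι : Type) (s : Finset ι) (F : ι → Q n → ℝ), (∀ k x, 0 ≤ F k x) →
    nq q (fun x => ∑ k ∈ s, F k x) ≤ ∑ k ∈ s, nq q (F k)

/-- U4: the chain of levels -/
def SCh : Prop := ∀ (N : ℕ) (p : ℕ → ℝ), (∀ k, 0 ≤ p k) → ∑ k ∈ range N, p k < 1 →
  (∀ s l, ∀ c < N, ∀ c' < N, Lk p s c l → Lk p s c' l → c = c') ∧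
  (∀ s, ∀ c < N, ∑ l ∈ range N, (if Lk p s c l then p l else 0) ≤ 1 / 2 ^ s) ∧
  (∀ s k, fst p s k ≤ k) ∧
  ∃ S₀ : ℕ, ∀ S, S₀ ≤ S → ∀ k < N, ∀ F : ℕ → ℝ, (∀ l < N, p l = 0 → F l = 0) →
    ∑ l ∈ range (k + 1), F l = F 0 +
      ∑ s ∈ range S, ∑ l ∈ range N, if Lk p s (fst p (s + 1) k) l then F l else 0

/-- U5: the controlling function -/
def SLam : Prop := ∀ q : ℝ, 1 < q → ∃ θ C : ℝ, 1 < θ ∧ 0 ≤ C ∧ ∀ (n m : ℕ)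
  (D A : ℕ → ℕ → Q n → Q m → ℝ), Ar2 n m D A → (∀ x, VT q A x < 1) → ∀ S : ℕ,
    ∃ Λ : ℕ → Q n → Q m → ℝ, Ctl q θ C S A Λ

/-- U6: the increments over the links of one scale in one layer -/
def SLink : Prop := ∃ K : ℝ, 0 ≤ K ∧ ∀ (q θ C : ℝ), 1 < q → 1 < θ → ∀ (n m S : ℕ)
  (D A : ℕ → ℕ → Q n → Q m → ℝ) (Λ : ℕ → Q n → Q m → ℝ), Ar2 n m D A → (∀ x, VT q A x < 1) →
  Ctl q θ C S A Λ → ∀ s < S, ∀ b : ℕ,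
    av2 (fun x y => ∑ c ∈ range (n + m), dX q D A Λ s c b x y ^ 8) ≤
      K * 8 ^ b / θ ^ s * av (VT q A)

/-- U7: the maximal inequality for a bounded clock -/
def SN : Prop := ∀ q : ℝ, 1 < q → ∃ K : ℝ, 0 ≤ K ∧ ∀ (n m : ℕ) (D A : ℕ → ℕ → Q n → Q m → ℝ),
  Ar2 n m D A → (∀ x, VT q A x < 1) →
    av (fun x => av (fun y => MX D x y ^ 2) ^ 4) ≤ K * av (VT q A)

/-- U8: the maximal inequality on cubes -/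
def SF2 : Prop := ∀ q : ℝ, 1 < q → ∃ C : ℝ, 0 ≤ C ∧ ∀ (n m : ℕ)
  (D A : ℕ → ℕ → Q n → Q m → ℝ), Ar2 n m D A → av2 (fun x y => MX D x y ^ 2) ≤ C * av (VT q A)

end Pool.Agent.H79.RU
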