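import Pool.Agent.H79.RT.StmR
import Pool.Agent.H79.RT.Tr
import Pool.Agent.H79.RU.Stm

/-!
# MP_a7284e_an, project RU: statements of the rows on the plane
-/

set_option autoImplicit false

namespace Pool.Agent.H79.RU

open MeasureTheory FourierTransform Filter Topology Finset Classical ENNReal
open Pool.Agent.H73.Hyp
open Pool.Agent.H79.RT

/-- the energy of the level `k` in the window `L`, `L'` -/
noncomputable def Wz (L L' : ℕ) (f : L2) (k : ℤ) (z : E2) : ℝ :=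
  ∑ i ∈ range (2 * L), ∑ j ∈ range (2 * L'),
    if ((i : ℤ) - L) + ((j : ℤ) - L') = k then ‖bb L L' f i j z‖ ^ 2 else 0

/-- the flips of the digits `l₀, l₀ + 1, …, l₀ + m - 1` of the second coordinate -/
noncomputable def yf (l₀ : ℤ) {m : ℕ} (h : Q m) (z : E2) : E2 :=
  trob (fun j : ℕ => H73.Hyp.fl 1 (l₀ + j)) (trx h) m z

/-- the clock on the plane -/
noncomputable def Nz (q : ℝ) (l₀ : ℤ) (L L' : ℕ) (f : L2) (z : E2) : ℝ :=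
  ∑ k ∈ Icc (-((L : ℤ) + L')) ((L : ℤ) + L'),
    nq q fun h : Q (Int.toNat ((L' : ℤ) - l₀)) => Wz L L' f k (yf l₀ h z)

/-- P1: transfer to the plane -/
def STrU : Prop := ∀ q : ℝ, 1 < q → ∃ C : ℝ, 0 ≤ C ∧ ∀ (l₀ : ℤ) (L L' : ℕ) (f : L2),
  (∀ i j : ℕ, (j : ℤ) - L' < l₀ → bb L L' f i j = 0) → Integrable (Nz q l₀ L L' f) →
  ∀ K : Finset ℤ, Maj K (fun k => Xs L L' k f) (C * ∫ z, Nz q l₀ L L' f z)

/-- the square of the square function of the hyperbolic level `k`, from the scale `l₀` of the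
second variable on, in terms of Haar coefficients -/
noncomputable def shW (f : L2) (l₀ k : ℤ) (s t : ℝ) : ℝ≥0∞ :=
  ∑' i : ℤ, if l₀ ≤ k - i then ENNReal.ofReal ((2 : ℝ) ^ k *
    ‖cf f (i, ⌊(2 : ℝ) ^ i * s⌋) (k - i, ⌊(2 : ℝ) ^ (k - i) * t⌋)‖ ^ 2) else 0

/-- the sum over the levels and over the dyadic intervals of length `2 ^ (-l₀)` of the mixed norm
`L¹(L^q)` of the squares of the square functions of the levels, `L^q` normalised -/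
noncomputable def shN (q : ℝ) (f : L2) (l₀ : ℤ) : ℝ≥0∞ :=
  ∑' c : ℤ, ∑' k : ℤ, ∫⁻ s : ℝ, ENNReal.ofReal ((2 : ℝ) ^ (-l₀)) *
    (ENNReal.ofReal ((2 : ℝ) ^ l₀) *
      ∫⁻ t in Set.Ico ((c : ℝ) * (2 : ℝ) ^ (-l₀)) (((c : ℝ) + 1) * (2 : ℝ) ^ (-l₀)),
        shW f l₀ k s t ^ q) ^ (1 / q)

/-- no Haar coefficients below the scale `l₀` of the second variable -/
def Lo (f : L2) (l₀ : ℤ) : Prop := ∀ p r : ℤ × ℤ, r.1 < l₀ → cf f p r = 0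

/-- P2a: averages over flips are averages over dyadic intervals -/
def SFlipAv : Prop := ∀ (l₀ : ℤ) (m : ℕ) (g : ℤ → ℝ) (z : E2), (∀ c, 0 ≤ g c) →
  ENNReal.ofReal (av fun h : Q m => g ⌊(2 : ℝ) ^ (l₀ + m) * (yf l₀ h z) 1⌋) =
    ENNReal.ofReal ((2 : ℝ) ^ l₀) * ∫⁻ t in Set.Ico ((⌊(2 : ℝ) ^ l₀ * z 1⌋ : ℝ) * (2 : ℝ) ^ (-l₀))
      (((⌊(2 : ℝ) ^ l₀ * z 1⌋ : ℝ) + 1) * (2 : ℝ) ^ (-l₀)),
        ENNReal.ofReal (g ⌊(2 : ℝ) ^ (l₀ + m) * t⌋)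

/-- P2: the clock on the plane in terms of Haar coefficients -/
def SNormU : Prop := ∀ (q : ℝ), 1 < q → ∀ (l₀ : ℤ) (f : L2) (B : ℝ), 0 ≤ B → Lo f l₀ →
  shN q f l₀ ≤ ENNReal.ofReal B → ∀ L L' : ℕ,
    (∀ i j : ℕ, (j : ℤ) - L' < l₀ → bb L L' f i j = 0) ∧ Integrable (Nz q l₀ L L' f) ∧
      ∫ z, Nz q l₀ L L' f z ≤ B

/-- P3: the maximal inequality -/
def SMaxU : Prop := ∀ q : ℝ, 1 < q → ∃ C : ℝ, 0 ≤ C ∧ ∀ (l₀ : ℤ) (f : L2) (B : ℝ), 0 ≤ B →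
  Lo f l₀ → shN q f l₀ ≤ ENNReal.ofReal B → ‖f‖ ^ 2 ≤ C * B ∧
    ∀ K : Finset ℤ, K.Nonempty → Maj K (fun k => Hc k f) (C * B)

/-- P4a: the tails -/
def STailU : Prop := ∀ (q : ℝ), 1 < q → ∀ (l₀ : ℤ) (f : L2), Lo f l₀ → shN q f l₀ ≠ ⊤ →
  (∀ b : ℕ, Lo (f - Ep (Uf 0) (b : ℤ) (Ep (Uf 1) (b : ℤ) f)) l₀) ∧
  Tendsto (fun b : ℕ => shN q (f - Ep (Uf 0) (b : ℤ) (Ep (Uf 1) (b : ℤ) f)) l₀) atTop (𝓝 0)

/-- P4: convergence -/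
def SConvU : Prop := ∀ (q : ℝ), 1 < q → ∀ (l₀ : ℤ) (f : L2), Lo f l₀ → shN q f l₀ ≠ ⊤ →
  ∀ᵐ x : E2, Tendsto (fun k : ℕ => Hc k f x) atTop (𝓝 (f x))

end Pool.Agent.H79.RU
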